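import Mathlib

/-! Definitions used in the statement on systolic growth. -/

namespace Pool.Agent.Work.MP_913e71_al

open MeasureTheory
open scoped ENNReal

/-- Word length of `x` with respect to `S`: the least length of a word in `S ∪ S⁻¹` equal to `x`. -/
noncomputable def wordLength {H : Type} [Group H] (S : Set H) (x : H) : ℕ :=
  sInf {n : ℕ | ∃ l : List H, l.length = n ∧ (∀ s ∈ l, s ∈ S ∨ s⁻¹ ∈ S) ∧ l.prod = x}

/-- A cocompact lattice: a discrete subgroup with compact quotient. -/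
def IsCocompactLattice {H : Type} [Group H] [TopologicalSpace H] (Γ : Subgroup H) : Prop :=
  DiscreteTopology Γ ∧ CompactSpace (H ⧸ Γ)

/-- Systolic growth: the infimum of the covolumes of the cocompact lattices all of whose
nontrivial elements have word length at least `r`. -/
noncomputable def sysGrowth {H : Type} [Group H] [TopologicalSpace H] [MeasurableSpace H]
    (S : Set H) (μ : Measure H) (r : ℝ) : ℝ≥0∞ :=
  ⨅ (Γ : Subgroup H) (_ : IsCocompactLattice Γ)
    (_ : ∀ x ∈ Γ, x ≠ 1 → r ≤ (wordLength S x : ℝ)), covolume Γ H μ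

/-- `f ≼ g`: `f r ≤ C g (C' r) + C''` for all `r > 0`. -/
def Dom (f g : ℝ → ℝ≥0∞) : Prop :=
  ∃ C C' C'' : ℝ, 0 < C ∧ 0 < C' ∧ 0 < C'' ∧
    ∀ r : ℝ, 0 < r → f r ≤ ENNReal.ofReal C * g (C' * r) + ENNReal.ofReal C''

/-- Polynomial growth: the measure of the ball of radius `n` is at most `C n ^ d`. -/
def PolyGrowth {H : Type} [Group H] [MeasurableSpace H] (S : Set H) (μ : Measure H) : Prop :=
  ∃ (C : ℝ) (d : ℕ), ∀ n : ℕ, 1 ≤ n → μ {x | wordLength S x ≤ n} ≤ ENNReal.ofReal (C * n ^ d)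

end Pool.Agent.Work.MP_913e71_al
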