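import Pool.Agent.Work.MP_913e71_al.Defs

/-! Growth and systolic growth of a discrete group. -/

namespace Pool.Agent.Work.MP_913e71_al

open scoped ENNReal

/-- Growth: the number of elements of word length at most `r`. -/
noncomputable def ballCard {G : Type} [Group G] (S : Set G) (r : ℝ) : ℝ≥0∞ :=
  ({x : G | (wordLength S x : ℝ) ≤ r}).encard

/-- Systolic growth of a discrete group: the least index of a finite index subgroup all of whose
nontrivial elements have word length at least `r`. -/
noncomputable def sysIndex {G : Type} [Group G] (S : Set G) (r : ℝ) : ℝ≥0∞ :=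
  ⨅ (Λ : Subgroup G) (_ : Λ.FiniteIndex)
    (_ : ∀ x ∈ Λ, x ≠ 1 → r ≤ (wordLength S x : ℝ)), (Λ.index : ℝ≥0∞)

end Pool.Agent.Work.MP_913e71_al
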