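import Pool.Agent.Work.MP_913e71_al.Defs

/-! Volume growth. -/

namespace Pool.Agent.Work.MP_913e71_al

open MeasureTheory
open scoped ENNReal

/-- Volume growth: the measure of the set of elements of word length at most `r`. -/
noncomputable def ballVol {H : Type} [Group H] [MeasurableSpace H] (S : Set H) (μ : Measure H)
    (r : ℝ) : ℝ≥0∞ :=
  μ {x : H | (wordLength S x : ℝ) ≤ r}

end Pool.Agent.Work.MP_913e71_al
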