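import Pool.Agent.Work.MP_913e71_al.Defs

/-! General facts: word length and the exponent argument. -/

namespace Pool.Agent.Work.MP_913e71_al

open MeasureTheory Topology
open scoped ENNReal Pointwise

section Word
variable {H : Type} [Group H] {S : Set H}

/-- A shortest word exists (`Subgroup.closure_induction` or `Subgroup.mem_closure` with lists,
then `Nat.sInf_mem`). -/
lemma exists_word (hS : Subgroup.closure S = ⊤) (x : H) :
    ∃ l : List H, l.length = wordLength S x ∧ (∀ s ∈ l, s ∈ S ∨ s⁻¹ ∈ S) ∧ l.prod = x := by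
  have hx : x ∈ (Subgroup.closure S).toSubmonoid := hS ▸ Subgroup.mem_top x
  rw [Subgroup.closure_toSubmonoid] at hx
  obtain ⟨l, hl, e⟩ := Submonoid.exists_list_of_mem_closure hx
  exact Nat.sInf_mem (s := {n : ℕ | ∃ l : List H, l.length = n ∧ (∀ s ∈ l, s ∈ S ∨ s⁻¹ ∈ S) ∧
    l.prod = x}) ⟨_, l, rfl, hl, e⟩

lemma wordLength_le (l : List H) (hl : ∀ s ∈ l, s ∈ S ∨ s⁻¹ ∈ S) :
    wordLength S l.prod ≤ l.length := by
  exact Nat.sInf_le ⟨l, rfl, hl, rfl⟩

lemma wordLength_one : wordLength S 1 = 0 := by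
  exact Nat.le_zero.1 (wordLength_le [] (by simp))

lemma wordLength_mul_le (hS : Subgroup.closure S = ⊤) (x y : H) :
    wordLength S (x * y) ≤ wordLength S x + wordLength S y := by
  obtain ⟨l, e, hl, rfl⟩ := exists_word hS x
  obtain ⟨l', e', hl', rfl⟩ := exists_word hS y
  rw [← e, ← e', ← List.prod_append, ← List.length_append]
  exact wordLength_le _ fun s hs => (List.mem_append.1 hs).elim (hl s) (hl' s)

lemma wordLength_inv (hS : Subgroup.closure S = ⊤) (x : H) :
    wordLength S x⁻¹ = wordLength S x := by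
  have key : ∀ x : H, wordLength S x⁻¹ ≤ wordLength S x := fun x => by
    obtain ⟨l, e, hl, rfl⟩ := exists_word hS x
    rw [← e, List.prod_inv_reverse]
    refine (wordLength_le _ fun s hs => ?_).trans (by simp)
    obtain ⟨t, ht, rfl⟩ := List.mem_map.1 (List.mem_reverse.1 hs)
    rw [inv_inv]
    exact (hl t ht).symm
  exact le_antisymm (key x) (by simpa using key x⁻¹)

/-- Baire: the balls `{x | wordLength S x ≤ n}` are compact (image of `(S ∪ S⁻¹ ∪ {1}) ^ n`), they
cover `H`, so one has an interior point `x0`; then `x0⁻¹ *` ball is a neighbourhood `U` of `1` on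
which the length is bounded; finitely many translates `g U` cover `T`. -/
lemma wordLength_bdd [TopologicalSpace H] [IsTopologicalGroup H] [LocallyCompactSpace H]
    [T2Space H] (hc : IsCompact S) (hS : Subgroup.closure S = ⊤) {T : Set H} (hT : IsCompact T) :
    ∃ N : ℕ, ∀ x ∈ T, wordLength S x ≤ N := by
  have h1 : ∀ n : ℕ, IsCompact ((S ∪ S⁻¹) ^ n) ∧ ∀ x ∈ (S ∪ S⁻¹) ^ n, wordLength S x ≤ n := fun n => by
    induction n with
    | zero =>
      rw [pow_zero]
      exact ⟨isCompact_singleton, fun x hx => by rw [Set.mem_one.1 hx, wordLength_one]⟩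
    | succ n ih =>
      rw [pow_succ]
      refine ⟨ih.1.mul (hc.union hc.inv), ?_⟩
      rintro _ ⟨a, ha, b, hb, rfl⟩
      refine (wordLength_mul_le hS a b).trans (add_le_add (ih.2 a ha) ?_)
      simpa using wordLength_le (S := S) [b] fun s hs => List.mem_singleton.1 hs ▸ hb
  have h2 : ∀ l : List H, (∀ s ∈ l, s ∈ S ∨ s⁻¹ ∈ S) → l.prod ∈ (S ∪ S⁻¹) ^ l.length := fun l => by
    induction l with
    | nil => exact fun _ => Set.mem_one.2 rfl
    | cons a l ih =>
      intro hl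
      rw [List.prod_cons, List.length_cons, pow_succ']
      exact Set.mul_mem_mul (hl a List.mem_cons_self) (ih fun s hs => hl s (List.mem_cons_of_mem a hs))
  obtain ⟨n, x0, h0⟩ := nonempty_interior_of_iUnion_of_closed (f := fun n : ℕ => (S ∪ S⁻¹) ^ n)
    (fun n => (h1 n).1.isClosed) (Set.eq_univ_of_forall fun x => by
      obtain ⟨l, -, hl, rfl⟩ := exists_word hS x
      exact Set.mem_iUnion.2 ⟨_, h2 l hl⟩)
  refine hT.induction_on (p := fun T => ∃ N : ℕ, ∀ x ∈ T, wordLength S x ≤ N) ⟨0, by simp⟩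
    (fun s t hst ⟨N, hN⟩ => ⟨N, fun x hx => hN x (hst hx)⟩)
    (fun s t ⟨N, hN⟩ ⟨N', hN'⟩ => ⟨max N N', fun x hx =>
      hx.elim (fun h => le_max_of_le_left (hN x h)) fun h => le_max_of_le_right (hN' x h)⟩)
    fun y _ => ⟨(fun x => x0 * y⁻¹ * x) ⁻¹' ((S ∪ S⁻¹) ^ n), mem_nhdsWithin_of_mem_nhds
      ((continuous_const.mul continuous_id).continuousAt.preimage_mem_nhds ?_),
      wordLength S (y * x0⁻¹) + n, fun x hx => ?_⟩
  · simpa using mem_interior_iff_mem_nhds.1 h0
  · rw [show x = y * x0⁻¹ * (x0 * y⁻¹ * x) by group]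
    exact (wordLength_mul_le hS _ _).trans (add_le_add le_rfl ((h1 n).2 _ hx))

end Word

lemma Gen_aux {w : ℕ → ℝ} (hw : Filter.Tendsto w Filter.atTop Filter.atTop) {p q a K : ℝ}
    (hpq : q < p) (ha : 0 < a) (h : ∀ n, 1 ≤ w n → a * w n ^ p ≤ K * w n ^ q) : False := by
  obtain ⟨n, h1, h2⟩ := ((hw.eventually_ge_atTop 1).and
    (((tendsto_rpow_atTop (sub_pos.2 hpq)).comp hw).eventually_gt_atTop (K / a))).exists
  have h0 : 0 < w n := by linarith
  have h3 := h n h1
  rw [Function.comp_apply, Real.rpow_sub h0, div_lt_div_iff₀ ha (Real.rpow_pos_of_pos h0 q)] at h2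
  linarith

lemma Gen_real {a b C D : ℝ} (hC : 0 < C) (hD : 0 < D) (hb : 0 ≤ b)
    (h : ENNReal.ofReal a ≤ ENNReal.ofReal C * ENNReal.ofReal b + ENNReal.ofReal D) :
    a ≤ C * b + D := by
  rwa [← ENNReal.ofReal_mul hC.le, ← ENNReal.ofReal_add (by positivity) hD.le,
    ENNReal.ofReal_le_ofReal_iff (by positivity)] at h

/-- The exponent argument.  From `r ^ β ≼ σ` and the upper bounds along `u n → ∞` one gets
`β ≤ 100`; from `σ ≼ r ^ β` and the lower bounds along `v n → ∞` one gets `2 β ≥ 201`. -/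
lemma not_equiv_pow (σ : ℝ → ℝ≥0∞) (u v : ℕ → ℝ)
    (hu : Filter.Tendsto u Filter.atTop Filter.atTop)
    (hv : Filter.Tendsto v Filter.atTop Filter.atTop) (c c' A B : ℝ) (hc' : 0 < c') (hA : 0 < A)
    (hB : 0 < B)
    (hup : ∀ n, σ (A * u n) ≤ ENNReal.ofReal (c * u n ^ 100))
    (hlow : ∀ n, ENNReal.ofReal (c' * v n ^ 201) ≤ σ (B * v n ^ 2)) (β : ℝ) :
    ¬ (Dom σ (fun r => ENNReal.ofReal (r ^ β)) ∧ Dom (fun r => ENNReal.ofReal (r ^ β)) σ) := by
  rintro ⟨⟨C1, D1, E1, hC1, hD1, hE1, h1⟩, C2, D2, E2, hC2, hD2, hE2, h2⟩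
  have hβ : β ≤ 100 := by
    by_contra hb
    refine Gen_aux hu (p := β) (q := 100) (a := (A / D2) ^ β) (K := C2 * |c| + E2) (not_le.1 hb)
      (by positivity) fun n hn => ?_
    have h0 : 0 < u n := by linarith
    have h3 := h2 (A / D2 * u n) (by positivity)
    rw [show D2 * (A / D2 * u n) = A * u n by field_simp] at h3
    have h4 := Gen_real hC2 hE2 (b := |c| * u n ^ 100) (by positivity) (h3.trans (by
      gcongr
      exact (hup n).trans (ENNReal.ofReal_le_ofReal (by gcongr; exact le_abs_self c))))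
    rw [Real.mul_rpow (by positivity) h0.le] at h4
    rw [show (100 : ℝ) = (100 : ℕ) by norm_num, Real.rpow_natCast]
    have h5 : 1 ≤ u n ^ 100 := one_le_pow₀ hn
    nlinarith
  refine Gen_aux hv (p := 201) (q := 200) (a := c') (K := C1 * (D1 * B) ^ β + E1) (by norm_num) hc'
    fun n hn => ?_
  have h0 : 0 < v n := by linarith
  have h4 := Gen_real hC1 hE1 (by positivity) ((hlow n).trans (h1 (B * v n ^ 2) (by positivity)))
  rw [← mul_assoc, Real.mul_rpow (by positivity) (by positivity)] at h4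
  have h5 : (v n ^ 2) ^ β ≤ v n ^ 200 := by
    refine (Real.rpow_le_rpow_of_exponent_le (one_le_pow₀ hn) hβ).trans_eq ?_
    rw [show (100 : ℝ) = (100 : ℕ) by norm_num, Real.rpow_natCast, ← pow_mul]
  rw [show (201 : ℝ) = (201 : ℕ) by norm_num, show (200 : ℝ) = (200 : ℕ) by norm_num,
    Real.rpow_natCast, Real.rpow_natCast]
  have h6 : 1 ≤ v n ^ 200 := one_le_pow₀ hn
  have h7 : 0 < C1 * (D1 * B) ^ β := by positivity
  nlinarith

end Pool.Agent.Work.MP_913e71_al
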