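import Pool.Agent.Work.MP_913e71_al.Defs

/-! General facts: fundamental domains and covolume bounds. -/

namespace Pool.Agent.Work.MP_913e71_al

open MeasureTheory Topology
open scoped ENNReal

section Lattice
variable {H : Type} [Group H] [TopologicalSpace H] [IsTopologicalGroup H]

lemma discrete_of_nhds (Γ : Subgroup H) {U : Set H} (hU : U ∈ 𝓝 (1 : H))
    (h : ∀ γ ∈ Γ, γ ∈ U → γ = 1) : DiscreteTopology Γ := by
  obtain ⟨V, hVU, hV, h1⟩ := mem_nhds_iff.1 hU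
  refine discreteTopology_of_isOpen_singleton_one ?_
  have e : ({1} : Set Γ) = Subtype.val ⁻¹' V := by
    ext γ
    constructor
    · rintro rfl
      exact h1
    · intro hγ
      exact Subtype.ext (h γ γ.2 (hVU hγ))
  rw [e]
  exact hV.preimage continuous_subtype_val

/-- The image of `B⁻¹` in `H ⧸ Γ` is everything. -/
lemma compactSpace_quotient (Γ : Subgroup H) {B : Set H} (hB : IsCompact B)
    (h : ∀ x : H, ∃ γ ∈ Γ, γ * x ∈ B) : CompactSpace (H ⧸ Γ) := by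
  refine ⟨?_⟩
  have e : (Set.univ : Set (H ⧸ Γ)) = (fun b : H => (QuotientGroup.mk b⁻¹ : H ⧸ Γ)) '' B := by
    refine (Set.eq_univ_of_forall fun c => ?_).symm
    obtain ⟨x, rfl⟩ := QuotientGroup.mk_surjective c
    obtain ⟨γ, hγ, hx⟩ := h x⁻¹
    refine ⟨_, hx, QuotientGroup.eq.2 ?_⟩
    simpa using hγ
  rw [e]
  exact hB.image (QuotientGroup.continuous_mk.comp continuous_inv)

variable [SecondCountableTopology H] [MeasurableSpace H] [BorelSpace H]

/-- Take an open `V ∋ 1` with `V V⁻¹ ∩ Γ = {1}`, cover `H` by countably many `U n = V x n`, put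
`A n = Γ (U n)` (open, saturated) and `F = ⋃ n, U n \ ⋃ m < n, A m`; use
`IsFundamentalDomain.mk'`. -/
lemma exists_fundamentalDomain (Γ : Subgroup H) [DiscreteTopology Γ] (μ : Measure H) :
    ∃ F : Set H, IsFundamentalDomain Γ F μ := by
  classical
  obtain ⟨W, hW, hW1⟩ := isOpen_induced_iff.1 (isOpen_discrete ({1} : Set Γ))
  have h1W : (1 : H) ∈ W := by
    have : (1 : Γ) ∈ Subtype.val ⁻¹' W := hW1 ▸ Set.mem_singleton 1
    exact this
  obtain ⟨V0, hV0, hdiv⟩ := exists_nhds_split_inv (hW.mem_nhds h1W)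
  obtain ⟨V, hVV, hV, h1V⟩ := mem_nhds_iff.1 hV0
  let x : ℕ → H := TopologicalSpace.denseSeq H
  let U : ℕ → Set H := fun n => {y | y * (x n)⁻¹ ∈ V}
  let A : ℕ → Set H := fun n => ⋃ γ : Γ, {y | γ • y ∈ U n}
  have hU : ∀ n, IsOpen (U n) := fun n => hV.preimage (continuous_mul_const _)
  have hA : ∀ n, IsOpen (A n) := fun n =>
    isOpen_iUnion fun γ => (hU n).preimage (continuous_const_mul (γ : H))
  have hmem : ∀ n y, y ∈ A n ↔ ∃ γ : Γ, γ • y ∈ U n := fun n y => Set.mem_iUnion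
  have hsat : ∀ n (γ : Γ) y, γ • y ∈ A n ↔ y ∈ A n := by
    intro n γ y
    rw [hmem, hmem]
    constructor
    · rintro ⟨δ, hδ⟩
      exact ⟨δ * γ, by rwa [mul_smul]⟩
    · rintro ⟨δ, hδ⟩
      exact ⟨δ * γ⁻¹, by rwa [mul_smul, inv_smul_smul]⟩
  have hcov : ∀ y, ∃ n, y ∈ A n := by
    intro y
    have ho : IsOpen {z : H | y * z⁻¹ ∈ V} := hV.preimage (continuous_inv.const_mul y)
    obtain ⟨n, hn⟩ := (TopologicalSpace.denseRange_denseSeq H).exists_mem_open ho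
      ⟨y, by simpa using h1V⟩
    exact ⟨n, (hmem n y).2 ⟨1, by rw [one_smul]; exact hn⟩⟩
  refine ⟨⋃ n, U n \ ⋃ m ∈ Set.Iio n, A m, IsFundamentalDomain.mk' ?_ fun y => ?_⟩
  · refine (MeasurableSet.iUnion fun n => (hU n).measurableSet.diff ?_).nullMeasurableSet
    exact (isOpen_biUnion fun m _ => hA m).measurableSet
  · have key : ∀ γ : Γ, γ • y ∈ (⋃ n, U n \ ⋃ m ∈ Set.Iio n, A m) ↔
        γ • y ∈ U (Nat.find (hcov y)) := by
      intro γ
      rw [Set.mem_iUnion]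
      constructor
      · rintro ⟨n, h1, h2⟩
        have : Nat.find (hcov y) = n := by
          refine (Nat.find_eq_iff _).2 ⟨(hmem n y).2 ⟨γ, h1⟩, fun m hm h3 => h2 ?_⟩
          exact Set.mem_biUnion (Set.mem_Iio.2 hm) ((hsat m γ y).2 h3)
        rwa [this]
      · intro h1
        refine ⟨_, h1, fun h2 => ?_⟩
        obtain ⟨m, hm, h3⟩ := Set.mem_iUnion₂.1 h2
        exact Nat.find_min (hcov y) hm ((hsat m γ y).1 h3)
    obtain ⟨γ, hγ⟩ := (hmem _ y).1 (Nat.find_spec (hcov y))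
    refine ⟨γ, (key γ).2 hγ, fun δ hδ => ?_⟩
    have h2 := hdiv _ (hVV ((key δ).1 hδ)) _ (hVV hγ)
    have h3 : δ * γ⁻¹ ∈ Subtype.val ⁻¹' W := by
      simpa [Subgroup.smul_def, div_eq_mul_inv, mul_assoc] using h2
    rw [hW1] at h3
    exact mul_inv_eq_one.1 h3

/-- Packing (`IsFundamentalDomain.exists_ne_one_smul_eq`, `covolume_eq_volume`; `Γ` is countable
as a discrete second countable space). -/
lemma le_covolume (Γ : Subgroup H) [DiscreteTopology Γ] (μ : Measure H) [μ.IsMulLeftInvariant]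
    {B : Set H} (hB : MeasurableSet B) (h : ∀ γ ∈ Γ, ∀ b ∈ B, γ * b ∈ B → γ = 1) :
    μ B ≤ covolume Γ H μ := by
  have : Countable Γ := TopologicalSpace.separableSpace_iff_countable.1 inferInstance
  obtain ⟨F, hF⟩ := exists_fundamentalDomain Γ μ
  rw [hF.covolume_eq_volume]
  refine hF.measure_le_of_pairwise_disjoint hB.nullMeasurableSet fun γ δ hne => ?_
  refine Disjoint.aedisjoint (Set.disjoint_left.2 ?_)
  rintro _ ⟨⟨b, hb, rfl⟩, _⟩ ⟨⟨b', hb', e⟩, _⟩
  have e' : (δ : H) * b' = γ * b := e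
  have h1 : ((δ⁻¹ * γ : Γ) : H) * b = b' := by
    rw [Subgroup.coe_mul, mul_assoc, ← e', Subgroup.coe_inv, inv_mul_cancel_left]
  have h2 := h _ (δ⁻¹ * γ).2 b hb (h1 ▸ hb')
  exact hne (inv_mul_eq_one.1 (Subtype.ext h2)).symm

/-- Covering: `μ F ≤ ∑ γ, μ (γ • B ∩ F) = μ B` (`IsFundamentalDomain.measure_eq_tsum`). -/
lemma covolume_le (Γ : Subgroup H) [DiscreteTopology Γ] (μ : Measure H) [μ.IsMulLeftInvariant]
    {B : Set H} (h : ∀ x : H, ∃ γ ∈ Γ, γ * x ∈ B) :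
    covolume Γ H μ ≤ μ B := by
  have : Countable Γ := TopologicalSpace.separableSpace_iff_countable.1 inferInstance
  obtain ⟨F, hF⟩ := exists_fundamentalDomain Γ μ
  rw [hF.covolume_eq_volume, hF.measure_eq_tsum B]
  refine (measure_mono fun x hx => ?_).trans (measure_iUnion_le _)
  obtain ⟨γ, hγ, hB⟩ := h x
  refine Set.mem_iUnion.2 ⟨(⟨γ, hγ⟩ : Γ)⁻¹, ⟨γ * x, hB, ?_⟩, hx⟩
  simp [Subgroup.smul_def]

end Lattice

end Pool.Agent.Work.MP_913e71_al
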