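import Mathlib
import Pool.Agent.Work.MP_913e71_al.Gen
import Pool.Agent.Work.MP_913e71_al.GenB

-- merged part: Pool.Agent.Work.MP_913e71_al.Grp
section
/-! The group of the counterexample.

`K = ∏ ℤ_ℓ`, `E = ℝ × K`, `e0 = (1, nh)`, `nh ℓ = ℓ ^ 2` if `ℓ` is one of the sparse primes
`P n`, and `1` otherwise.  `G` has integer coordinates `t, a, y, p, q, a2, u, x1, z` and two
coordinates `x, s` in `E`. -/

namespace Pool.Agent.Work.MP_913e71_al

open Matrix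

/-- Pascal matrices. -/
def pas (m : ℕ) (t : ℤ) : Matrix (Fin m) (Fin m) ℤ :=
  fun i j => (Nat.choose i j : ℤ) * t ^ ((i : ℕ) - j)

lemma pas_apply (m : ℕ) (t : ℤ) (i j : Fin m) :
    pas m t i j = (Nat.choose i j : ℤ) * t ^ ((i : ℕ) - j) := rfl

@[simp] lemma pas_zero (m : ℕ) : pas m 0 = 1 := by
  ext i j
  rw [pas_apply, Matrix.one_apply]
  by_cases h : i = j
  · subst h; simp
  · rw [if_neg h]
    rcases lt_or_gt_of_ne h with h1 | h1
    · rw [Nat.choose_eq_zero_of_lt (by exact_mod_cast h1)]; simp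
    · have : (i : ℕ) - j ≠ 0 := by
        have : (j : ℕ) < i := h1
        omega
      simp [this]

lemma pas_eq_coeff (m : ℕ) (t : ℤ) (i j : Fin m) :
    pas m t i j = ((Polynomial.X + Polynomial.C t) ^ (i : ℕ)).coeff j := by
  rw [pas_apply, Polynomial.coeff_X_add_C_pow, mul_comm]

lemma pas_mul (m : ℕ) (t t' : ℤ) : pas m t * pas m t' = pas m (t + t') := by
  ext i j
  rw [Matrix.mul_apply, pas_eq_coeff]
  have h1 : (Polynomial.X + Polynomial.C (t + t') : Polynomial ℤ) ^ (i : ℕ) =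
      ∑ k ∈ Finset.range m, Polynomial.C ((Nat.choose i k : ℤ) * t ^ ((i : ℕ) - k)) *
        (Polynomial.X + Polynomial.C t') ^ k := by
    have h2 : (Polynomial.X + Polynomial.C (t + t') : Polynomial ℤ) =
        (Polynomial.X + Polynomial.C t') + Polynomial.C t := by
      rw [map_add]; ring
    rw [h2, add_pow]
    rw [← Finset.sum_subset (s₁ := Finset.range ((i : ℕ) + 1)) (s₂ := Finset.range m)]
    · refine Finset.sum_congr rfl fun k _ => ?_
      simp only [map_mul, map_pow, map_natCast]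
      ring
    · intro k hk
      have := i.2
      simp only [Finset.mem_range] at hk ⊢
      omega
    · intro k _ hk
      simp only [Finset.mem_range, not_lt] at hk
      rw [Nat.choose_eq_zero_of_lt (by omega)]
      simp
  rw [h1, Polynomial.finsetSum_coeff, Finset.sum_range]
  refine Finset.sum_congr rfl fun k _ => ?_
  rw [Polynomial.coeff_C_mul, pas_eq_coeff m t' k j, pas_apply]

lemma pas_mul_neg (m : ℕ) (t : ℤ) : pas m t * pas m (-t) = 1 := by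
  rw [pas_mul]; simp

lemma pas_neg_mul (m : ℕ) (t : ℤ) : pas m (-t) * pas m t = 1 := by
  rw [pas_mul]; simp

lemma pas_diag (m : ℕ) (t : ℤ) (i : Fin m) : pas m t i i = 1 := by simp [pas_apply]

lemma pas_of_lt (m : ℕ) (t : ℤ) {i j : Fin m} (h : i < j) : pas m t i j = 0 := by
  rw [pas_apply, Nat.choose_eq_zero_of_lt (by exact_mod_cast h)]; simp

lemma vecMul_pas_six (t : ℤ) (a : Fin 7 → ℤ) : (a ᵥ* pas 7 t) 6 = a 6 := by
  simp [Matrix.vecMul, dotProduct, Fin.sum_univ_seven, pas_apply, Nat.choose]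

/-- The sparse sequence of primes. -/
noncomputable def P : ℕ → ℕ
  | 0 => 2
  | n + 1 => Classical.choose (Nat.exists_infinite_primes ((P n).factorial ^ 402 + 1))

lemma P_prime (n : ℕ) : (P n).Prime := by
  cases n with
  | zero => exact Nat.prime_two
  | succ n => exact (Classical.choose_spec (Nat.exists_infinite_primes _)).2

lemma P_succ (n : ℕ) : (P n).factorial ^ 402 < P (n + 1) :=
  (Classical.choose_spec (Nat.exists_infinite_primes ((P n).factorial ^ 402 + 1))).1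

lemma P_strictMono : StrictMono P := by
  refine strictMono_nat_of_lt_succ fun n => lt_of_le_of_lt ?_ (P_succ n)
  exact (Nat.self_le_factorial _).trans (Nat.le_self_pow (by decide) _)

instance factPrimes (l : Nat.Primes) : Fact (l : ℕ).Prime := ⟨l.2⟩

/-- The compact ring `∏ ℤ_ℓ`. -/
def K : Type := (l : Nat.Primes) → ℤ_[l]

noncomputable instance : CommRing K := inferInstanceAs (CommRing ((l : Nat.Primes) → ℤ_[l]))
noncomputable instance : TopologicalSpace K :=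
  inferInstanceAs (TopologicalSpace ((l : Nat.Primes) → ℤ_[l]))
instance : IsTopologicalRing K := inferInstanceAs (IsTopologicalRing ((l : Nat.Primes) → ℤ_[l]))
instance : CompactSpace K := inferInstanceAs (CompactSpace ((l : Nat.Primes) → ℤ_[l]))
instance : T2Space K := inferInstanceAs (T2Space ((l : Nat.Primes) → ℤ_[l]))
instance : SecondCountableTopology K :=
  inferInstanceAs (SecondCountableTopology ((l : Nat.Primes) → ℤ_[l]))
noncomputable instance : MeasurableSpace K := borel K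
instance : BorelSpace K := ⟨rfl⟩

open Classical in
/-- The element `nh` of `K`. -/
noncomputable def nh : K := fun l => if (l : ℕ) ∈ Set.range P then ((l : ℕ) : ℤ_[l]) ^ 2 else 1

/-- `E = ℝ × K`. -/
abbrev E : Type := ℝ × K

/-- The distinguished element of `E`. -/
noncomputable def e0 : E := (1, nh)

@[simp] lemma e0_fst : e0.1 = 1 := rfl
@[simp] lemma e0_snd : e0.2 = nh := rfl

/-- The group. -/
@[ext] structure G where
  t : ℤ
  a : Fin 7 → ℤ
  y : Fin 7 → ℤ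
  p : Fin 4 → ℤ
  q : Fin 4 → ℤ
  a2 : ℤ
  u : ℤ
  x1 : ℤ
  z : ℤ
  x : E
  s : E

noncomputable instance : Mul G where
  mul g h :=
    { t := g.t + h.t
      a := g.a + h.a ᵥ* pas 7 (-g.t)
      y := g.y + pas 7 g.t *ᵥ h.y
      p := g.p + h.p ᵥ* pas 4 (-g.t)
      q := g.q + pas 4 g.t *ᵥ h.q
      a2 := g.a2 + h.a2
      u := g.u + h.u
      x1 := g.x1 + h.x1
      z := g.z + h.z + g.a ⬝ᵥ (pas 7 g.t *ᵥ h.y) + g.a2 * h.u
      x := g.x + h.x
      s := g.s + h.s + (g.p ⬝ᵥ (pas 4 g.t *ᵥ h.q) + g.a 6 * h.x1) • e0 + g.a2 • h.x }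

noncomputable instance : One G where
  one := ⟨0, 0, 0, 0, 0, 0, 0, 0, 0, 0, 0⟩

noncomputable instance : Inv G where
  inv g :=
    { t := -g.t
      a := -(g.a ᵥ* pas 7 g.t)
      y := -(pas 7 (-g.t) *ᵥ g.y)
      p := -(g.p ᵥ* pas 4 g.t)
      q := -(pas 4 (-g.t) *ᵥ g.q)
      a2 := -g.a2
      u := -g.u
      x1 := -g.x1
      z := -g.z + g.a ⬝ᵥ g.y + g.a2 * g.u
      x := -g.x
      s := -g.s + (g.p ⬝ᵥ g.q + g.a 6 * g.x1) • e0 + g.a2 • g.x }

namespace G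
variable (g h : G)
@[simp] lemma mul_t : (g * h).t = g.t + h.t := rfl
@[simp] lemma mul_a : (g * h).a = g.a + h.a ᵥ* pas 7 (-g.t) := rfl
@[simp] lemma mul_y : (g * h).y = g.y + pas 7 g.t *ᵥ h.y := rfl
@[simp] lemma mul_p : (g * h).p = g.p + h.p ᵥ* pas 4 (-g.t) := rfl
@[simp] lemma mul_q : (g * h).q = g.q + pas 4 g.t *ᵥ h.q := rfl
@[simp] lemma mul_a2 : (g * h).a2 = g.a2 + h.a2 := rfl
@[simp] lemma mul_u : (g * h).u = g.u + h.u := rfl
@[simp] lemma mul_x1 : (g * h).x1 = g.x1 + h.x1 := rfl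
@[simp] lemma mul_z : (g * h).z = g.z + h.z + g.a ⬝ᵥ (pas 7 g.t *ᵥ h.y) + g.a2 * h.u := rfl
@[simp] lemma mul_x : (g * h).x = g.x + h.x := rfl
@[simp] lemma mul_s : (g * h).s =
    g.s + h.s + (g.p ⬝ᵥ (pas 4 g.t *ᵥ h.q) + g.a 6 * h.x1) • e0 + g.a2 • h.x := rfl
@[simp] lemma one_t : (1 : G).t = 0 := rfl
@[simp] lemma one_a : (1 : G).a = 0 := rfl
@[simp] lemma one_y : (1 : G).y = 0 := rfl
@[simp] lemma one_p : (1 : G).p = 0 := rfl
@[simp] lemma one_q : (1 : G).q = 0 := rfl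
@[simp] lemma one_a2 : (1 : G).a2 = 0 := rfl
@[simp] lemma one_u : (1 : G).u = 0 := rfl
@[simp] lemma one_x1 : (1 : G).x1 = 0 := rfl
@[simp] lemma one_z : (1 : G).z = 0 := rfl
@[simp] lemma one_x : (1 : G).x = 0 := rfl
@[simp] lemma one_s : (1 : G).s = 0 := rfl
@[simp] lemma inv_t : (g⁻¹).t = -g.t := rfl
@[simp] lemma inv_a : (g⁻¹).a = -(g.a ᵥ* pas 7 g.t) := rfl
@[simp] lemma inv_y : (g⁻¹).y = -(pas 7 (-g.t) *ᵥ g.y) := rfl
@[simp] lemma inv_p : (g⁻¹).p = -(g.p ᵥ* pas 4 g.t) := rfl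
@[simp] lemma inv_q : (g⁻¹).q = -(pas 4 (-g.t) *ᵥ g.q) := rfl
@[simp] lemma inv_a2 : (g⁻¹).a2 = -g.a2 := rfl
@[simp] lemma inv_u : (g⁻¹).u = -g.u := rfl
@[simp] lemma inv_x1 : (g⁻¹).x1 = -g.x1 := rfl
@[simp] lemma inv_z : (g⁻¹).z = -g.z + g.a ⬝ᵥ g.y + g.a2 * g.u := rfl
@[simp] lemma inv_x : (g⁻¹).x = -g.x := rfl
@[simp] lemma inv_s : (g⁻¹).s = -g.s + (g.p ⬝ᵥ g.q + g.a 6 * g.x1) • e0 + g.a2 • g.x := rfl
end G

lemma dot_aux (m : ℕ) (t t' : ℤ) (a y : Fin m → ℤ) :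
    (a ᵥ* pas m (-t)) ⬝ᵥ (pas m (t + t') *ᵥ y) = a ⬝ᵥ (pas m t' *ᵥ y) := by
  rw [← Matrix.dotProduct_mulVec, Matrix.mulVec_mulVec, pas_mul]
  congr 3; ring

noncomputable instance : Group G :=
  Group.ofLeftAxioms
    (fun g h k => by
      ext1
      · simp [add_assoc]
      · simp only [G.mul_a, G.mul_t, Matrix.add_vecMul, Matrix.vecMul_vecMul, pas_mul, add_assoc]
        congr 4; ring
      · simp only [G.mul_y, G.mul_t, Matrix.mulVec_add, Matrix.mulVec_mulVec, pas_mul, add_assoc]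
      · simp only [G.mul_p, G.mul_t, Matrix.add_vecMul, Matrix.vecMul_vecMul, pas_mul, add_assoc]
        congr 4; ring
      · simp only [G.mul_q, G.mul_t, Matrix.mulVec_add, Matrix.mulVec_mulVec, pas_mul, add_assoc]
      · simp [add_assoc]
      · simp [add_assoc]
      · simp [add_assoc]
      · simp only [G.mul_z, G.mul_t, G.mul_a, G.mul_y, G.mul_a2, G.mul_u, add_dotProduct,
          dot_aux, Matrix.mulVec_add, dotProduct_add, Matrix.mulVec_mulVec, pas_mul]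
        ring
      · simp [add_assoc]
      · simp only [G.mul_s, G.mul_t, G.mul_p, G.mul_q, G.mul_a2, G.mul_x, G.mul_x1, G.mul_a,
          add_dotProduct, dot_aux, Matrix.mulVec_add, dotProduct_add, Matrix.mulVec_mulVec,
          pas_mul, Pi.add_apply, vecMul_pas_six]
        module)
    (fun g => by ext1 <;> simp)
    (fun g => by
      ext1
      · simp
      · simp
      · simp
      · simp
      · simp
      · simp
      · simp
      · simp
      · simp only [G.mul_z, G.inv_z, G.inv_a, G.inv_t, G.inv_a2, G.one_z, neg_dotProduct,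
          ← Matrix.dotProduct_mulVec, Matrix.mulVec_mulVec, pas_mul_neg, Matrix.one_mulVec]
        ring
      · simp
      · simp only [G.mul_s, G.inv_s, G.inv_p, G.inv_t, G.inv_a2, G.inv_a, G.one_s, neg_dotProduct,
          ← Matrix.dotProduct_mulVec, Matrix.mulVec_mulVec, pas_mul_neg, Matrix.one_mulVec,
          Pi.neg_apply, vecMul_pas_six]
        module)

/-- Index set of the integer coordinates. -/
abbrev I : Type := Fin 7 ⊕ Fin 7 ⊕ Fin 4 ⊕ Fin 4 ⊕ Fin 5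

abbrev ia (k : Fin 7) : I := Sum.inl k
abbrev iy (k : Fin 7) : I := Sum.inr (Sum.inl k)
abbrev ip (k : Fin 4) : I := Sum.inr (Sum.inr (Sum.inl k))
abbrev iq (k : Fin 4) : I := Sum.inr (Sum.inr (Sum.inr (Sum.inl k)))
abbrev it : I := Sum.inr (Sum.inr (Sum.inr (Sum.inr 0)))
abbrev ia2 : I := Sum.inr (Sum.inr (Sum.inr (Sum.inr 1)))
abbrev iu : I := Sum.inr (Sum.inr (Sum.inr (Sum.inr 2)))
abbrev ix1 : I := Sum.inr (Sum.inr (Sum.inr (Sum.inr 3)))
abbrev iz : I := Sum.inr (Sum.inr (Sum.inr (Sum.inr 4)))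

/-- A function on `I` from its components. -/
def mkI {α : Type} (fa fy : Fin 7 → α) (fp fq : Fin 4 → α) (ft f2 fu fx fz : α) : I → α :=
  Sum.elim fa (Sum.elim fy (Sum.elim fp (Sum.elim fq ![ft, f2, fu, fx, fz])))

section
variable {α : Type} (fa fy : Fin 7 → α) (fp fq : Fin 4 → α) (ft f2 fu fx fz : α)
@[simp] lemma mkI_ia (k) : mkI fa fy fp fq ft f2 fu fx fz (ia k) = fa k := rfl
@[simp] lemma mkI_iy (k) : mkI fa fy fp fq ft f2 fu fx fz (iy k) = fy k := rfl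
@[simp] lemma mkI_ip (k) : mkI fa fy fp fq ft f2 fu fx fz (ip k) = fp k := rfl
@[simp] lemma mkI_iq (k) : mkI fa fy fp fq ft f2 fu fx fz (iq k) = fq k := rfl
@[simp] lemma mkI_it : mkI fa fy fp fq ft f2 fu fx fz it = ft := rfl
@[simp] lemma mkI_ia2 : mkI fa fy fp fq ft f2 fu fx fz ia2 = f2 := rfl
@[simp] lemma mkI_iu : mkI fa fy fp fq ft f2 fu fx fz iu = fu := rfl
@[simp] lemma mkI_ix1 : mkI fa fy fp fq ft f2 fu fx fz ix1 = fx := rfl
@[simp] lemma mkI_iz : mkI fa fy fp fq ft f2 fu fx fz iz = fz := rfl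
end

lemma forall_I {Q : I → Prop} : (∀ i, Q i) ↔ (∀ k, Q (ia k)) ∧ (∀ k, Q (iy k)) ∧ (∀ k, Q (ip k)) ∧
    (∀ k, Q (iq k)) ∧ Q it ∧ Q ia2 ∧ Q iu ∧ Q ix1 ∧ Q iz := by
  constructor
  · intro h
    exact ⟨fun _ => h _, fun _ => h _, fun _ => h _, fun _ => h _, h _, h _, h _, h _, h _⟩
  · rintro ⟨h1, h2, h3, h4, h5, h6, h7, h8, h9⟩ i
    rcases i with k | k | k | k | k
    · exact h1 k
    · exact h2 k
    · exact h3 k
    · exact h4 k
    · fin_cases k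
      · exact h5
      · exact h6
      · exact h7
      · exact h8
      · exact h9

lemma prod_I {M : Type} [CommMonoid M] (f : I → M) : ∏ i, f i =
    (∏ k, f (ia k)) * (∏ k, f (iy k)) * (∏ k, f (ip k)) * (∏ k, f (iq k)) *
      (f it * f ia2 * f iu * f ix1 * f iz) := by
  simp only [Fintype.prod_sum_type, Fin.prod_univ_five, mul_assoc]

/-- The integer coordinates of an element. -/
def co (g : G) : I → ℤ := mkI g.a g.y g.p g.q g.t g.a2 g.u g.x1 g.z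

section
variable (g : G)
@[simp] lemma co_ia (k) : co g (ia k) = g.a k := rfl
@[simp] lemma co_iy (k) : co g (iy k) = g.y k := rfl
@[simp] lemma co_ip (k) : co g (ip k) = g.p k := rfl
@[simp] lemma co_iq (k) : co g (iq k) = g.q k := rfl
@[simp] lemma co_it : co g it = g.t := rfl
@[simp] lemma co_ia2 : co g ia2 = g.a2 := rfl
@[simp] lemma co_iu : co g iu = g.u := rfl
@[simp] lemma co_ix1 : co g ix1 = g.x1 := rfl
@[simp] lemma co_iz : co g iz = g.z := rfl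
end

/-- Coordinates as a bijection with a product. -/
def coEquiv : G ≃ (I → ℤ) × E × E where
  toFun g := (co g, g.x, g.s)
  invFun w :=
    { t := w.1 it
      a := fun k => w.1 (ia k)
      y := fun k => w.1 (iy k)
      p := fun k => w.1 (ip k)
      q := fun k => w.1 (iq k)
      a2 := w.1 ia2
      u := w.1 iu
      x1 := w.1 ix1
      z := w.1 iz
      x := w.2.1
      s := w.2.2 }
  left_inv g := rfl
  right_inv w := by
    refine Prod.ext (funext (forall_I.2 ?_)) rfl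
    exact ⟨fun _ => rfl, fun _ => rfl, fun _ => rfl, fun _ => rfl, rfl, rfl, rfl, rfl, rfl⟩

@[simp] lemma coEquiv_apply (g : G) : coEquiv g = (co g, g.x, g.s) := rfl

lemma G.ext_co {g h : G} (h1 : co g = co h) (h2 : g.x = h.x) (h3 : g.s = h.s) : g = h :=
  coEquiv.injective (by simp [h1, h2, h3])

@[simp] lemma co_one : co (1 : G) = 0 :=
  funext (forall_I.2
    ⟨fun _ => rfl, fun _ => rfl, fun _ => rfl, fun _ => rfl, rfl, rfl, rfl, rfl, rfl⟩)

noncomputable instance : TopologicalSpace G := TopologicalSpace.induced coEquiv inferInstance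

/-- Coordinates as a homeomorphism. -/
noncomputable def coHomeo : G ≃ₜ (I → ℤ) × E × E := coEquiv.toHomeomorphOfIsInducing ⟨rfl⟩

@[simp] lemma coHomeo_apply (g : G) : coHomeo g = (co g, g.x, g.s) := rfl

instance : T2Space G := coHomeo.symm.t2Space
instance : LocallyCompactSpace G := coHomeo.isClosedEmbedding.locallyCompactSpace
instance : SecondCountableTopology G := coHomeo.secondCountableTopology
noncomputable instance : MeasurableSpace G := borel G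
instance : BorelSpace G := ⟨rfl⟩

lemma continuous_co : Continuous co := continuous_fst.comp coHomeo.continuous
lemma continuous_x : Continuous G.x := continuous_fst.comp (continuous_snd.comp coHomeo.continuous)
lemma continuous_s : Continuous G.s := continuous_snd.comp (continuous_snd.comp coHomeo.continuous)

/-- A function of the integer coordinates of two elements is continuous. -/
lemma continuous_of_co₂ {β : Type} [TopologicalSpace β] (F : G → G → β)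
    (hF : ∀ g g' h h', co g = co g' → co h = co h' → F g h = F g' h') :
    Continuous fun w : G × G => F w.1 w.2 := by
  have : (fun w : G × G => F w.1 w.2) =
      (fun c : (I → ℤ) × (I → ℤ) => F (coEquiv.symm (c.1, 0, 0)) (coEquiv.symm (c.2, 0, 0))) ∘
        fun w : G × G => (co w.1, co w.2) := by
    funext w
    exact hF _ _ _ _ rfl rfl
  rw [this]
  exact continuous_of_discreteTopology.comp
    ((continuous_co.comp continuous_fst).prodMk (continuous_co.comp continuous_snd))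

lemma fields_of_co {g g' : G} (h : co g = co g') : g.a = g'.a ∧ g.y = g'.y ∧ g.p = g'.p ∧
    g.q = g'.q ∧ g.t = g'.t ∧ g.a2 = g'.a2 ∧ g.u = g'.u ∧ g.x1 = g'.x1 ∧ g.z = g'.z :=
  ⟨funext fun k => congrFun h (ia k), funext fun k => congrFun h (iy k),
    funext fun k => congrFun h (ip k), funext fun k => congrFun h (iq k), congrFun h it,
    congrFun h ia2, congrFun h iu, congrFun h ix1, congrFun h iz⟩

lemma co_mul_congr {g g' h h' : G} (h1 : co g = co g') (h2 : co h = co h') :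
    co (g * h) = co (g' * h') := by
  obtain ⟨a1, a2, a3, a4, a5, a6, a7, a8, a9⟩ := fields_of_co h1
  obtain ⟨b1, b2, b3, b4, b5, b6, b7, b8, b9⟩ := fields_of_co h2
  simp only [co, G.mul_t, G.mul_a, G.mul_y, G.mul_p, G.mul_q, G.mul_a2, G.mul_u, G.mul_x1,
    G.mul_z, a1, a2, a3, a4, a5, a6, a7, a8, a9, b1, b2, b3, b4, b5, b6, b7, b8, b9]

lemma co_inv_congr {g g' : G} (h1 : co g = co g') : co g⁻¹ = co g'⁻¹ := by
  obtain ⟨a1, a2, a3, a4, a5, a6, a7, a8, a9⟩ := fields_of_co h1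
  simp only [co, G.inv_t, G.inv_a, G.inv_y, G.inv_p, G.inv_q, G.inv_a2, G.inv_u, G.inv_x1,
    G.inv_z, a1, a2, a3, a4, a5, a6, a7, a8, a9]

lemma continuous_a2 : Continuous G.a2 := (continuous_apply ia2).comp continuous_co

instance : ContinuousMul G where
  continuous_mul := by
    rw [coHomeo.isInducing.continuous_iff]
    refine Continuous.prodMk ?_ (Continuous.prodMk ?_ ?_)
    · exact continuous_of_co₂ (fun g h => co (g * h)) fun _ _ _ _ => co_mul_congr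
    · exact (continuous_x.comp continuous_fst).add (continuous_x.comp continuous_snd)
    · refine (((continuous_s.comp continuous_fst).add (continuous_s.comp continuous_snd)).add
        ?_).add ((continuous_a2.comp continuous_fst).smul (continuous_x.comp continuous_snd))
      refine continuous_of_co₂
        (fun g h => (g.p ⬝ᵥ (pas 4 g.t *ᵥ h.q) + g.a 6 * h.x1) • e0) fun _ _ _ _ h1 h2 => ?_
      obtain ⟨a1, a2, a3, a4, a5, a6, a7, a8, a9⟩ := fields_of_co h1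
      obtain ⟨b1, b2, b3, b4, b5, b6, b7, b8, b9⟩ := fields_of_co h2
      simp only [a1, a3, a5, b4, b8]

instance : ContinuousInv G where
  continuous_inv := by
    rw [coHomeo.isInducing.continuous_iff]
    have hd : Continuous fun g : G => (g, g) := continuous_id.prodMk continuous_id
    refine Continuous.prodMk ?_ (Continuous.prodMk ?_ ?_)
    · exact (continuous_of_co₂ (fun g _ => co g⁻¹) fun _ _ _ _ h _ => co_inv_congr h).comp hd
    · exact continuous_x.neg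
    · refine (continuous_s.neg.add ?_).add (continuous_a2.smul continuous_x)
      refine (continuous_of_co₂
        (fun g _ => (g.p ⬝ᵥ g.q + g.a 6 * g.x1) • e0) fun _ _ _ _ h1 _ => ?_).comp hd
      obtain ⟨a1, a2, a3, a4, a5, a6, a7, a8, a9⟩ := fields_of_co h1
      simp only [a1, a3, a4, a8]

instance : IsTopologicalGroup G where

end Pool.Agent.Work.MP_913e71_al
end

-- merged part: Pool.Agent.Work.MP_913e71_al.Main
section
-- merged part: Pool.Agent.Work.MP_913e71_al.Box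
section
/-! Boxes in the group `G`. -/

namespace Pool.Agent.Work.MP_913e71_al

/-- Degrees of the integer coordinates. -/
def deg : I → ℕ :=
  mkI (fun k => 7 - k) (fun k => k + 1) (fun k => 4 - k) (fun k => k + 1) 1 1 1 1 8

/-- The homogeneous box of radius `R`. -/
def Box (R : ℕ) : Set G :=
  {g | (∀ i, |co g i| ≤ (R : ℤ) ^ deg i) ∧ |g.x.1| ≤ (R : ℝ) ∧ |g.s.1| ≤ (R : ℝ) ^ 5}

/-- A general coordinate box. -/
def cbox (F : I → Finset ℤ) (A B : Set ℝ) : Set G :=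
  {g | (∀ i, co g i ∈ F i) ∧ g.x.1 ∈ A ∧ g.s.1 ∈ B}

/-- A half-open coordinate box with a corner at the origin. -/
def pbox (m : I → ℕ) (lam f : ℝ) : Set G :=
  {g | (∀ i, 0 ≤ co g i ∧ co g i < m i) ∧ (0 ≤ g.x.1 ∧ g.x.1 < lam) ∧ (0 ≤ g.s.1 ∧ g.s.1 < f)}

/-- Elements that are short although their `w`, `z`, `s` coordinates may be large. -/
def Small (R : ℕ) (g : G) : Prop :=
  g.t = 0 ∧ g.a = 0 ∧ g.p = 0 ∧ g.q = 0 ∧ g.a2 = 0 ∧ g.u = 0 ∧ g.x1 = 0 ∧
    (∀ k, k ≠ 6 → g.y k = 0) ∧ |g.y 6| ≤ (R : ℤ) ^ 7 ∧ |g.z| ≤ (R : ℤ) ^ 8 ∧ |g.x.1| ≤ 1 ∧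
      |g.s.1| ≤ (R : ℝ) ^ 5

/-- Exponents of the covering box of the lattice at scale `r`. -/
def ex : I → ℕ :=
  mkI (fun k => 7 - k) (fun k => k + 1) (fun k => 4 - k) (fun k => k + 1) 1 7 1 4 8

lemma Box_mono {R R' : ℕ} (h : R ≤ R') : Box R ⊆ Box R' := by
  rintro g ⟨h1, h2, h3⟩
  have hz : (R : ℤ) ≤ R' := by exact_mod_cast h
  have hr : (R : ℝ) ≤ R' := by exact_mod_cast h
  exact ⟨fun i => (h1 i).trans (pow_le_pow_left₀ (by positivity) hz _), h2.trans hr,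
    h3.trans (pow_le_pow_left₀ (by positivity) hr _)⟩

lemma prod_pow_ex (r : ℝ) : ∏ i, r ^ ex i = r ^ 97 := by
  rw [prod_I]
  simp [ex, Fin.prod_univ_succ]
  ring

end Pool.Agent.Work.MP_913e71_al
end

-- merged part: Pool.Agent.Work.MP_913e71_al.Meas
section
/-! Haar measure of boxes.

PLAN.  `muK = addHaarMeasure ⊤` on the compact group `K` (total mass one, `addHaarMeasure_self`),
`muE = volume.prod muK`, `nu = map coHomeo.symm (count.prod (muE.prod muE))`.  In coordinates left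
multiplication by `g0` is `(c, x, s) ↦ (φ c, x0 + x, s0 + s + ψ c + a2 • x)` with `φ` a bijection
of `I → ℤ` (`co_mul_congr`), so it preserves the product measure (`MeasurePreserving.skew_product`
twice; `count` is preserved by a bijection of a countable discrete space).  `nu` is finite on
compact sets and positive on open sets (product of locally finite, open-positive measures, or by
hand), so it is a Haar measure, and `isMulLeftInvariant_eq_smul` gives `μ = c • nu`. -/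

namespace Pool.Agent.Work.MP_913e71_al

open MeasureTheory
open scoped ENNReal

lemma Meas_cbox_eq (F : I → Finset ℤ) (A B : Set ℝ) : cbox F A B =
    coHomeo ⁻¹' ((Fintype.piFinset F : Set (I → ℤ)) ×ˢ
      ((A ×ˢ (Set.univ : Set K)) ×ˢ (B ×ˢ (Set.univ : Set K)))) := by
  ext g
  simp [cbox]

lemma measurableSet_cbox (F : I → Finset ℤ) {A B : Set ℝ} (hA : MeasurableSet A)
    (hB : MeasurableSet B) : MeasurableSet (cbox F A B) := by
  rw [Meas_cbox_eq]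
  exact coHomeo.continuous.measurable ((Finset.measurableSet _).prod
    ((hA.prod MeasurableSet.univ).prod (hB.prod MeasurableSet.univ)))

lemma isCompact_cbox (F : I → Finset ℤ) {A B : Set ℝ} (hA : IsCompact A) (hB : IsCompact B) :
    IsCompact (cbox F A B) := by
  rw [Meas_cbox_eq]
  exact coHomeo.isCompact_preimage.2 ((Finset.finite_toSet _).isCompact.prod
    ((hA.prod isCompact_univ).prod (hB.prod isCompact_univ)))

/-- Normalized Haar measure of `K`. -/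
noncomputable def Meas_muK : Measure K := Measure.addHaarMeasure ⊤

instance Meas_muK_haar : Meas_muK.IsAddHaarMeasure := by
  unfold Meas_muK
  infer_instance

lemma Meas_muK_univ : Meas_muK Set.univ = 1 := by
  have := Measure.addHaarMeasure_self (G := K) (K₀ := ⊤)
  simpa [Meas_muK] using this

/-- Haar measure of `E`. -/
noncomputable def Meas_muE : Measure E := (volume : Measure ℝ).prod Meas_muK

instance Meas_muE_haar : Meas_muE.IsAddHaarMeasure := by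
  unfold Meas_muE
  infer_instance

lemma Meas_muE_prod (A : Set ℝ) : Meas_muE (A ×ˢ (Set.univ : Set K)) = volume A := by
  rw [Meas_muE, Measure.prod_prod, Meas_muK_univ, mul_one]

instance Meas_count_fin : IsFiniteMeasureOnCompacts (Measure.count : Measure (I → ℤ)) where
  lt_top_of_isCompact _ hS := Measure.count_apply_lt_top.2 hS.finite_of_discrete

instance Meas_count_pos : (Measure.count : Measure (I → ℤ)).IsOpenPosMeasure where
  open_pos _ _ hU := Measure.count_ne_zero_iff.2 hU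

/-- The product measure in coordinates. -/
noncomputable def Meas_nu0 : Measure ((I → ℤ) × E × E) :=
  Measure.count.prod (Meas_muE.prod Meas_muE)

instance Meas_nu0_fin : IsFiniteMeasureOnCompacts Meas_nu0 := by
  unfold Meas_nu0
  infer_instance

instance Meas_nu0_pos : Meas_nu0.IsOpenPosMeasure := by
  unfold Meas_nu0
  infer_instance

/-- The explicit Haar measure of `G`. -/
noncomputable def Meas_nu : Measure G := Meas_nu0.map coHomeo.symm

/-- Action of left multiplication on the integer coordinates. -/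
noncomputable def Meas_phi (g : G) (c : I → ℤ) : I → ℤ := co (g * coEquiv.symm (c, 0, 0))

/-- The shift of the last coordinate. -/
noncomputable def Meas_psi (g : G) (c : I → ℤ) : E := (g * coEquiv.symm (c, 0, 0)).s

lemma Meas_co_symm (w : (I → ℤ) × E × E) : co (coEquiv.symm w) = w.1 :=
  congrArg Prod.fst (coEquiv.apply_symm_apply w)

lemma Meas_phi_inv (g h : G) (hgh : g * h = 1) (c : I → ℤ) : Meas_phi g (Meas_phi h c) = c := by
  have h1 : co (g * coEquiv.symm (Meas_phi h c, 0, 0)) = co (g * (h * coEquiv.symm (c, 0, 0))) :=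
    co_mul_congr rfl (Meas_co_symm _)
  rw [Meas_phi, h1, ← mul_assoc, hgh, one_mul, Meas_co_symm]

lemma Meas_phi_bij (g : G) : Function.Bijective (Meas_phi g) :=
  Function.bijective_iff_has_inverse.2 ⟨Meas_phi g⁻¹, Meas_phi_inv _ _ (inv_mul_cancel g),
    Meas_phi_inv _ _ (mul_inv_cancel g)⟩

lemma Meas_phi_mp (g : G) : MeasurePreserving (Meas_phi g) Measure.count Measure.count := by
  have hm : Measurable (Meas_phi g) := measurable_of_countable _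
  refine ⟨hm, ?_⟩
  ext S hS
  rw [Measure.count_apply hS, Measure.map_apply hm hS, Measure.count_apply (hm hS),
    Set.encard_preimage_of_bijective (Meas_phi_bij g)]

lemma Meas_inner_mp (x0 s0 : E) (n : ℤ) :
    MeasurePreserving (fun w : E × E => (x0 + w.1, (s0 + n • w.1) + w.2))
      (Meas_muE.prod Meas_muE) (Meas_muE.prod Meas_muE) := by
  refine MeasurePreserving.skew_product (f := fun x : E => x0 + x)
    (g := fun x s : E => (s0 + n • x) + s) (measurePreserving_add_left Meas_muE x0) ?_ ?_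
  · exact Continuous.measurable (by unfold Function.uncurry; fun_prop)
  · exact Filter.Eventually.of_forall fun x => map_add_left_eq_self Meas_muE _

lemma Meas_T_mp (g : G) :
    MeasurePreserving (fun w : (I → ℤ) × E × E =>
      (Meas_phi g w.1, (g.x + w.2.1, (Meas_psi g w.1 + g.a2 • w.2.1) + w.2.2)))
      Meas_nu0 Meas_nu0 := by
  refine MeasurePreserving.skew_product (f := Meas_phi g)
    (g := fun (c : I → ℤ) (w : E × E) => (g.x + w.1, (Meas_psi g c + g.a2 • w.1) + w.2))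
    (Meas_phi_mp g) ?_ ?_
  · have hc : Continuous (Meas_psi g) := continuous_of_discreteTopology
    exact Continuous.measurable (by unfold Function.uncurry; fun_prop)
  · exact Filter.Eventually.of_forall fun c => (Meas_inner_mp _ _ _).map_eq

lemma Meas_T_eq (g : G) (w : (I → ℤ) × E × E) : g * coHomeo.symm w =
    coHomeo.symm (Meas_phi g w.1, (g.x + w.2.1, (Meas_psi g w.1 + g.a2 • w.2.1) + w.2.2)) := by
  apply coHomeo.injective
  rw [Homeomorph.apply_symm_apply, coHomeo_apply]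
  refine Prod.ext ?_ (Prod.ext rfl ?_)
  · exact co_mul_congr rfl ((Meas_co_symm w).trans (Meas_co_symm (w.1, 0, 0)).symm)
  · change g.s + w.2.2 + _ • e0 + g.a2 • w.2.1 =
      (g.s + 0 + _ • e0 + g.a2 • (0 : E)) + g.a2 • w.2.1 + w.2.2
    rw [smul_zero, add_zero, add_zero, add_right_comm _ w.2.2, add_right_comm _ w.2.2]
    rfl

instance Meas_nu_haar : Meas_nu.IsHaarMeasure where
  toIsFiniteMeasureOnCompacts := Measure.IsFiniteMeasureOnCompacts.map Meas_nu0 coHomeo.symm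
  toIsOpenPosMeasure := coHomeo.symm.continuous.isOpenPosMeasure_map coHomeo.symm.surjective
  map_mul_left_eq_self g := by
    have hm : Measurable coHomeo.symm := coHomeo.symm.continuous.measurable
    rw [Meas_nu, Measure.map_map (measurable_const_mul g) hm]
    conv_rhs => rw [← (Meas_T_mp g).map_eq, Measure.map_map hm (Meas_T_mp g).measurable]
    congr 1
    funext w
    exact Meas_T_eq g w

lemma Meas_nu_cbox (F : I → Finset ℤ) {A B : Set ℝ} (hA : MeasurableSet A) (hB : MeasurableSet B) :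
    Meas_nu (cbox F A B) = (∏ i, ((F i).card : ℝ≥0∞)) * (volume A * volume B) := by
  rw [Meas_nu, Measure.map_apply coHomeo.symm.continuous.measurable (measurableSet_cbox F hA hB),
    Meas_cbox_eq, ← Set.preimage_comp, Homeomorph.self_comp_symm, Set.preimage_id, Meas_nu0,
    Measure.prod_prod, Measure.prod_prod, Meas_muE_prod, Meas_muE_prod,
    Measure.count_apply_finset, Fintype.card_piFinset, Nat.cast_prod]

theorem haar_cbox (μ : Measure G) [μ.IsHaarMeasure] : ∃ c : ℝ, 0 < c ∧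
    ∀ (F : I → Finset ℤ) (A B : Set ℝ), MeasurableSet A → MeasurableSet B →
      μ (cbox F A B) =
        ENNReal.ofReal c * ((∏ i, ((F i).card : ℝ≥0∞)) * (volume A * volume B)) := by
  refine ⟨Measure.haarScalarFactor μ Meas_nu,
    Measure.haarScalarFactor_pos_of_isHaarMeasure μ Meas_nu, fun F A B hA hB => ?_⟩
  conv_lhs => rw [Measure.isMulLeftInvariant_eq_smul μ Meas_nu]
  rw [Measure.smul_apply, Meas_nu_cbox F hA hB, ENNReal.ofReal_coe_nnreal]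
  rfl

lemma Meas_pbox_eq (m : I → ℕ) (lam f : ℝ) : pbox m lam f =
    cbox (fun i => Finset.Ico (0 : ℤ) (m i)) (Set.Ico 0 lam) (Set.Ico 0 f) := by
  ext g
  simp [pbox, cbox]

lemma Meas_Box_eq (R : ℕ) : Box R =
    cbox (fun i => Finset.Icc (-((R : ℤ) ^ deg i)) ((R : ℤ) ^ deg i)) (Set.Icc (-(R : ℝ)) R)
      (Set.Icc (-((R : ℝ) ^ 5)) ((R : ℝ) ^ 5)) := by
  ext g
  simp only [Box, cbox, Set.mem_ofPred_eq, Finset.mem_Icc, Set.mem_Icc, abs_le]

lemma Meas_deg_le (i : I) : deg i ≤ 8 := by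
  revert i
  refine forall_I.2 ⟨fun k => ?_, fun k => ?_, fun k => ?_, fun k => ?_, ?_, ?_, ?_, ?_, ?_⟩
  all_goals simp only [deg, mkI_ia, mkI_iy, mkI_ip, mkI_iq, mkI_it, mkI_ia2, mkI_iu, mkI_ix1,
    mkI_iz]
  all_goals omega

lemma measurableSet_pbox (m : I → ℕ) (lam f : ℝ) : MeasurableSet (pbox m lam f) := by
  rw [Meas_pbox_eq]
  exact measurableSet_cbox _ measurableSet_Ico measurableSet_Ico

lemma pbox_subset_compact (m : I → ℕ) (lam f : ℝ) :
    ∃ T : Set G, IsCompact T ∧ pbox m lam f ⊆ T := by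
  refine ⟨cbox (fun i => Finset.Ico (0 : ℤ) (m i)) (Set.Icc 0 lam) (Set.Icc 0 f),
    isCompact_cbox _ isCompact_Icc isCompact_Icc, ?_⟩
  rw [Meas_pbox_eq]
  rintro g ⟨h1, h2, h3⟩
  exact ⟨h1, Set.Ico_subset_Icc_self h2, Set.Ico_subset_Icc_self h3⟩

lemma isCompact_Box (R : ℕ) : IsCompact (Box R) := by
  rw [Meas_Box_eq]
  exact isCompact_cbox _ isCompact_Icc isCompact_Icc

/-- The open set `co g = 0`, `|x| < 1`, `|s| < 1` is inside `Box 1`. -/
lemma Box_one_mem_nhds : Box 1 ∈ nhds (1 : G) := by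
  have ho : IsOpen {g : G | co g = 0 ∧ |g.x.1| < 1 ∧ |g.s.1| < 1} := by
    refine IsOpen.inter ((isOpen_discrete {(0 : I → ℤ)}).preimage continuous_co)
      (IsOpen.inter ?_ ?_)
    · exact isOpen_lt (continuous_fst.comp continuous_x).abs continuous_const
    · exact isOpen_lt (continuous_fst.comp continuous_s).abs continuous_const
  refine Filter.mem_of_superset (ho.mem_nhds ⟨co_one, by simp, by simp⟩) ?_
  rintro g ⟨h1, h2, h3⟩
  refine ⟨fun i => ?_, ?_, ?_⟩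
  · simp [h1]
  · simpa using h2.le
  · simpa using h3.le

/-- Measures of the boxes (from `haar_cbox`; for `Box R` each factor is at most `3 R ^ 8`). -/
theorem haar_boxes (μ : Measure G) [μ.IsHaarMeasure] : ∃ c : ℝ, 0 < c ∧
    (∀ (m : I → ℕ) (lam f : ℝ), 0 ≤ lam → 0 ≤ f →
      μ (pbox m lam f) = ENNReal.ofReal (c * ((∏ i, (m i : ℝ)) * lam * f))) ∧
    ∃ (C : ℝ) (d : ℕ), 0 ≤ C ∧ ∀ R : ℕ, 1 ≤ R → μ (Box R) ≤ ENNReal.ofReal (C * (R : ℝ) ^ d) := by
  obtain ⟨c, hc, H⟩ := haar_cbox μ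
  refine ⟨c, hc, fun m lam f hl hf => ?_, c * 3 ^ Fintype.card I * 4, 8 * Fintype.card I + 6,
    by positivity, fun R hR => ?_⟩
  · rw [Meas_pbox_eq, H _ _ _ measurableSet_Ico measurableSet_Ico, Real.volume_Ico, Real.volume_Ico,
      sub_zero, sub_zero, ENNReal.ofReal_mul hc.le, mul_assoc,
      ENNReal.ofReal_mul (Finset.prod_nonneg fun i _ => Nat.cast_nonneg _), ENNReal.ofReal_mul hl,
      ENNReal.ofReal_prod_of_nonneg (fun i _ => Nat.cast_nonneg _)]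
    simp
  · have hR' : (1 : ℝ) ≤ R := by exact_mod_cast hR
    rw [Meas_Box_eq, H _ _ _ measurableSet_Icc measurableSet_Icc, Real.volume_Icc, Real.volume_Icc]
    have h1 : ∀ i, ((Finset.Icc (-((R : ℤ) ^ deg i)) ((R : ℤ) ^ deg i)).card : ℝ≥0∞) ≤
        ENNReal.ofReal (3 * (R : ℝ) ^ 8) := by
      intro i
      have h2 : R ^ deg i ≤ R ^ 8 := Nat.pow_le_pow_right hR (Meas_deg_le i)
      have h3 : 1 ≤ R ^ 8 := Nat.one_le_pow _ _ hR
      have h4 : (Finset.Icc (-((R : ℤ) ^ deg i)) ((R : ℤ) ^ deg i)).card ≤ 3 * R ^ 8 := by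
        rw [Int.card_Icc, ← Nat.cast_pow]
        omega
      rw [← ENNReal.ofReal_natCast]
      exact ENNReal.ofReal_le_ofReal (by exact_mod_cast h4)
    have h2 : ∏ i, ((Finset.Icc (-((R : ℤ) ^ deg i)) ((R : ℤ) ^ deg i)).card : ℝ≥0∞) ≤
        ENNReal.ofReal ((3 * (R : ℝ) ^ 8) ^ Fintype.card I) := by
      rw [ENNReal.ofReal_pow (by positivity), ← Finset.card_univ]
      exact Finset.prod_le_pow_card _ _ _ fun i _ => h1 i
    refine (mul_le_mul_right (mul_le_mul_left h2 _) _).trans (le_of_eq ?_)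
    rw [← ENNReal.ofReal_mul (by linarith only [hR']), ← ENNReal.ofReal_mul (by positivity),
      ← ENNReal.ofReal_mul hc.le]
    congr 1
    ring

end Pool.Agent.Work.MP_913e71_al
end

-- merged part: Pool.Agent.Work.MP_913e71_al.WordA
section
/-! Balls lie in boxes.

PLAN.  A compact set lies in some `Box B` (its image under `co` is finite, `x.1`, `s.1` are
bounded).  For `s ∈ Box B` and `g ∈ Box R`, `R ≥ 1`, every coordinate of `s * g` differs from that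
of `g` by at most `C R ^ (deg - 1)` (the Pascal matrices are unitriangular, `pas_diag`, `pas_of_lt`,
with entries bounded by `64 B ^ 6` when `|s.t| ≤ B`), and `R ^ d + C R ^ (d - 1) ≤ (R + C) ^ d`
for `d ≥ 1`.  Induction along a shortest word, multiplying on the left. -/

namespace Pool.Agent.Work.MP_913e71_al

open Matrix

lemma WordA_step {α : Type} [CommRing α] [LinearOrder α] [IsStrictOrderedRing α]
    {R C x e : α} {d : ℕ} (hR : 0 ≤ R) (hC : 0 ≤ C) (hx : |x| ≤ R ^ (d + 1))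
    (he : |e| ≤ C * R ^ d) : |x + e| ≤ (R + C) ^ (d + 1) := by
  have h1 : R ^ d ≤ (R + C) ^ d := pow_le_pow_left₀ hR (by linarith) _
  have h2 : (R + C) * R ^ d ≤ (R + C) * (R + C) ^ d :=
    mul_le_mul_of_nonneg_left h1 (by linarith)
  calc |x + e| ≤ |x| + |e| := abs_add_le _ _
    _ ≤ (R + C) * R ^ d := by rw [pow_succ] at hx; linarith
    _ ≤ (R + C) ^ (d + 1) := by rw [pow_succ']; exact h2

lemma WordA_sum {m : ℕ} (s : Finset (Fin m)) (f : Fin m → ℤ) {b : ℤ} (hb : 0 ≤ b)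
    (h : ∀ j ∈ s, |f j| ≤ b) : |∑ j ∈ s, f j| ≤ m * b := by
  calc |∑ j ∈ s, f j| ≤ ∑ j ∈ s, |f j| := Finset.abs_sum_le_sum_abs _ _
    _ ≤ s.card • b := Finset.sum_le_card_nsmul _ _ _ h
    _ ≤ m * b := by
      rw [nsmul_eq_mul]
      refine mul_le_mul_of_nonneg_right ?_ hb
      have := s.card_le_univ
      rw [Fintype.card_fin] at this
      exact_mod_cast this

lemma WordA_pas {m : ℕ} (hm : m ≤ 7) {t M : ℤ} (hM : 1 ≤ M) (ht : |t| ≤ M) (i j : Fin m) :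
    |pas m t i j| ≤ 64 * M ^ 6 := by
  rw [pas_apply, abs_mul, abs_pow]
  have hi : (i : ℕ) ≤ 6 := by have := i.2; omega
  have h1 : Nat.choose i j ≤ 64 :=
    (Nat.choose_le_two_pow _ _).trans
      ((Nat.pow_le_pow_right (by norm_num) hi).trans (by norm_num))
  have h2 : |t| ^ ((i : ℕ) - j) ≤ M ^ 6 :=
    (pow_le_pow_left₀ (abs_nonneg _) ht _).trans (pow_le_pow_right₀ hM (by omega))
  refine mul_le_mul ?_ h2 (by positivity) (by norm_num)
  rw [Nat.abs_cast]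
  exact_mod_cast h1

lemma WordA_mulVec {m : ℕ} {t L R : ℤ} (hL : ∀ i j, |pas m t i j| ≤ L) (hL0 : 0 ≤ L)
    (hR : 1 ≤ R) {y : Fin m → ℤ} (hy : ∀ j : Fin m, |y j| ≤ R ^ ((j : ℕ) + 1)) (i : Fin m) :
    ∃ e : ℤ, (pas m t *ᵥ y) i = y i + e ∧ |e| ≤ m * (L * R ^ (i : ℕ)) := by
  refine ⟨∑ j ∈ Finset.univ.erase i, pas m t i j * y j, ?_, ?_⟩
  · rw [Matrix.mulVec, dotProduct, ← Finset.add_sum_erase _ _ (Finset.mem_univ i), pas_diag,
      one_mul]
  · refine WordA_sum _ _ (by positivity) fun j hj => ?_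
    rcases lt_or_gt_of_ne (Finset.ne_of_mem_erase hj) with h | h
    · rw [abs_mul]
      refine mul_le_mul (hL _ _) ((hy j).trans (pow_le_pow_right₀ hR ?_)) (abs_nonneg _) hL0
      exact h
    · rw [pas_of_lt m t h, zero_mul, abs_zero]
      positivity

lemma WordA_vecMul {m : ℕ} {t L R : ℤ} (hL : ∀ i j, |pas m t i j| ≤ L) (hL0 : 0 ≤ L)
    (hR : 1 ≤ R) {a : Fin m → ℤ} (ha : ∀ j : Fin m, |a j| ≤ R ^ (m - (j : ℕ))) (i : Fin m) :
    ∃ e : ℤ, (a ᵥ* pas m t) i = a i + e ∧ |e| ≤ m * (L * R ^ (m - (i : ℕ) - 1)) := by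
  refine ⟨∑ j ∈ Finset.univ.erase i, a j * pas m t j i, ?_, ?_⟩
  · rw [Matrix.vecMul, dotProduct, ← Finset.add_sum_erase _ _ (Finset.mem_univ i), pas_diag,
      mul_one]
  · refine WordA_sum _ _ (by positivity) fun j hj => ?_
    rcases lt_or_gt_of_ne (Finset.ne_of_mem_erase hj) with h | h
    · rw [pas_of_lt m t h, mul_zero, abs_zero]
      positivity
    · rw [abs_mul, mul_comm]
      refine mul_le_mul (hL _ _) ((ha j).trans (pow_le_pow_right₀ hR ?_)) (abs_nonneg _) hL0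
      have : (i : ℕ) < j := h
      omega

lemma WordA_dot {m : ℕ} {t L R M : ℤ} (hL : ∀ i j, |pas m t i j| ≤ L) (hL0 : 0 ≤ L)
    (hR : 1 ≤ R) (hM : 0 ≤ M) {a y : Fin m → ℤ} (ha : ∀ j, |a j| ≤ M)
    (hy : ∀ j : Fin m, |y j| ≤ R ^ ((j : ℕ) + 1)) :
    |a ⬝ᵥ (pas m t *ᵥ y)| ≤ m * (M * (m * (L * R ^ m))) := by
  rw [dotProduct]
  refine WordA_sum _ _ (by positivity) fun i _ => ?_
  rw [abs_mul]
  refine mul_le_mul (ha i) ?_ (abs_nonneg _) hM
  rw [Matrix.mulVec, dotProduct]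
  refine WordA_sum _ _ (by positivity) fun j _ => ?_
  rw [abs_mul]
  refine mul_le_mul (hL _ _) ((hy j).trans (pow_le_pow_right₀ hR ?_)) (abs_nonneg _) hL0
  exact j.2

lemma WordA_deg (i : I) : 1 ≤ deg i ∧ deg i ≤ 8 := by
  revert i
  rw [forall_I]
  refine ⟨fun k => ?_, fun k => ?_, fun k => ?_, fun k => ?_, ?_, ?_, ?_, ?_, ?_⟩
  all_goals simp only [deg, mkI_ia, mkI_iy, mkI_ip, mkI_iq, mkI_it, mkI_ia2, mkI_iu, mkI_ix1,
    mkI_iz]
  all_goals first | (have := k.2; omega) | omega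

lemma compact_subset_Box {T : Set G} (hT : IsCompact T) : ∃ B : ℕ, T ⊆ Box B := by
  have hc : Continuous fun g : G => ∑ i, |(co g i : ℝ)| + |g.x.1| + |g.s.1| := by
    refine Continuous.add (Continuous.add ?_ ?_) ?_
    · refine continuous_finsetSum _ fun i _ => ?_
      exact ((continuous_of_discreteTopology (f := fun n : ℤ => (n : ℝ))).comp
        ((continuous_apply i).comp continuous_co)).abs
    · exact (continuous_fst.comp continuous_x).abs
    · exact (continuous_fst.comp continuous_s).abs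
  obtain ⟨b, hb⟩ := hT.bddAbove_image hc.continuousOn
  obtain ⟨n, hn⟩ := exists_nat_ge b
  refine ⟨n + 1, fun g hg => ?_⟩
  have h1 : ∑ i, |(co g i : ℝ)| + |g.x.1| + |g.s.1| ≤ b := hb ⟨g, hg, rfl⟩
  have h2 : 0 ≤ ∑ i, |(co g i : ℝ)| := Finset.sum_nonneg fun i _ => abs_nonneg _
  have h3 := abs_nonneg g.x.1
  have h4 := abs_nonneg g.s.1
  have h0 : (0 : ℝ) ≤ n := Nat.cast_nonneg n
  refine ⟨fun i => ?_, ?_, ?_⟩
  · have h5 : |(co g i : ℝ)| ≤ ∑ i, |(co g i : ℝ)| :=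
      Finset.single_le_sum (f := fun i => |(co g i : ℝ)|) (fun i _ => abs_nonneg _)
        (Finset.mem_univ i)
    have h6 : |(co g i : ℝ)| ≤ ((n + 1 : ℕ) : ℝ) := by push_cast; linarith only [hn, h1, h3, h4, h5]
    have h7 : |co g i| ≤ ((n + 1 : ℕ) : ℤ) := by exact_mod_cast h6
    refine h7.trans (le_self_pow₀ (by push_cast; omega) ?_)
    have := (WordA_deg i).1
    omega
  · push_cast; linarith
  · refine le_trans ?_ (le_self_pow₀ (by push_cast; linarith) (by norm_num))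
    push_cast; linarith

lemma mul_mem_Box (B : ℕ) : ∃ C : ℕ, ∀ s ∈ Box B, ∀ R : ℕ, 1 ≤ R → ∀ g ∈ Box R,
    s * g ∈ Box (R + C) := by
  obtain ⟨N, hN⟩ : ∃ N : ℕ, N = (B + 1) ^ 8 := ⟨_, rfl⟩
  have hN1 : 1 ≤ N := by rw [hN]; exact Nat.one_le_pow _ _ (by omega)
  refine ⟨52 * N * (64 * N ^ 6), fun s hs R hR g hg => ?_⟩
  obtain ⟨s1, s2, s3⟩ := hs
  obtain ⟨g1, g2, g3⟩ := hg
  obtain ⟨M, hM⟩ : ∃ M : ℤ, M = N := ⟨_, rfl⟩
  obtain ⟨L, hL⟩ : ∃ L : ℤ, L = 64 * M ^ 6 := ⟨_, rfl⟩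
  obtain ⟨r, hr⟩ : ∃ r : ℤ, r = R := ⟨_, rfl⟩
  have hM1 : 1 ≤ M := by rw [hM]; exact_mod_cast hN1
  have hL1 : 1 ≤ L := by
    have := one_le_pow₀ (n := 6) hM1
    rw [hL]; linarith only [this]
  have hr1 : 1 ≤ r := by rw [hr]; exact_mod_cast hR
  have hB0 : (0 : ℤ) ≤ B := Nat.cast_nonneg B
  have hB0' : (0 : ℝ) ≤ B := Nat.cast_nonneg B
  have sM : ∀ i, |co s i| ≤ M := fun i => by
    refine (s1 i).trans ?_
    rw [hM, hN]
    push_cast
    exact (pow_le_pow_left₀ hB0 (by linarith only []) _).trans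
      (pow_le_pow_right₀ (by linarith only []) (WordA_deg i).2)
  have sx : |s.x.1| ≤ (M : ℝ) := by
    refine s2.trans ?_
    rw [hM, hN]
    push_cast
    exact le_trans (by linarith only []) (le_self_pow₀ (by linarith) (by norm_num))
  have ss : |s.s.1| ≤ (M : ℝ) := by
    refine s3.trans ?_
    rw [hM, hN]
    push_cast
    exact (pow_le_pow_left₀ hB0' (by linarith) _).trans
      (pow_le_pow_right₀ (by linarith) (by norm_num))
  rw [← hr] at g1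
  have hC : ((R + 52 * N * (64 * N ^ 6) : ℕ) : ℤ) = r + 52 * (M * L) := by
    rw [hL, hM, hr]; push_cast; ring
  have hC' : ((R + 52 * N * (64 * N ^ 6) : ℕ) : ℝ) = (r : ℝ) + ((52 * (M * L) : ℤ) : ℝ) := by
    rw [hL, hM, hr]; push_cast; ring
  have hrR : (R : ℝ) = (r : ℝ) := by rw [hr]; push_cast; rfl
  rw [hrR] at g2 g3
  have st : |s.t| ≤ M := sM it
  have st' : |-s.t| ≤ M := by rw [abs_neg]; exact st
  have p7 : ∀ i j, |pas 7 s.t i j| ≤ L := fun i j => hL ▸ WordA_pas le_rfl hM1 st i j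
  have p7' : ∀ i j, |pas 7 (-s.t) i j| ≤ L := fun i j => hL ▸ WordA_pas le_rfl hM1 st' i j
  have p4 : ∀ i j, |pas 4 s.t i j| ≤ L := fun i j => hL ▸ WordA_pas (by norm_num) hM1 st i j
  have p4' : ∀ i j, |pas 4 (-s.t) i j| ≤ L := fun i j =>
    hL ▸ WordA_pas (by norm_num) hM1 st' i j
  have hL0 : 0 ≤ L := by linarith only [hL1]
  have hM0 : 0 ≤ M := by linarith only [hN1, hM]
  have hr0 : 0 ≤ r := by linarith only [hR, hr]
  have ML1 : M ≤ M * L := le_mul_of_one_le_right hM0 hL1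
  have ML2 : L ≤ M * L := le_mul_of_one_le_left hL0 hM1
  have hC0 : 0 ≤ 52 * (M * L) := by positivity
  have key : ∀ (d : ℕ) (x e c : ℤ), |x| ≤ r ^ (d + 1) → |c| ≤ M → |e| ≤ 7 * (L * r ^ d) →
      |c + (x + e)| ≤ (r + 52 * (M * L)) ^ (d + 1) := by
    intro d x e c hx hc he
    rw [show c + (x + e) = x + (c + e) by ring]
    refine WordA_step hr0 hC0 hx ((abs_add_le _ _).trans ?_)
    have h1 : 1 ≤ r ^ d := one_le_pow₀ hr1
    have h2 : M * L * 1 ≤ M * L * r ^ d := mul_le_mul_of_nonneg_left h1 (by positivity)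
    have h3 : L * r ^ d ≤ M * L * r ^ d := mul_le_mul_of_nonneg_right ML2 (by positivity)
    have h4 : 0 ≤ M * L * r ^ d := by positivity
    linarith only [hN1, hM, ML1, hc, he, h2, h3]
  have key0 : ∀ x c : ℤ, |x| ≤ r ^ 1 → |c| ≤ M → |c + x| ≤ (r + 52 * (M * L)) ^ 1 := by
    intro x c hx hc
    have := key 0 x 0 c hx hc (by rw [abs_zero]; positivity)
    rwa [add_zero] at this
  have ga : ∀ j : Fin 7, |g.a j| ≤ r ^ (7 - (j : ℕ)) := fun j => g1 (ia j)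
  have gy : ∀ j : Fin 7, |g.y j| ≤ r ^ ((j : ℕ) + 1) := fun j => g1 (iy j)
  have gp : ∀ j : Fin 4, |g.p j| ≤ r ^ (4 - (j : ℕ)) := fun j => g1 (ip j)
  have gq : ∀ j : Fin 4, |g.q j| ≤ r ^ ((j : ℕ) + 1) := fun j => g1 (iq j)
  have gu : |g.u| ≤ r := by have := g1 iu; rwa [show deg iu = 1 from rfl, pow_one] at this
  have gx : |g.x1| ≤ r := by have := g1 ix1; rwa [show deg ix1 = 1 from rfl, pow_one] at this
  refine ⟨?_, ?_, ?_⟩
  · rw [hC, forall_I]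
    refine ⟨fun k => ?_, fun k => ?_, fun k => ?_, fun k => ?_, key0 _ _ (g1 it) (sM it),
      key0 _ _ (g1 ia2) (sM ia2), key0 _ _ (g1 iu) (sM iu), key0 _ _ (g1 ix1) (sM ix1), ?_⟩
    · obtain ⟨e, he1, he2⟩ := WordA_vecMul p7' hL0 hr1 ga k
      have hk : 7 - (k : ℕ) = 7 - (k : ℕ) - 1 + 1 := by have := k.2; omega
      change |s.a k + (g.a ᵥ* pas 7 (-s.t)) k| ≤ _ ^ (7 - (k : ℕ))
      rw [he1, hk]
      exact key _ _ _ _ (hk ▸ ga k) (sM (ia k)) he2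
    · obtain ⟨e, he1, he2⟩ := WordA_mulVec p7 hL0 hr1 gy k
      change |s.y k + (pas 7 s.t *ᵥ g.y) k| ≤ _ ^ ((k : ℕ) + 1)
      rw [he1]
      exact key _ _ _ _ (gy k) (sM (iy k)) he2
    · obtain ⟨e, he1, he2⟩ := WordA_vecMul p4' hL0 hr1 gp k
      have hk : 4 - (k : ℕ) = 4 - (k : ℕ) - 1 + 1 := by have := k.2; omega
      change |s.p k + (g.p ᵥ* pas 4 (-s.t)) k| ≤ _ ^ (4 - (k : ℕ))
      rw [he1, hk]
      refine key _ _ _ _ (hk ▸ gp k) (sM (ip k)) (he2.trans ?_)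
      exact mul_le_mul_of_nonneg_right (by norm_num) (by positivity)
    · obtain ⟨e, he1, he2⟩ := WordA_mulVec p4 hL0 hr1 gq k
      change |s.q k + (pas 4 s.t *ᵥ g.q) k| ≤ _ ^ ((k : ℕ) + 1)
      rw [he1]
      refine key _ _ _ _ (gq k) (sM (iq k)) (he2.trans ?_)
      exact mul_le_mul_of_nonneg_right (by norm_num) (by positivity)
    · change |s.z + g.z + s.a ⬝ᵥ (pas 7 s.t *ᵥ g.y) + s.a2 * g.u| ≤ _ ^ (7 + 1)
      have hd := WordA_dot p7 hL0 hr1 hM0 (fun j => sM (ia j)) gy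
      rw [show s.z + g.z + s.a ⬝ᵥ (pas 7 s.t *ᵥ g.y) + s.a2 * g.u =
        g.z + (s.z + s.a ⬝ᵥ (pas 7 s.t *ᵥ g.y) + s.a2 * g.u) by ring]
      refine WordA_step hr0 hC0 (g1 iz) ((abs_add_three _ _ _).trans ?_)
      have h1 : 1 ≤ r ^ 7 := one_le_pow₀ hr1
      have h2 : M * L * 1 ≤ M * L * r ^ 7 := mul_le_mul_of_nonneg_left h1 (by positivity)
      have h3 : |s.a2 * g.u| ≤ M * L * r ^ 7 := by
        rw [abs_mul]
        exact mul_le_mul ((sM ia2).trans ML1) (gu.trans (le_self_pow₀ hr1 (by norm_num)))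
          (abs_nonneg _) (by positivity)
      have h4 : |s.z| ≤ M := sM iz
      have h5 : 0 ≤ M * L * r ^ 7 := by positivity
      push_cast at hd
      have h6 : |s.a ⬝ᵥ (pas 7 s.t *ᵥ g.y)| ≤ 49 * (M * L * r ^ 7) := hd.trans (le_of_eq (by ring))
      linarith only [hN1, hM, ML1, h2, h3, h4, h6]
  · rw [hC']
    change |s.x.1 + g.x.1| ≤ _
    have h1 : (M : ℝ) ≤ ((52 * (M * L) : ℤ) : ℝ) := by
      have : M ≤ 52 * (M * L) := by linarith only [hN1, hM, ML1]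
      exact_mod_cast this
    exact (abs_add_le _ _).trans (by linarith only [g2, sx, h1])
  · rw [hC']
    have e1 : (s * g).s.1 = g.s.1 + (s.s.1 +
        ((s.p ⬝ᵥ (pas 4 s.t *ᵥ g.q) + s.a 6 * g.x1 : ℤ) : ℝ) + (s.a2 : ℝ) * g.x.1) := by
      simp only [G.mul_s, Prod.fst_add, Prod.smul_fst, e0_fst]
      simp only [zsmul_eq_mul, mul_one]
      ring
    rw [e1]
    have hd := WordA_dot p4 hL0 hr1 hM0 (fun j => sM (ip j)) gq
    have h1 : 1 ≤ r ^ 4 := one_le_pow₀ hr1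
    have h2 : M * L * 1 ≤ M * L * r ^ 4 := mul_le_mul_of_nonneg_left h1 (by positivity)
    have h2' : M * r ≤ M * L * r ^ 4 :=
      mul_le_mul ML1 (le_self_pow₀ hr1 (by norm_num)) hr0 (by positivity)
    have h3 : |s.a 6 * g.x1| ≤ M * r := by
      rw [abs_mul]
      exact mul_le_mul (sM (ia 6)) gx (abs_nonneg _) hM0
    have h5 : 0 ≤ M * L * r ^ 4 := by positivity
    push_cast at hd
    have h6 : |s.p ⬝ᵥ (pas 4 s.t *ᵥ g.q)| ≤ 16 * (M * L * r ^ 4) := hd.trans (le_of_eq (by ring))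
    have h7 : M + |s.p ⬝ᵥ (pas 4 s.t *ᵥ g.q) + s.a 6 * g.x1| + M * r ≤ 52 * (M * L) * r ^ 4 := by
      have := abs_add_le (s.p ⬝ᵥ (pas 4 s.t *ᵥ g.q)) (s.a 6 * g.x1)
      linarith only [hN1, hM, ML1, h2, h2', h3, h6, this]
    have h8 : (M : ℝ) + |((s.p ⬝ᵥ (pas 4 s.t *ᵥ g.q) + s.a 6 * g.x1 : ℤ) : ℝ)| + (M : ℝ) * r ≤
        ((52 * (M * L) : ℤ) : ℝ) * (r : ℝ) ^ 4 := by exact_mod_cast h7
    have h9 : |(s.a2 : ℝ) * g.x.1| ≤ (M : ℝ) * r := by
      rw [abs_mul]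
      refine mul_le_mul ?_ g2 (abs_nonneg _) (by exact_mod_cast hM0)
      have : |s.a2| ≤ M := sM ia2
      exact_mod_cast this
    refine WordA_step (d := 4) (by exact_mod_cast hr0) (by exact_mod_cast hC0) g3
      ((abs_add_three _ _ _).trans ?_)
    linarith only [ss, h8, h9]

theorem mem_Box_wordLength {S : Set G} (hc : IsCompact S) (hS : Subgroup.closure S = ⊤) :
    ∃ C : ℕ, ∀ g : G, g ∈ Box (1 + C * wordLength S g) := by
  obtain ⟨B, hB⟩ := compact_subset_Box (hc.union hc.inv)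
  obtain ⟨C, hC⟩ := mul_mem_Box B
  refine ⟨C, fun g => ?_⟩
  obtain ⟨l, hl, hlS, rfl⟩ := exists_word hS g
  rw [← hl]
  clear hl
  induction l with
  | nil =>
    refine ⟨fun i => ?_, ?_, ?_⟩ <;> simp
  | cons s l ih =>
    rw [List.prod_cons, List.length_cons, mul_add, mul_one, ← add_assoc]
    refine hC s (hB ?_) _ (by omega) _ (ih fun x hx => hlS x (List.mem_cons_of_mem _ hx))
    exact hlS s List.mem_cons_self

end Pool.Agent.Work.MP_913e71_al
end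

-- merged part: Pool.Agent.Work.MP_913e71_al.WordB
section
/-! `Box 1` generates, and `Small` elements are short.

PLAN for `closure_Box_one`.  `g = τ t * g1` with `g1.t = 0`, and
`g1 = ψ (x, s) * φc * φb` exactly, where `φb` carries `a, p, a2`, `φc` carries `y, q, u, x1, z`, and
`ψ` the `E` coordinates.  `v ↦ φb v`, `v ↦ φc v` (for `v : I → ℤ`) and `τ`, `ψ` are homomorphisms
from additive groups; `Pi.single i 1` generate `I → ℤ`; `(x, s) = n • (x', s') + (K parts)` with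
real parts of `x', s'` of size at most one.

PLAN for `small_length`.  `chain_length`: with `Y v` additive and `τ r * Y v * (τ r)⁻¹ =
Y (pas m r *ᵥ v)`, the commutator of `τ R` and `Y v` is `Y ((pas m R - 1) *ᵥ v)`; if `v` vanishes
below `k` then `(pas m R - 1) *ᵥ v` vanishes below `k + 1` and has `(k + 1) R v k` at `k + 1`; write
`n = (k + 1) R n' + rem` with `0 ≤ rem < (k + 1) R`, `|n'| ≤ R ^ (k + 1)`.  Then
`w` is the case `m = 7`, `k = 6`; `z = R n' + rem` and the central element `z = R n'` is the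
commutator of the pure element `a 6 = R` with the pure element `w = n'`; `s = (σ, κ)`,
`σ = R n' + rem` with `0 ≤ rem < R` real, `(R n') • e0` is the commutator of the pure elements
`p 3 = R` and `q 3 = n'` (`m = 4`, `k = 3`), and `(rem, κ') = R • (rem / R, 0) + (0, κ')`. -/

namespace Pool.Agent.Work.MP_913e71_al

open Matrix

lemma WordB_smul {A H : Type} [AddCommGroup A] [Group H] (Y : A → H)
    (hY : ∀ v w, Y (v + w) = Y v * Y w) (n : ℤ) (v : A) : Y (n • v) = Y v ^ n :=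
  map_zpow (MonoidHom.mk' (fun a : Multiplicative A => Y a.toAdd) fun _ _ => hY _ _)
    (Multiplicative.ofAdd v) n

lemma WordB_zpow {H : Type} [Group H] (len : H → ℕ) (h1 : len 1 = 0)
    (hmul : ∀ x y, len (x * y) ≤ len x + len y) (hinv : ∀ x, len x⁻¹ = len x) (x : H) (n : ℤ) :
    len (x ^ n) ≤ n.natAbs * len x := by
  have h : ∀ k : ℕ, len (x ^ k) ≤ k * len x := fun k => by
    induction k with
    | zero => simp [h1]
    | succ k ih =>
      rw [pow_succ, add_mul, one_mul]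
      exact (hmul _ _).trans (Nat.add_le_add_right ih _)
  obtain ⟨k, rfl | rfl⟩ := n.eq_nat_or_neg
  · simpa using h k
  · simpa [hinv] using h k

lemma WordB_div {n d B : ℤ} (hd : 0 < d) (h : |n| ≤ B * d) : |n / d| ≤ B :=
  abs_le.2 ⟨Int.le_ediv_of_mul_le hd (by linarith [(abs_le.1 h).1]),
    Int.ediv_le_of_le_mul hd (abs_le.1 h).2⟩

/-- The abelian subgroup of the lower coordinates. -/
noncomputable def WordB_lo (y : Fin 7 → ℤ) (q : Fin 4 → ℤ) (u x1 z : ℤ) (x s : E) : G :=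
  ⟨0, 0, y, 0, q, 0, u, x1, z, x, s⟩

/-- The abelian subgroup of the upper coordinates. -/
noncomputable def WordB_up (a : Fin 7 → ℤ) (p : Fin 4 → ℤ) (a2 : ℤ) : G := ⟨0, a, 0, p, 0, a2, 0, 0, 0, 0, 0⟩

/-- The shift. -/
noncomputable def WordB_t (r : ℤ) : G := ⟨r, 0, 0, 0, 0, 0, 0, 0, 0, 0, 0⟩

lemma WordB_lo_mul (y y' : Fin 7 → ℤ) (q q' : Fin 4 → ℤ) (u u' w w' z z' : ℤ) (x x' s s' : E) :
    WordB_lo y q u w z x s * WordB_lo y' q' u' w' z' x' s' =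
      WordB_lo (y + y') (q + q') (u + u') (w + w') (z + z') (x + x') (s + s') := by
  ext1 <;> simp [WordB_lo]

lemma WordB_up_mul (a a' : Fin 7 → ℤ) (p p' : Fin 4 → ℤ) (b b' : ℤ) :
    WordB_up a p b * WordB_up a' p' b' = WordB_up (a + a') (p + p') (b + b') := by
  ext1 <;> simp [WordB_up]

lemma WordB_t_add (r r' : ℤ) : WordB_t (r + r') = WordB_t r * WordB_t r' := by
  ext1 <;> simp [WordB_t]

lemma WordB_conj (r : ℤ) (y : Fin 7 → ℤ) (q : Fin 4 → ℤ) :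
    WordB_t r * WordB_lo y q 0 0 0 0 0 * (WordB_t r)⁻¹ =
      WordB_lo (pas 7 r *ᵥ y) (pas 4 r *ᵥ q) 0 0 0 0 0 := by
  rw [mul_inv_eq_iff_eq_mul]
  ext1 <;> simp [WordB_t, WordB_lo]

lemma WordB_comm (a y : Fin 7 → ℤ) (p q : Fin 4 → ℤ) :
    WordB_lo 0 0 0 0 (a ⬝ᵥ y) 0 ((p ⬝ᵥ q) • e0) = WordB_up a p 0 * WordB_lo y q 0 0 0 0 0 *
      (WordB_up a p 0)⁻¹ * (WordB_lo y q 0 0 0 0 0)⁻¹ := by
  rw [eq_mul_inv_iff_mul_eq, eq_mul_inv_iff_mul_eq]
  ext1 <;> simp [WordB_up, WordB_lo]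

lemma WordB_box {g : G} (h : ∀ i, |co g i| ≤ 1) (hx : |g.x.1| ≤ 1) (hs : |g.s.1| ≤ 1) :
    g ∈ Box 1 := ⟨by simpa using h, by simpa using hx, by simpa using hs⟩

lemma WordB_single {ι : Type} [DecidableEq ι] (j i : ι) : |(Pi.single j 1 : ι → ℤ) i| ≤ 1 := by
  rw [Pi.single_apply]
  split_ifs <;> simp

lemma WordB_lo_box {y : Fin 7 → ℤ} {q : Fin 4 → ℤ} {u w z : ℤ} {x s : E} (hy : ∀ k, |y k| ≤ 1)
    (hq : ∀ k, |q k| ≤ 1) (hu : |u| ≤ 1) (hw : |w| ≤ 1) (hz : |z| ≤ 1) (hx : |x.1| ≤ 1)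
    (hs : |s.1| ≤ 1) : WordB_lo y q u w z x s ∈ Box 1 :=
  have o : |(0 : ℤ)| ≤ 1 := by simp
  WordB_box (forall_I.2 ⟨fun _ => o, hy, fun _ => o, hq, o, o, hu, hw, hz⟩) hx hs

lemma WordB_up_box {a : Fin 7 → ℤ} {p : Fin 4 → ℤ} {b : ℤ} (ha : ∀ k, |a k| ≤ 1)
    (hp : ∀ k, |p k| ≤ 1) (hb : |b| ≤ 1) : WordB_up a p b ∈ Box 1 :=
  have o : |(0 : ℤ)| ≤ 1 := by simp
  WordB_box (forall_I.2 ⟨ha, fun _ => o, hp, fun _ => o, o, hb, o, o, o⟩)
    (by simp [WordB_up]) (by simp [WordB_up])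

lemma WordB_t_box : WordB_t 1 ∈ Box 1 :=
  have o : |(0 : ℤ)| ≤ 1 := by simp
  WordB_box (forall_I.2 ⟨fun _ => o, fun _ => o, fun _ => o, fun _ => o, abs_one.le, o, o, o, o⟩)
    (by simp [WordB_t]) (by simp [WordB_t])

lemma WordB_E {R : ℕ} (hR : 1 ≤ R) {x s : E} (hx : |x.1| ≤ R) (hs : |s.1| ≤ R) :
    ∃ g ∈ Box 1, ∃ g' ∈ Box 1, WordB_lo 0 0 0 0 0 x s = g ^ (R : ℤ) * g' := by
  have o : |(0 : ℤ)| ≤ 1 := by simp
  have R0 : (0 : ℝ) < R := by exact_mod_cast hR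
  have b : ∀ {c : ℝ}, |c| ≤ R → |c / R| ≤ 1 := fun h => by
    rwa [abs_div, abs_of_pos R0, div_le_one R0]
  refine ⟨_, WordB_lo_box (x := (x.1 / R, 0)) (s := (s.1 / R, 0)) (fun _ => o) (fun _ => o) o o o
    (b hx) (b hs), _, WordB_lo_box (x := (0, x.2)) (s := (0, s.2)) (fun _ => o) (fun _ => o) o o o
    (by simp) (by simp), ?_⟩
  have e := WordB_smul (fun w : E × E => WordB_lo 0 0 0 0 0 w.1 w.2)
    (fun v w => by simp [WordB_lo_mul]) R ((x.1 / R, 0), (s.1 / R, 0))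
  have c : ∀ w : E, (R : ℤ) • ((w.1 / R, 0) : E) + (0, w.2) = w := fun w => by
    ext
    · simp [mul_div_cancel₀ _ R0.ne']
    · simp
  change _ = WordB_lo 0 0 0 0 0 _ _ ^ _ * WordB_lo 0 0 0 0 0 _ _
  rw [← e, WordB_lo_mul, Prod.smul_fst, Prod.smul_snd, c, c]
  simp

lemma WordB_gen (H : Subgroup G) (φ : (I → ℤ) → G) (hφ : ∀ v w, φ (v + w) = φ v * φ w)
    (h : ∀ j, φ (Pi.single j 1) ∈ H) (v : I → ℤ) : φ v ∈ H := by
  have k : ∀ (n : ℤ) j, φ (n • Pi.single j 1) ∈ H := fun n j => by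
    rw [WordB_smul φ hφ]
    exact H.zpow_mem (h j) n
  induction v using Pi.single_induction with
  | zero => simpa using k 0 it
  | add f g hf hg => exact hφ f g ▸ H.mul_mem hf hg
  | single j n => simpa [← Pi.single_smul'] using k n j

theorem closure_Box_one : Subgroup.closure (Box 1) = ⊤ := by
  refine eq_top_iff.2 fun g _ => ?_
  have e : g = WordB_lo g.y g.q g.u g.x1 g.z 0 0 * WordB_lo 0 0 0 0 0 g.x g.s *
      WordB_up g.a g.p g.a2 * WordB_t g.t := by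
    ext1 <;> simp [WordB_lo, WordB_up, WordB_t]
  rw [e]
  refine mul_mem (mul_mem (mul_mem ?_ ?_) ?_) ?_
  · exact WordB_gen _ (fun v => WordB_lo (fun k => v (iy k)) (fun k => v (iq k)) (v iu) (v ix1)
      (v iz) 0 0) (fun v w => by rw [WordB_lo_mul, add_zero]; rfl) (fun j => Subgroup.subset_closure
        (WordB_lo_box (fun _ => WordB_single _ _) (fun _ => WordB_single _ _) (WordB_single _ _)
          (WordB_single _ _) (WordB_single _ _) (by simp) (by simp))) (co g)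
  · obtain ⟨R, hR⟩ := exists_nat_ge (|g.x.1| + |g.s.1| + 1)
    have a := abs_nonneg g.x.1
    have b := abs_nonneg g.s.1
    obtain ⟨k, k1, k', k2, e⟩ := WordB_E (R := R) (x := g.x) (s := g.s)
      (by exact_mod_cast (show (1 : ℝ) ≤ R by linarith)) (by linarith) (by linarith)
    rw [e]
    exact mul_mem (zpow_mem (Subgroup.subset_closure k1) _) (Subgroup.subset_closure k2)
  · exact WordB_gen _ (fun v => WordB_up (fun k => v (ia k)) (fun k => v (ip k)) (v ia2))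
      (fun v w => by rw [WordB_up_mul]; rfl) (fun j => Subgroup.subset_closure
        (WordB_up_box (fun _ => WordB_single _ _) (fun _ => WordB_single _ _) (WordB_single _ _)))
      (co g)
  · have e := WordB_smul WordB_t WordB_t_add g.t 1
    rw [smul_eq_mul, mul_one] at e
    rw [e]
    exact zpow_mem (Subgroup.subset_closure WordB_t_box) _

lemma chain_length {H : Type} [Group H] (len : H → ℕ) (h1 : len 1 = 0)
    (hmul : ∀ x y, len (x * y) ≤ len x + len y) (hinv : ∀ x, len x⁻¹ = len x) (N m : ℕ)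
    (Y : (Fin m → ℤ) → H) (hY : ∀ v w, Y (v + w) = Y v * Y w) (τ : ℤ → H)
    (hτ : ∀ r v, τ r * Y v * (τ r)⁻¹ = Y (pas m r *ᵥ v)) (hτl : ∀ R : ℕ, len (τ R) ≤ N * R)
    (hYl : ∀ k, len (Y (Pi.single k 1)) ≤ N) (k : ℕ) (hk : k < m) :
    ∃ C : ℕ, ∀ R : ℕ, 1 ≤ R → ∀ n : ℤ, |n| ≤ (R : ℤ) ^ (k + 1) →
      ∃ v : Fin m → ℤ, (∀ j : Fin m, (j : ℕ) < k → v j = 0) ∧ v ⟨k, hk⟩ = n ∧
        len (Y v) ≤ C * R := by
  have hs : ∀ (n : ℤ) j, len (Y (n • Pi.single j 1)) ≤ n.natAbs * N := fun n j => by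
    rw [WordB_smul Y hY]
    exact (WordB_zpow len h1 hmul hinv _ n).trans (Nat.mul_le_mul_left _ (hYl j))
  induction k with
  | zero =>
    refine ⟨N, fun R _ n hn => ⟨n • Pi.single ⟨0, hk⟩ 1, fun j hj => absurd hj j.1.not_lt_zero,
      by simp, (hs n _).trans ?_⟩⟩
    rw [mul_comm]
    rw [zero_add, pow_one, abs_le] at hn
    exact Nat.mul_le_mul_left _ (by omega)
  | succ k ih =>
    obtain ⟨C, hC⟩ := ih (by omega)
    refine ⟨2 * N + 2 * C + (k + 1) * N, fun R hR n hn => ?_⟩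
    have R0 : (0 : ℤ) < R := by exact_mod_cast hR
    have d0 : (0 : ℤ) < ((k + 1) * R : ℕ) := by positivity
    obtain ⟨v, v1, v2, v3⟩ := hC R hR (n / ((k + 1) * R : ℕ)) (WordB_div d0 (hn.trans (by
      rw [pow_succ]
      exact mul_le_mul_of_nonneg_left (by exact_mod_cast Nat.le_mul_of_pos_left R k.succ_pos)
        (by positivity))))
    refine ⟨pas m R *ᵥ v + (-1 : ℤ) • v + (n % ((k + 1) * R : ℕ)) • Pi.single ⟨k + 1, hk⟩ 1,
      fun j hj => ?_, ?_, ?_⟩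
    · have e : (pas m R *ᵥ v) j = v j := by
        rw [mulVec, dotProduct, Finset.sum_eq_single j, pas_diag, one_mul]
        · intro i _ hi
          rcases lt_or_gt_of_ne hi with h | h
          · rw [v1 i (by have : (i : ℕ) < j := h; omega), mul_zero]
          · rw [pas_of_lt _ _ h, zero_mul]
        · simp
      have n1 : j ≠ ⟨k + 1, hk⟩ := fun h => by rw [h] at hj; simp at hj
      simp [e, n1]
    · have e : (pas m R *ᵥ v) ⟨k + 1, hk⟩ =
          ((k + 1) * R : ℕ) * v ⟨k, by omega⟩ + v ⟨k + 1, hk⟩ := by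
        rw [mulVec, dotProduct, Fintype.sum_eq_add ⟨k, by omega⟩ ⟨k + 1, hk⟩
          (Fin.ne_of_lt (Nat.lt_succ_self k)), pas_diag, one_mul, pas_apply]
        · simp
        · intro i hi
          have a1 : (i : ℕ) ≠ k := fun h => hi.1 (Fin.ext h)
          have a2 : (i : ℕ) ≠ k + 1 := fun h => hi.2 (Fin.ext h)
          by_cases h : (i : ℕ) < k
          · rw [v1 i h, mul_zero]
          · rw [pas_of_lt _ _ (show (⟨k + 1, hk⟩ : Fin m) < i from by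
              rw [Fin.lt_def]; simp only; omega), zero_mul]
      have e2 := Int.mul_ediv_add_emod n ((k + 1) * R : ℕ)
      rw [Pi.add_apply, Pi.add_apply, e, v2, Pi.smul_apply, Pi.smul_apply, Pi.single_eq_same,
        smul_eq_mul, smul_eq_mul]
      linarith only [hk, e2]
    · rw [hY, hY, ← hτ, WordB_smul Y hY, _root_.zpow_neg_one]
      have a1 := hs (n % ((k + 1) * R : ℕ)) ⟨k + 1, hk⟩
      have a2 : (n % ((k + 1) * R : ℕ)).natAbs ≤ (k + 1) * R := by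
        have := Int.emod_nonneg n d0.ne'
        have := Int.emod_lt_of_pos n d0
        omega
      have a3 := a1.trans (Nat.mul_le_mul_right N a2)
      have a4 := hτl R
      have a5 := hmul (τ R) (Y v)
      have a6 := hmul (τ R * Y v) (τ R)⁻¹
      have a7 := hmul (τ R * Y v * (τ R)⁻¹) (Y v)⁻¹
      rw [hinv] at a6 a7
      refine (hmul _ _).trans ?_
      linarith only [hk, v3, a3, a4, a5, a6, a7]

theorem small_length (len : G → ℕ) (h1 : len 1 = 0)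
    (hmul : ∀ x y, len (x * y) ≤ len x + len y) (hinv : ∀ x, len x⁻¹ = len x) (N : ℕ)
    (hN : ∀ g ∈ Box 1, len g ≤ N) :
    ∃ C : ℕ, ∀ R : ℕ, 1 ≤ R → ∀ g : G, Small R g → len g ≤ C * R := by
  have o : |(0 : ℤ)| ≤ 1 := by simp
  have pw : ∀ g ∈ Box 1, ∀ n : ℤ, len (g ^ n) ≤ n.natAbs * N := fun g hg n =>
    (WordB_zpow len h1 hmul hinv g n).trans (Nat.mul_le_mul_left _ (hN g hg))
  have ht : ∀ R : ℕ, len (WordB_t R) ≤ N * R := fun R => by
    have e := WordB_smul WordB_t WordB_t_add R 1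
    rw [smul_eq_mul, mul_one] at e
    rw [e, mul_comm]
    exact pw _ WordB_t_box R
  obtain ⟨C1, c1⟩ := chain_length len h1 hmul hinv N 7 (fun v => WordB_lo v 0 0 0 0 0 0)
    (fun v w => by simp [WordB_lo_mul]) WordB_t (fun r v => by simp [WordB_conj]) ht
    (fun k => hN _ (WordB_lo_box (WordB_single k) (fun _ => o) o o o (by simp) (by simp))) 6
    (by norm_num)
  obtain ⟨C2, c2⟩ := chain_length len h1 hmul hinv N 4 (fun v => WordB_lo 0 v 0 0 0 0 0)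
    (fun v w => by simp [WordB_lo_mul]) WordB_t (fun r v => by simp [WordB_conj]) ht
    (fun k => hN _ (WordB_lo_box (fun _ => o) (WordB_single k) o o o (by simp) (by simp))) 3
    (by norm_num)
  refine ⟨3 * C1 + 2 * C2 + 5 * N, fun R hR g ⟨g1, g2, g3, g4, g5, g6, g7, g8, g9, gz, gx, gs⟩ => ?_⟩
  have R0 : (0 : ℤ) < R := by exact_mod_cast hR
  have R1 : (1 : ℝ) ≤ R := by exact_mod_cast hR
  obtain ⟨v, v1, v2, v3⟩ := c1 R hR _ g9
  have ev : v = g.y := funext fun j => by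
    by_cases h : j = 6
    · rw [h]; exact v2
    · rw [g8 j h, v1 j (by have := j.2; have : (j : ℕ) ≠ 6 := fun e => h (Fin.ext e); omega)]
  obtain ⟨y, -, y2, y3⟩ := c1 R hR _ (WordB_div R0 (gz.trans_eq (pow_succ _ 7)))
  have s1 := Int.floor_le (g.s.1 / R)
  have s2 := Int.lt_floor_add_one (g.s.1 / R)
  obtain ⟨q, -, q2, q3⟩ := c2 R hR ⌊g.s.1 / R⌋ (by
    have e : |g.s.1 / R| ≤ ((R ^ 4 : ℤ) : ℝ) := by
      rw [abs_div, abs_of_pos (show (0 : ℝ) < R by linarith only [R1]), div_le_iff₀ (by linarith only [R1])]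
      push_cast
      exact gs.trans_eq (pow_succ _ 4)
    refine abs_le.2 ⟨Int.le_floor.2 ?_, ?_⟩
    · exact_mod_cast (abs_le.1 e).1
    · exact_mod_cast s1.trans (abs_le.1 e).2)
  obtain ⟨k, k1, k', k2, ek⟩ := WordB_E hR (x := g.x) (s := g.s - (R * ⌊g.s.1 / R⌋ : ℤ) • e0)
    (gx.trans R1) (by
      rw [le_div_iff₀ (by linarith only [R1])] at s1
      rw [div_lt_iff₀ (by linarith only [R1])] at s2
      rw [Prod.fst_sub, Prod.smul_fst, e0_fst, zsmul_eq_mul, mul_one]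
      push_cast
      exact abs_le.2 ⟨by linarith only [R1, s1], by linarith only [s2]⟩)
  have eu := WordB_smul (fun n : ℤ => WordB_up (n • Pi.single 6 1) (n • Pi.single 3 1) 0)
    (fun v w => by rw [WordB_up_mul, add_smul, add_smul, add_zero]) R 1
  have ez := WordB_smul (fun n : ℤ => WordB_lo 0 0 0 0 n 0 0)
    (fun v w => by simp [WordB_lo_mul]) (g.z % R) 1
  simp only [smul_eq_mul, mul_one, one_smul] at eu ez
  have ec := WordB_comm ((R : ℤ) • Pi.single 6 1) y ((R : ℤ) • Pi.single 3 1) q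
  have y2' : y 6 = g.z / R := y2
  have q2' : q 3 = ⌊g.s.1 / R⌋ := q2
  rw [smul_dotProduct, smul_dotProduct, single_dotProduct, single_dotProduct, one_mul, one_mul,
    smul_eq_mul, smul_eq_mul, y2', q2', eu] at ec
  have e : g = WordB_lo v 0 0 0 0 0 0 * WordB_lo 0 0 0 0 (R * (g.z / R)) 0
      ((R * ⌊g.s.1 / R⌋ : ℤ) • e0) * WordB_lo 0 0 0 0 (g.z % R) 0 0 *
      WordB_lo 0 0 0 0 0 g.x (g.s - (R * ⌊g.s.1 / R⌋ : ℤ) • e0) := by
    rw [WordB_lo_mul, WordB_lo_mul, WordB_lo_mul, ev]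
    ext1 <;> simp [WordB_lo, g1, g2, g3, g4, g5, g6, g7, Int.mul_ediv_add_emod]
  have el : WordB_lo y q 0 0 0 0 0 = WordB_lo y 0 0 0 0 0 0 * WordB_lo 0 q 0 0 0 0 0 := by
    simp [WordB_lo_mul]
  have a1 : len (WordB_lo y q 0 0 0 0 0) ≤ C1 * R + C2 * R := by
    rw [el]
    exact (hmul _ _).trans (add_le_add y3 q3)
  have a2 := pw _ (WordB_up_box (WordB_single 6) (WordB_single 3) o) R
  have a3 : len (WordB_lo 0 0 0 0 (g.z % R) 0 0) ≤ R * N := by
    rw [ez]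
    refine (pw _ (WordB_lo_box (fun _ => o) (fun _ => o) o o abs_one.le (by simp) (by simp))
      _).trans (Nat.mul_le_mul_right N ?_)
    have := Int.emod_nonneg g.z R0.ne'
    have := Int.emod_lt_of_pos g.z R0
    omega
  have a4 := (hmul _ _).trans (add_le_add (pw k k1 R) (hN k' k2))
  have a5 : ∀ A B : G, len (A * B * A⁻¹ * B⁻¹) ≤ 2 * len A + 2 * len B := fun A B => by
    have b1 := hmul A B
    have b2 := hmul (A * B) A⁻¹
    have b3 := hmul (A * B * A⁻¹) B⁻¹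
    rw [hinv] at b2 b3
    omega
  have a6 := (a5 _ _).trans (add_le_add (Nat.mul_le_mul_left 2 a2) (Nat.mul_le_mul_left 2 a1))
  rw [← ek] at a4
  rw [← ec] at a6
  rw [Int.natAbs_natCast] at a4 a6
  have a7 := (hmul _ _).trans (add_le_add ((hmul _ _).trans (add_le_add ((hmul _ _).trans
    (add_le_add v3 a6)) a3)) a4)
  rw [← e] at a7
  nlinarith only [a7, hR]

end Pool.Agent.Work.MP_913e71_al
end

-- merged part: Pool.Agent.Work.MP_913e71_al.Upper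
section
/-! The lattice at scale `r = P n`.

PLAN.  `exists_eps`: `ε = (1 / r ^ 2, k)` with `k ℓ = 1` for `ℓ = r` and `k ℓ = nh ℓ / r ^ 2`
otherwise (`r` is a unit of `ℤ_[ℓ]`, e.g. `PadicInt.isUnit_iff`, `PadicInt.norm_int_lt_one_iff_dvd`).
`Lam r ε` is a subgroup.  Divisibility lemmas: if `r ∣ t` and `r ^ (j + 1) ∣ v j` then
`r ^ (i + 1) ∣ (pas m t *ᵥ v) i`; if `r ^ (m - i) ∣ a i` then `r ^ (m - k) ∣ (a ᵥ* pas m t) k`;
and then `r ^ (m + 1) ∣ a ⬝ᵥ v`.  With `y' = y + Pi.single 6 (r ^ 3 u)` and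
`pas 7 t *ᵥ Pi.single 6 c = Pi.single 6 c`: `a ⬝ᵥ (M y) + a2 u = a ⬝ᵥ (M y') + (a2 - r ^ 3 a 6) u`;
if `a2 = r ^ 3 a 6 + r ^ 7 j`, `x = k • ε` then `a2 • x = (r a 6 k + r ^ 5 j k) • e0`.
Triviality in `Box R`, `R < r`: `t, a, p, q, u, z` and `y k` vanish by size (`a 6 = 0` gives
`r ^ 7 ∣ a2`, `u = 0` gives `r ^ 7 ∣ y 6`), `r ∣ x1` gives `x1 = 0`, so `r ^ 3 ∣ k`,
`x.1 = k / r ^ 2 ∈ r ℤ`, so `k = 0`; `s.1 ∈ r ^ 5 ℤ`.
Covering: first reduce `t` into `[0, r)` by a pure `t` element; left multiplication by an element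
with `t = 0` adds the coordinates `a, y, p, q, a2, u, x1, x`: choose them by floor division
(`a2`, `y 6`, `x1` after `a 6`, `u`, `x`); last reduce `z`, `s` by a central element. -/

namespace Pool.Agent.Work.MP_913e71_al

open Matrix

lemma exists_eps (n : ℕ) : ∃ ε : E, ((P n : ℤ) ^ 2) • ε = e0 := by
  have h1 : ∀ l : Nat.Primes, ∃ k : ℤ_[l], ((P n : ℕ) : ℤ_[l]) ^ 2 * k = nh l := by
    intro l
    by_cases h : (l : ℕ) = P n
    · refine ⟨1, ?_⟩
      rw [nh, if_pos ⟨n, h.symm⟩, mul_one, ← h]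
    · have hu : IsUnit ((P n : ℕ) : ℤ_[l]) := by
        rw [PadicInt.isUnit_iff, PadicInt.norm_natCast_eq_one_iff]
        exact (Nat.coprime_primes l.2 (P_prime n)).2 h
      obtain ⟨k, hk⟩ := (hu.pow 2).dvd (a := nh l)
      exact ⟨k, hk.symm⟩
  choose k hk using h1
  have hr : ((P n : ℕ) : ℝ) ≠ 0 := by exact_mod_cast (P_prime n).ne_zero
  refine ⟨(1 / (P n : ℝ) ^ 2, k), Prod.ext ?_ ?_⟩
  · rw [Prod.smul_fst, e0_fst, zsmul_eq_mul]
    push_cast
    field_simp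
  · funext l
    show ((P n : ℤ) ^ 2) • k l = nh l
    rw [zsmul_eq_mul, ← hk l]
    push_cast
    rfl

/-- The congruence conditions defining the lattice. -/
def LamSet (r : ℤ) (ε : E) : Set G :=
  {g | r ∣ g.t ∧ (∀ k : Fin 7, r ^ (7 - (k : ℕ)) ∣ g.a k) ∧ r ^ 7 ∣ g.a2 - r ^ 3 * g.a 6 ∧
    (∀ k : Fin 4, r ^ (4 - (k : ℕ)) ∣ g.p k) ∧ (∀ k : Fin 4, r ^ ((k : ℕ) + 1) ∣ g.q k) ∧
    (∀ k : Fin 7, r ^ ((k : ℕ) + 1) ∣ (g.y + Pi.single (6 : Fin 7) (r ^ 3 * g.u) : Fin 7 → ℤ) k) ∧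
    r ∣ g.u ∧ r ^ 8 ∣ g.z ∧ (∃ k : ℤ, g.x = k • ε ∧ r ^ 4 ∣ g.x1 + r * k) ∧
    ∃ k : ℤ, g.s = (r ^ 5 * k) • e0}

lemma Upper_mulVec {m : ℕ} {r t : ℤ} (ht : r ∣ t) {v : Fin m → ℤ}
    (hv : ∀ j : Fin m, r ^ ((j : ℕ) + 1) ∣ v j) (i : Fin m) :
    r ^ ((i : ℕ) + 1) ∣ (pas m t *ᵥ v) i := by
  show _ ∣ ∑ j, pas m t i j * v j
  refine Finset.dvd_sum fun j _ => ?_
  rcases lt_or_ge i j with h | h
  · rw [pas_of_lt m t h, zero_mul]; exact dvd_zero _
  · have h' : (j : ℕ) ≤ i := h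
    rw [pas_apply, mul_assoc, show (i : ℕ) + 1 = ((i : ℕ) - j) + ((j : ℕ) + 1) by omega, pow_add]
    exact Dvd.dvd.mul_left (mul_dvd_mul (pow_dvd_pow_of_dvd ht _) (hv j)) _

lemma Upper_vecMul {m : ℕ} {r t : ℤ} (ht : r ∣ t) {a : Fin m → ℤ}
    (ha : ∀ j : Fin m, r ^ (m - (j : ℕ)) ∣ a j) (k : Fin m) :
    r ^ (m - (k : ℕ)) ∣ (a ᵥ* pas m t) k := by
  show _ ∣ ∑ i, a i * pas m t i k
  refine Finset.dvd_sum fun i _ => ?_
  rcases lt_or_ge i k with h | h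
  · rw [pas_of_lt m t h, mul_zero]; exact dvd_zero _
  · have h' : (k : ℕ) ≤ i := h
    have := i.2
    rw [pas_apply, show m - (k : ℕ) = (m - (i : ℕ)) + ((i : ℕ) - k) by omega, pow_add]
    exact mul_dvd_mul (ha i) (Dvd.dvd.mul_left (pow_dvd_pow_of_dvd ht _) _)

lemma Upper_dot {m : ℕ} {r : ℤ} {a v : Fin m → ℤ} (ha : ∀ j : Fin m, r ^ (m - (j : ℕ)) ∣ a j)
    (hv : ∀ j : Fin m, r ^ ((j : ℕ) + 1) ∣ v j) : r ^ (m + 1) ∣ a ⬝ᵥ v := by
  refine Finset.dvd_sum fun j _ => ?_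
  have := j.2
  rw [show m + 1 = (m - (j : ℕ)) + ((j : ℕ) + 1) by omega, pow_add]
  exact mul_dvd_mul (ha j) (hv j)

lemma Upper_single (t c : ℤ) :
    pas 7 t *ᵥ (Pi.single (6 : Fin 7) c : Fin 7 → ℤ) = Pi.single (6 : Fin 7) c := by
  funext i
  rw [Matrix.mulVec, dotProduct_single]
  by_cases h : i = 6
  · subst h; simp [pas_diag]
  · have : i < 6 := lt_of_le_of_ne (Fin.le_last i) h
    rw [Pi.single_eq_of_ne h]
    show pas 7 t i 6 * c = 0
    rw [pas_of_lt 7 t this, zero_mul]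

lemma Upper_y {r t u : ℤ} (ht : r ∣ t) {y : Fin 7 → ℤ}
    (hy : ∀ k : Fin 7, r ^ ((k : ℕ) + 1) ∣ (y + Pi.single (6 : Fin 7) (r ^ 3 * u) : Fin 7 → ℤ) k)
    (k : Fin 7) :
    r ^ ((k : ℕ) + 1) ∣ (pas 7 t *ᵥ y + Pi.single (6 : Fin 7) (r ^ 3 * u) : Fin 7 → ℤ) k := by
  have := Upper_mulVec ht hy k
  rwa [Matrix.mulVec_add, Upper_single] at this

lemma Upper_z {r a2 u : ℤ} {a y : Fin 7 → ℤ} (ha : ∀ k : Fin 7, r ^ (7 - (k : ℕ)) ∣ a k)
    (h2 : r ^ 7 ∣ a2 - r ^ 3 * a 6)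
    (hy : ∀ k : Fin 7, r ^ ((k : ℕ) + 1) ∣ (y + Pi.single (6 : Fin 7) (r ^ 3 * u) : Fin 7 → ℤ) k)
    (hu : r ∣ u) : r ^ 8 ∣ a ⬝ᵥ y + a2 * u := by
  have h1 := Upper_dot ha hy
  rw [dotProduct_add, dotProduct_single] at h1
  have h3 : r ^ 8 ∣ (a2 - r ^ 3 * a 6) * u := by
    rw [pow_succ]; exact mul_dvd_mul h2 hu
  have h4 : a ⬝ᵥ y + a2 * u = (a ⬝ᵥ y + a 6 * (r ^ 3 * u)) + (a2 - r ^ 3 * a 6) * u := by ring
  rw [h4]
  exact dvd_add h1 h3

lemma Upper_s {r : ℤ} {ε : E} (hε : (r ^ 2) • ε = e0) {a6 a2 x1 k d : ℤ} (h1 : r ^ 1 ∣ a6)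
    (h2 : r ^ 7 ∣ a2 - r ^ 3 * a6) (h3 : r ^ 4 ∣ x1 + r * k) (h4 : r ^ 5 ∣ d) :
    ∃ j : ℤ, (d + a6 * x1) • e0 + a2 • (k • ε) = (r ^ 5 * j) • e0 := by
  obtain ⟨b, rfl⟩ := h1
  obtain ⟨j, hj⟩ := h2
  obtain ⟨c, hc⟩ := h3
  obtain ⟨e, rfl⟩ := h4
  obtain rfl : a2 = r ^ 7 * j + r ^ 3 * (r ^ 1 * b) := by rw [← hj]; ring
  obtain rfl : x1 = r ^ 4 * c - r * k := by rw [← hc]; ring
  refine ⟨e + b * c + j * k, ?_⟩
  rw [← hε, smul_smul, smul_smul, smul_smul, ← add_smul]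
  congr 1
  ring

lemma exists_Lam (r : ℤ) (ε : E) (hε : (r ^ 2) • ε = e0) :
    ∃ Λ : Subgroup G, (Λ : Set G) = LamSet r ε := by
  refine ⟨⟨⟨⟨LamSet r ε, ?_⟩, ?_⟩, ?_⟩, rfl⟩
  · rintro g h ⟨g1, g2, g3, g4, g5, g6, g7, g8, ⟨k, g9, g10⟩, j, g11⟩
      ⟨h1, h2, h3, h4, h5, h6, h7, h8, ⟨k', h9, h10⟩, j', h11⟩
    have gn : r ∣ -g.t := g1.neg_right
    refine ⟨dvd_add g1 h1, fun i => dvd_add (g2 i) (Upper_vecMul gn h2 i), ?_,
      fun i => dvd_add (g4 i) (Upper_vecMul gn h4 i),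
      fun i => dvd_add (g5 i) (Upper_mulVec g1 h5 i), fun i => ?_, dvd_add g7 h7, ?_,
      ⟨k + k', ?_, ?_⟩, ?_⟩
    · rw [G.mul_a2, G.mul_a, Pi.add_apply, vecMul_pas_six]
      have e : g.a2 + h.a2 - r ^ 3 * (g.a 6 + h.a 6) =
        (g.a2 - r ^ 3 * g.a 6) + (h.a2 - r ^ 3 * h.a 6) := by ring
      rw [e]
      exact dvd_add g3 h3
    · rw [G.mul_y, G.mul_u, mul_add, Pi.single_add, add_add_add_comm]
      exact dvd_add (g6 i) (Upper_y g1 h6 i)
    · rw [G.mul_z, add_assoc]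
      exact dvd_add (dvd_add g8 h8) (Upper_z g2 g3 (Upper_y g1 h6) h7)
    · rw [G.mul_x, g9, h9, add_smul]
    · rw [G.mul_x1, mul_add, add_add_add_comm]
      exact dvd_add g10 h10
    · obtain ⟨c, hc⟩ := Upper_s hε (g2 6) g3 h10 (Upper_dot g4 (Upper_mulVec g1 h5))
      refine ⟨j + j' + c, ?_⟩
      rw [G.mul_s, add_assoc, h9, hc, g11, h11, mul_add, mul_add, add_smul, add_smul]
  · exact ⟨by simp, by simp, by simp, by simp, by simp, by simp, by simp, by simp,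
      ⟨0, by simp, by simp⟩, 0, by simp⟩
  · rintro g ⟨g1, g2, g3, g4, g5, g6, g7, g8, ⟨k, g9, g10⟩, j, g11⟩
    have gn : r ∣ -g.t := g1.neg_right
    refine ⟨gn, fun i => (Upper_vecMul g1 g2 i).neg_right, ?_,
      fun i => (Upper_vecMul g1 g4 i).neg_right,
      fun i => (Upper_mulVec gn g5 i).neg_right, fun i => ?_, g7.neg_right, ?_,
      ⟨-k, ?_, ?_⟩, ?_⟩
    · rw [G.inv_a2, G.inv_a, Pi.neg_apply, vecMul_pas_six]
      have e : -g.a2 - r ^ 3 * -g.a 6 = -(g.a2 - r ^ 3 * g.a 6) := by ring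
      rw [e]
      exact g3.neg_right
    · rw [G.inv_y, G.inv_u, mul_neg, Pi.single_neg, ← neg_add]
      exact (Upper_y gn g6 i).neg_right
    · rw [G.inv_z, add_assoc]
      exact dvd_add g8.neg_right (Upper_z g2 g3 g6 g7)
    · rw [G.inv_x, g9, neg_smul]
    · rw [G.inv_x1, mul_neg, ← neg_add]
      exact g10.neg_right
    · obtain ⟨c, hc⟩ := Upper_s hε (g2 6) g3 g10 (Upper_dot g4 g5)
      refine ⟨-j + c, ?_⟩
      rw [G.inv_s, add_assoc, g9, hc, g11, mul_add, add_smul, mul_neg, neg_smul]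

lemma Upper_zero {r R d : ℕ} (hR : R < r) (hd : d ≠ 0) {v : ℤ} (h1 : (r : ℤ) ^ d ∣ v)
    (h2 : |v| ≤ (R : ℤ) ^ d) : v = 0 :=
  Int.eq_zero_of_abs_lt_dvd h1 (h2.trans_lt
    (pow_lt_pow_left₀ (by exact_mod_cast hR) (Nat.cast_nonneg _) hd))

lemma Upper_fst (m : ℤ) : (m • e0).1 = m := by
  rw [Prod.smul_fst, e0_fst, zsmul_eq_mul, mul_one]

lemma LamSet_trivial (r : ℕ) (ε : E) (hε : ((r : ℤ) ^ 2) • ε = e0) (R : ℕ) (hR : R < r)
    (g : G) (hg : g ∈ LamSet r ε) (hb : g ∈ Box R) : g = 1 := by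
  obtain ⟨g1, g2, g3, g4, g5, g6, g7, g8, ⟨k, g9, g10⟩, j, g11⟩ := hg
  obtain ⟨hb, b10, b11⟩ := hb
  obtain ⟨b2, b6, b4, b5, b1, b3, b7, b9, b8⟩ := forall_I.1 hb
  have hr0 : (r : ℤ) ≠ 0 := by exact_mod_cast (Nat.zero_lt_of_lt hR).ne'
  have e1 : g.t = 0 := Upper_zero hR one_ne_zero (by rwa [pow_one]) b1
  have e2 : g.a = 0 := funext fun i =>
    Upper_zero hR (by have := i.2; omega) (g2 i) (b2 i)
  have e3 : g.a2 = 0 := by
    rw [e2, Pi.zero_apply, mul_zero, sub_zero] at g3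
    exact Upper_zero hR one_ne_zero ((pow_dvd_pow _ (by norm_num)).trans g3) b3
  have e4 : g.p = 0 := funext fun i =>
    Upper_zero hR (by have := i.2; omega) (g4 i) (b4 i)
  have e5 : g.q = 0 := funext fun i => Upper_zero hR (Nat.succ_ne_zero _) (g5 i) (b5 i)
  have e7 : g.u = 0 := Upper_zero hR one_ne_zero (by rwa [pow_one]) b7
  have e6 : g.y = 0 := funext fun i => by
    have := g6 i
    rw [e7, mul_zero, Pi.single_zero, add_zero] at this
    exact Upper_zero hR (Nat.succ_ne_zero _) this (b6 i)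
  have e8 : g.z = 0 := Upper_zero hR (by norm_num) g8 b8
  have e9 : g.x1 = 0 := by
    refine Upper_zero hR one_ne_zero ?_ b9
    rw [pow_one]
    exact (dvd_add_left (dvd_mul_right _ k)).1 ((dvd_pow_self _ (by norm_num)).trans g10)
  have e10 : g.x = 0 := by
    rw [e9, zero_add, pow_succ'] at g10
    obtain ⟨c, rfl⟩ := (mul_dvd_mul_iff_left hr0).1 g10
    have h1 : g.x = ((r : ℤ) * c) • e0 := by
      rw [g9, ← hε, smul_smul]
      congr 1
      ring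
    rw [h1, Upper_fst] at b10
    have h2 : (r : ℤ) * c = 0 := Upper_zero hR one_ne_zero
      (by rw [pow_one]; exact dvd_mul_right _ _) (by rw [pow_one]; exact_mod_cast b10)
    rw [h1, h2, zero_smul]
  have e11 : g.s = 0 := by
    rw [g11, Upper_fst] at b11
    have h2 : (r : ℤ) ^ 5 * j = 0 := Upper_zero hR (by norm_num) (dvd_mul_right _ _)
      (by exact_mod_cast b11)
    rw [g11, h2, zero_smul]
  exact G.ext e1 e2 e6 e4 e5 e3 e7 e9 e8 e10 e11

lemma Upper_red {r : ℕ} (hr : 0 < r) (d : ℕ) (v : ℤ) :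
    ∃ c : ℤ, (r : ℤ) ^ d ∣ c ∧ 0 ≤ c + v ∧ c + v < (r ^ d : ℕ) := by
  have hm : (0 : ℤ) < (r : ℤ) ^ d := by positivity
  refine ⟨-((r : ℤ) ^ d * (v / (r : ℤ) ^ d)), (dvd_mul_right _ _).neg_right, ?_⟩
  have h1 := Int.emod_nonneg v hm.ne'
  have h2 := Int.emod_lt_of_pos v hm
  rw [Int.emod_def] at h1 h2
  push_cast
  constructor <;> linarith only [h1, h2]

lemma Upper_redR {L : ℝ} (hL : 0 < L) (v : ℝ) : ∃ k : ℤ, 0 ≤ k * L + v ∧ k * L + v < L := by
  refine ⟨-⌊v / L⌋, ?_⟩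
  have h1 := Int.floor_le (v / L)
  have h2 := Int.lt_floor_add_one (v / L)
  rw [le_div_iff₀ hL] at h1
  rw [div_lt_iff₀ hL] at h2
  push_cast
  constructor <;> linarith only [h1, h2]

lemma Lam_cover (r : ℕ) (hr : 0 < r) (ε : E) (hε : ((r : ℤ) ^ 2) • ε = e0) (Λ : Subgroup G)
    (hΛ : (Λ : Set G) = LamSet r ε) (g : G) :
    ∃ γ ∈ Λ, γ * g ∈ pbox (fun i => r ^ ex i) (1 / (r : ℝ) ^ 2) ((r : ℝ) ^ 5) := by
  have hrr : (0 : ℝ) < r := by exact_mod_cast hr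
  have hε1 : ε.1 = 1 / (r : ℝ) ^ 2 := by
    have := congrArg Prod.fst hε
    rw [Prod.smul_fst, e0_fst, zsmul_eq_mul] at this
    push_cast at this
    rw [eq_div_iff (by positivity), mul_comm, this]
  obtain ⟨t, t1, t2⟩ := Upper_red hr 1 g.t
  choose a a1 a2 using fun k : Fin 7 => Upper_red hr (7 - (k : ℕ)) ((g.a ᵥ* pas 7 (-t)) k)
  choose p p1 p2 using fun k : Fin 4 => Upper_red hr (4 - (k : ℕ)) ((g.p ᵥ* pas 4 (-t)) k)
  choose q q1 q2 using fun k : Fin 4 => Upper_red hr ((k : ℕ) + 1) ((pas 4 t *ᵥ g.q) k)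
  obtain ⟨u, u1, u2⟩ := Upper_red hr 1 g.u
  obtain ⟨b, b1, b2⟩ := Upper_red hr 7 ((r : ℤ) ^ 3 * a 6 + g.a2)
  choose w w1 w2 using fun k : Fin 7 => Upper_red hr ((k : ℕ) + 1)
    ((-Pi.single (6 : Fin 7) ((r : ℤ) ^ 3 * u) + pas 7 t *ᵥ g.y : Fin 7 → ℤ) k)
  obtain ⟨k, k1⟩ := Upper_redR (L := 1 / (r : ℝ) ^ 2) (by positivity) g.x.1
  obtain ⟨x, x1, x2⟩ := Upper_red hr 4 (-((r : ℤ) * k) + g.x1)
  obtain ⟨z, z1, z2⟩ := Upper_red hr 8
    (g.z + a ⬝ᵥ (pas 7 t *ᵥ g.y) + (b + (r : ℤ) ^ 3 * a 6) * g.u)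
  obtain ⟨j, j1⟩ := Upper_redR (L := (r : ℝ) ^ 5) (by positivity)
    (g.s + (p ⬝ᵥ (pas 4 t *ᵥ g.q) + a 6 * g.x1) • e0 + (b + (r : ℤ) ^ 3 * a 6) • g.x).1
  refine ⟨⟨t, a, w + -Pi.single (6 : Fin 7) ((r : ℤ) ^ 3 * u), p, q, b + (r : ℤ) ^ 3 * a 6, u,
    x + -((r : ℤ) * k), z, k • ε, ((r : ℤ) ^ 5 * j) • e0⟩, ?_, ?_, ?_, ?_⟩
  · rw [← SetLike.mem_coe, hΛ]
    refine ⟨by rwa [pow_one] at t1, a1, ?_, p1, q1, fun i => ?_, by rwa [pow_one] at u1, z1,
      ⟨k, rfl, ?_⟩, j, rfl⟩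
    · simpa using b1
    · simpa using w1 i
    · simpa using x1
  · refine forall_I.2 ⟨a2, fun i => ?_, p2, q2, t2, ?_, u2, ?_, ?_⟩
    · rw [co_iy, G.mul_y, add_assoc]; exact w2 i
    · rw [co_ia2, G.mul_a2, add_assoc]; exact b2
    · rw [co_ix1, G.mul_x1, add_assoc]; exact x2
    · rw [co_iz, G.mul_z, add_assoc z, add_assoc z]; exact z2
  · rw [G.mul_x, Prod.fst_add, Prod.smul_fst, zsmul_eq_mul, hε1]
    exact k1
  · rw [G.mul_s, add_assoc (_ • e0), add_assoc (_ • e0), Prod.fst_add, Upper_fst]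
    push_cast
    rw [mul_comm _ (j : ℝ)]
    exact j1

theorem upper (n : ℕ) : ∃ Λ : Subgroup G, (∀ g ∈ Λ, ∀ R : ℕ, R < P n → g ∈ Box R → g = 1) ∧
    ∀ g : G, ∃ γ ∈ Λ,
      γ * g ∈ pbox (fun i => P n ^ ex i) (1 / (P n : ℝ) ^ 2) ((P n : ℝ) ^ 5) := by
  obtain ⟨ε, hε⟩ := exists_eps n
  obtain ⟨Λ, hΛ⟩ := exists_Lam (P n) ε hε
  refine ⟨Λ, fun g hg R hR hb => ?_, Lam_cover (P n) (P_prime n).pos ε hε Λ hΛ⟩
  exact LamSet_trivial (P n) ε hε R hR g (hΛ ▸ hg) hb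

end Pool.Agent.Work.MP_913e71_al
end

-- merged part: Pool.Agent.Work.MP_913e71_al.LowA
section
/-! Abelian lemmas for the lower bound. -/

namespace Pool.Agent.Work.MP_913e71_al

lemma E_torsionFree {m : ℤ} (hm : m ≠ 0) {x : E} (h : m • x = 0) : x = 0 := by
  refine Prod.ext ?_ ?_
  · have h1 : m • x.1 = 0 := congrArg Prod.fst h
    exact (smul_eq_zero.1 h1).resolve_left hm
  · funext l
    have h1 : m • x.2 l = 0 := congrFun (congrArg Prod.snd h) l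
    exact (smul_eq_zero.1 h1).resolve_left hm

lemma LowA_prime (n : ℕ) {m J : ℤ} {x : E} (h : m • x = J • e0)
    (hP : ∀ i, n < i → ¬ (P i : ℤ) ∣ m) (l : Nat.Primes) {k : ℕ} (hk0 : 0 < k)
    (hk : ((l : ℕ) : ℤ) ^ k ∣ m) : ((l : ℕ) : ℤ) ^ k ∣ ((P n).factorial : ℤ) ^ 2 * J := by
  have hpm : ((l : ℕ) : ℤ) ∣ m := (dvd_pow_self _ hk0.ne').trans hk
  have h1 : m • x.2 l = J • nh l := congrFun (congrArg Prod.snd h) l
  rw [zsmul_eq_mul, zsmul_eq_mul] at h1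
  have h2 : nh l ∣ ((((P n).factorial : ℤ) ^ 2 : ℤ) : ℤ_[l]) := by
    unfold nh
    split_ifs with hl
    · obtain ⟨i, hi⟩ := hl
      have hin : i ≤ n := by
        by_contra hc
        exact hP i (not_le.1 hc) (hi ▸ hpm)
      have h3 : (l : ℕ) ∣ (P n).factorial :=
        Nat.dvd_factorial l.2.pos (hi ▸ P_strictMono.monotone hin)
      have h4 : ((l : ℕ) : ℤ_[l]) ∣ ((P n).factorial : ℤ_[l]) := Nat.cast_dvd_cast h3
      push_cast
      exact pow_dvd_pow_of_dvd h4 2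
    · exact one_dvd _
  have h3 : ((l : ℕ) : ℤ_[l]) ^ k ∣ (m : ℤ_[l]) := (PadicInt.pow_p_dvd_int_iff k m).2 hk
  have h4 : ((l : ℕ) : ℤ_[l]) ^ k ∣ ((((P n).factorial : ℤ) ^ 2 * J : ℤ) : ℤ_[l]) := by
    rw [Int.cast_mul, mul_comm]
    refine h3.trans (Dvd.dvd.trans ?_ (mul_dvd_mul_left _ h2))
    exact ⟨_, h1.symm⟩
  exact (PadicInt.pow_p_dvd_int_iff k _).1 h4

/-- For every prime `ℓ`, in `ℤ_[ℓ]`: either `nh ℓ ∣ (P n)! ^ 2` (when `ℓ` is not some `P i`, or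
`ℓ = P i` with `i ≤ n`, `P_strictMono`), or `m` is a unit; so `m ∣ (P n)! ^ 2 * J` in each `ℤ_[ℓ]`.
Conclude with `Nat.dvd_iff_prime_pow_dvd_dvd` (or the `Int` form) and
`PadicInt.pow_p_dvd_int_iff`. -/
lemma padic_dvd (n : ℕ) {m J : ℤ} (hm : m ≠ 0) {x : E} (h : m • x = J • e0)
    (hP : ∀ i, n < i → ¬ (P i : ℤ) ∣ m) : m ∣ ((P n).factorial : ℤ) ^ 2 * J := by
  have _ := hm
  rw [← Int.natAbs_dvd_natAbs, Nat.dvd_iff_prime_pow_dvd_dvd]
  intro p k hp hk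
  rcases Nat.eq_zero_or_pos k with rfl | hk0
  · simp
  have hk' : ((p : ℤ) ^ k) ∣ m := by
    rw [← Int.natAbs_dvd_natAbs]
    simpa [Int.natAbs_pow] using hk
  have h5 : ((p : ℤ) ^ k) ∣ ((P n).factorial : ℤ) ^ 2 * J := LowA_prime n h hP ⟨p, hp⟩ hk0 hk'
  rw [← Int.natAbs_dvd_natAbs] at h5
  simpa only [Int.natAbs_pow, Int.natAbs_natCast] using h5

lemma LowA_reduce (L : AddSubgroup (ℤ × ℤ × E)) (n1 n2 : ℕ) (hn1 : 0 < n1) (hn2 : 0 < n2)
    (z1 : ℤ) (s1 s2 s3 : E) (h1 : ((n1 : ℤ), z1, s1) ∈ L)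
    (h2 : ((0 : ℤ), (n2 : ℤ), s2) ∈ L) (h3 : ((0 : ℤ), (0 : ℤ), s3) ∈ L) (hf : 0 < s3.1)
    (a b : ℤ) : ∃ l ∈ L, (0 ≤ a - l.1 ∧ a - l.1 < n1) ∧ (0 ≤ b - l.2.1 ∧ b - l.2.1 < n2) ∧
      (0 ≤ l.2.2.1 ∧ l.2.2.1 < s3.1) := by
  have p1 : (0 : ℤ) < n1 := by exact_mod_cast hn1
  have p2 : (0 : ℤ) < n2 := by exact_mod_cast hn2
  set i : ℤ := a / n1 with hi
  set j : ℤ := (b - i * z1) / n2 with hj
  set r : ℝ := i * s1.1 + j * s2.1 with hr
  set k : ℤ := ⌊r / s3.1⌋ with hk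
  refine ⟨i • ((n1 : ℤ), z1, s1) + j • ((0 : ℤ), (n2 : ℤ), s2) - k • ((0 : ℤ), (0 : ℤ), s3),
    L.sub_mem (L.add_mem (L.zsmul_mem h1 i) (L.zsmul_mem h2 j)) (L.zsmul_mem h3 k), ?_, ?_, ?_⟩
  · have e : a - (i • ((n1 : ℤ), z1, s1) + j • ((0 : ℤ), (n2 : ℤ), s2) -
        k • ((0 : ℤ), (0 : ℤ), s3)).1 = a % n1 := by
      simp only [Prod.fst_sub, Prod.fst_add, Prod.smul_fst, smul_eq_mul, Int.emod_def, hi]
      ring
    rw [e]
    exact ⟨Int.emod_nonneg _ p1.ne', Int.emod_lt_of_pos _ p1⟩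
  · have e : b - (i • ((n1 : ℤ), z1, s1) + j • ((0 : ℤ), (n2 : ℤ), s2) -
        k • ((0 : ℤ), (0 : ℤ), s3)).2.1 = (b - i * z1) % n2 := by
      simp only [Prod.fst_sub, Prod.fst_add, Prod.smul_fst, Prod.snd_sub, Prod.snd_add,
        Prod.smul_snd, smul_eq_mul, Int.emod_def, hj]
      ring
    rw [e]
    exact ⟨Int.emod_nonneg _ p2.ne', Int.emod_lt_of_pos _ p2⟩
  · have e : (i • ((n1 : ℤ), z1, s1) + j • ((0 : ℤ), (n2 : ℤ), s2) -
        k • ((0 : ℤ), (0 : ℤ), s3)).2.2.1 = r - k * s3.1 := by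
      simp only [Prod.fst_sub, Prod.fst_add, Prod.smul_fst, Prod.snd_sub, Prod.snd_add,
        Prod.smul_snd]
      simp only [zsmul_eq_mul, hr]
    rw [e]
    have f1 : (k : ℝ) ≤ r / s3.1 := Int.floor_le _
    have f2 : r / s3.1 < k + 1 := Int.lt_floor_add_one _
    rw [le_div_iff₀ hf] at f1
    rw [div_lt_iff₀ hf] at f2
    constructor <;> linarith only [f1, f2]

/-- Pigeonhole.  For `(a, b) ∈ [0, A] × [0, B]` subtract from `(a, b, 0)` an element of `L` to land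
in `[0, n1) × [0, n2) × {s | s.1 ∈ [0, f)}`, `f = s3.1`; the class (first, second, `⌊third / ρ⌋`)
determines `(a, b)`, and there are at most `n1 n2 ⌈f / ρ⌉ ≤ n1 n2 (2 f / ρ)` classes. -/
lemma pigeon (L : AddSubgroup (ℤ × ℤ × E)) (n1 n2 A B : ℕ) (ρ : ℝ) (hn1 : 0 < n1) (hn2 : 0 < n2)
    (hρ : 0 < ρ) (z1 : ℤ) (s1 s2 s3 : E) (h1 : ((n1 : ℤ), z1, s1) ∈ L)
    (h2 : ((0 : ℤ), (n2 : ℤ), s2) ∈ L) (h3 : ((0 : ℤ), (0 : ℤ), s3) ∈ L) (hf : ρ ≤ s3.1)
    (hsmall : ∀ v ∈ L, |v.1| ≤ A → |v.2.1| ≤ B → |v.2.2.1| ≤ ρ → v = 0) :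
    ((A : ℝ) + 1) * ((B : ℝ) + 1) * ρ ≤ 2 * (n1 * n2 * s3.1) := by
  have hf0 : 0 < s3.1 := hρ.trans_le hf
  choose l hl ha hb hc using LowA_reduce L n1 n2 hn1 hn2 z1 s1 s2 s3 h1 h2 h3 hf0
  have hce : (0 : ℤ) ≤ ⌈s3.1 / ρ⌉ := Int.ceil_nonneg (by positivity)
  have hcard : (Finset.Icc (0 : ℤ) A ×ˢ Finset.Icc (0 : ℤ) B).card ≤
      (Finset.Ico (0 : ℤ) n1 ×ˢ Finset.Ico (0 : ℤ) n2 ×ˢ Finset.Ico (0 : ℤ) ⌈s3.1 / ρ⌉).card := by
    refine Finset.card_le_card_of_injOn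
      (fun w => (w.1 - (l w.1 w.2).1, w.2 - (l w.1 w.2).2.1, ⌊(l w.1 w.2).2.2.1 / ρ⌋)) ?_ ?_
    · intro w _
      simp only [Finset.coe_product, Set.mem_prod, Finset.mem_coe, Finset.mem_Ico]
      refine ⟨ha _ _, hb _ _, Int.floor_nonneg.2 (div_nonneg (hc _ _).1 hρ.le), ?_⟩
      rw [Int.lt_ceil]
      exact (Int.floor_le _).trans_lt (div_lt_div_of_pos_right (hc _ _).2 hρ)
    · intro w hw w' hw' he
      simp only [Finset.coe_product, Set.mem_prod, Finset.mem_coe, Finset.mem_Icc] at hw hw'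
      simp only [Prod.mk.injEq] at he
      obtain ⟨e1, e2, e3⟩ := he
      have e4 := Int.abs_sub_lt_one_of_floor_eq_floor e3
      rw [← sub_div, abs_div, abs_of_pos hρ, div_lt_one hρ] at e4
      have e5 : (l w.1 w.2 - l w'.1 w'.2).1 = w.1 - w'.1 := by
        rw [Prod.fst_sub]; linarith only [e1]
      have e6 : (l w.1 w.2 - l w'.1 w'.2).2.1 = w.2 - w'.2 := by
        rw [Prod.snd_sub, Prod.fst_sub]; linarith only [e2]
      have e7 := hsmall _ (L.sub_mem (hl w.1 w.2) (hl w'.1 w'.2))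
        (by rw [e5, abs_le]; constructor <;> linarith only [hw, hw', hw.1.1, hw.1.2, hw'.1.1, hw'.1.2])
        (by rw [e6, abs_le]; constructor <;> linarith only [hw, hw', hw.2.1, hw.2.2, hw'.2.1, hw'.2.2])
        e4.le
      rw [e7] at e5 e6
      exact Prod.ext (sub_eq_zero.1 e5.symm) (sub_eq_zero.1 e6.symm)
  simp only [Finset.card_product, Int.card_Icc, Int.card_Ico, sub_zero, Int.toNat_natCast,
    Int.toNat_natCast_add_one] at hcard
  have h4 : ((A : ℝ) + 1) * ((B : ℝ) + 1) ≤ n1 * (n2 * ((⌈s3.1 / ρ⌉.toNat : ℕ) : ℝ)) := by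
    exact_mod_cast hcard
  have h5 : ((⌈s3.1 / ρ⌉.toNat : ℕ) : ℝ) = ((⌈s3.1 / ρ⌉ : ℤ) : ℝ) := by
    rw [← Int.cast_natCast, Int.toNat_of_nonneg hce]
  have h6 : ((⌈s3.1 / ρ⌉ : ℤ) : ℝ) * ρ ≤ 2 * s3.1 := by
    have h7 := (Int.ceil_lt_add_one (s3.1 / ρ)).le
    have h8 := mul_le_mul_of_nonneg_right h7 hρ.le
    rw [add_mul, div_mul_cancel₀ _ hρ.ne'] at h8
    linarith only [hf, h8]
  rw [h5] at h4
  calc ((A : ℝ) + 1) * ((B : ℝ) + 1) * ρ ≤ n1 * (n2 * ((⌈s3.1 / ρ⌉ : ℤ) : ℝ)) * ρ :=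
        mul_le_mul_of_nonneg_right h4 hρ.le
    _ = n1 * n2 * (((⌈s3.1 / ρ⌉ : ℤ) : ℝ) * ρ) := by ring
    _ ≤ n1 * n2 * (2 * s3.1) := mul_le_mul_of_nonneg_left h6 (by positivity)
    _ = 2 * (n1 * n2 * s3.1) := by ring

lemma LowA_cyc (H : AddSubgroup ℤ) {N : ℤ} (hN : N ≠ 0) (h : N ∈ H) :
    ∃ ζ : ℕ, 0 < ζ ∧ (ζ : ℤ) ∈ H ∧ ∀ z ∈ H, (ζ : ℤ) ∣ z := by
  obtain ⟨a, rfl⟩ := Int.subgroup_cyclic H
  have hd : ∀ z ∈ AddSubgroup.closure {a}, a ∣ z := by
    intro z hz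
    obtain ⟨n, rfl⟩ := AddSubgroup.mem_closure_singleton.1 hz
    exact Dvd.intro_left n rfl
  have ha : a ≠ 0 := by
    rintro rfl
    exact hN (zero_dvd_iff.1 (hd N h))
  refine ⟨a.natAbs, Int.natAbs_pos.2 ha, ?_, fun z hz => Int.natAbs_dvd.2 (hd z hz)⟩
  rw [Int.natCast_natAbs]
  exact abs_mem_iff.2 (AddSubgroup.mem_closure_singleton_self a)

lemma LowA_axis (Y : AddSubgroup E) {ρ : ℝ} (hρ : 0 < ρ)
    (hsmall : ∀ s ∈ Y, |s.1| ≤ ρ → s = 0) {t : E} (ht : t ∈ Y) (ht0 : t ≠ 0) :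
    ∃ s0 ∈ Y, ρ ≤ s0.1 ∧ ∀ s ∈ Y, ∃ i : ℤ, s = i • s0 := by
  have hdis : Disjoint ((Y.map (AddMonoidHom.fst ℝ K) : AddSubgroup ℝ) : Set ℝ) (Set.Ioo 0 ρ) := by
    rw [Set.disjoint_left]
    rintro r ⟨s, hs, rfl⟩ hr
    have h1 : s.1 ∈ Set.Ioo 0 ρ := hr
    have h2 := hsmall s hs (by rw [abs_of_pos h1.1]; exact h1.2.le)
    rw [h2] at h1
    exact lt_irrefl _ h1.1
  obtain ⟨b, hb⟩ := AddSubgroup.cyclic_of_isolated_zero hρ hdis
  have hbm : b ∈ Y.map (AddMonoidHom.fst ℝ K) := by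
    rw [hb]; exact AddSubgroup.mem_closure_singleton_self b
  obtain ⟨s0, hs0, hs0b⟩ := hbm
  have hs0b' : s0.1 = b := hs0b
  have hgen : ∀ s ∈ Y, ∃ i : ℤ, s = i • s0 := by
    intro s hs
    have h1 : s.1 ∈ Y.map (AddMonoidHom.fst ℝ K) := ⟨s, hs, rfl⟩
    rw [hb] at h1
    obtain ⟨i, hi⟩ := AddSubgroup.mem_closure_singleton.1 h1
    refine ⟨i, sub_eq_zero.1 (hsmall _ (Y.sub_mem hs (Y.zsmul_mem hs0 i)) ?_)⟩
    rw [Prod.fst_sub, Prod.smul_fst, hs0b', hi, sub_self, abs_zero]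
    exact hρ.le
  have hne : s0 ≠ 0 := by
    intro h
    obtain ⟨i, hi⟩ := hgen t ht
    rw [h, smul_zero] at hi
    exact ht0 hi
  have hbig : ρ < |s0.1| := by
    by_contra hc
    exact hne (hsmall s0 hs0 (not_lt.1 hc))
  rcases le_total 0 s0.1 with h | h
  · exact ⟨s0, hs0, by rw [abs_of_nonneg h] at hbig; exact hbig.le, hgen⟩
  · refine ⟨-s0, Y.neg_mem hs0, by rw [abs_of_nonpos h] at hbig; exact hbig.le, fun s hs => ?_⟩
    obtain ⟨i, hi⟩ := hgen s hs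
    exact ⟨-i, by rw [neg_smul_neg]; exact hi⟩

/-- Structure of a discrete subgroup `Z` of `ℤ × E`.  `ζ` generates the projection to `ℤ`
(`Int.subgroup_cyclic`), `j ζ` generates the pure part on the `ℤ` axis, and `s0` generates the pure
part on the `E` axis (its projection to `ℝ` is injective by `hsmall`, and cyclic by
`AddSubgroup.cyclic_of_isolated_zero`).  If `w.1 = i ζ` then `j • w - i • (j ζ, 0)` is pure.  The
bound `R ^ 13 ≤ 2 ζ s0.1` is `pigeon` for `{v | v.2 ∈ Z}` with `n1 = 1`, `A = 0`. -/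
lemma central_structure (Z : AddSubgroup (ℤ × E)) (R : ℕ) (hR : 1 ≤ R)
    (hsmall : ∀ w ∈ Z, |w.1| ≤ (R : ℤ) ^ 8 → |w.2.1| ≤ (R : ℝ) ^ 5 → w = 0)
    (N1 N0 : ℤ) (hN1 : N1 ≠ 0) (hN0 : N0 ≠ 0) (h1 : (N1, (0 : E)) ∈ Z)
    (h0 : ((0 : ℤ), N0 • e0) ∈ Z) :
    ∃ (ζ j : ℕ) (s0 s1 : E), 0 < ζ ∧ 0 < j ∧ ((ζ : ℤ), s1) ∈ Z ∧ ((0 : ℤ), s0) ∈ Z ∧
      (∀ w ∈ Z, (ζ : ℤ) ∣ w.1) ∧ (∀ z : ℤ, (z, (0 : E)) ∈ Z → ((j * ζ : ℕ) : ℤ) ∣ z) ∧
      (∀ s : E, ((0 : ℤ), s) ∈ Z → ∃ i : ℤ, s = i • s0) ∧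
      (∀ w ∈ Z, ∃ i : ℤ, (j : ℤ) • w.2 = i • s0) ∧
      R ^ 8 ≤ j * ζ ∧ (R : ℝ) ^ 5 ≤ s0.1 ∧ (R : ℝ) ^ 13 ≤ 2 * (ζ * s0.1) := by
  have hR0 : (0 : ℝ) < R := by exact_mod_cast hR
  obtain ⟨ζ, hζ, ⟨w1, hw1, hw1e⟩, hζd⟩ :=
    LowA_cyc (Z.map (AddMonoidHom.fst ℤ E)) hN1 ⟨_, h1, rfl⟩
  have hw1e' : w1.1 = ζ := hw1e
  have hζd' : ∀ w ∈ Z, (ζ : ℤ) ∣ w.1 := fun w hw => hζd _ ⟨w, hw, rfl⟩
  obtain ⟨η, hη, hηm, hηd⟩ := LowA_cyc (Z.comap (AddMonoidHom.inl ℤ E)) hN1 h1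
  have hηm' : ((η : ℤ), (0 : E)) ∈ Z := hηm
  obtain ⟨j, hj⟩ : ζ ∣ η := Int.natCast_dvd_natCast.1 (hζd' _ hηm')
  rw [mul_comm] at hj
  subst hj
  have hj0 : 0 < j := Nat.pos_of_mul_pos_right hη
  have ht0 : N0 • e0 ≠ 0 := by
    intro h
    have h2 := congrArg Prod.fst (E_torsionFree hN0 h)
    simp at h2
  obtain ⟨s0, hs0, hs0b, hgen⟩ := LowA_axis (Z.comap (AddMonoidHom.inr ℤ E)) (ρ := (R : ℝ) ^ 5)
    (by positivity) (fun s hs h => congrArg Prod.snd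
      (hsmall ((0 : ℤ), s) hs (by simp) h)) h0 ht0
  have hs0' : ((0 : ℤ), s0) ∈ Z := hs0
  have hw1' : ((ζ : ℤ), w1.2) ∈ Z := by rw [← hw1e']; exact hw1
  refine ⟨ζ, j, s0, w1.2, hζ, hj0, hw1', hs0', hζd', fun z hz => hηd z hz,
    fun s hs => hgen s hs, fun w hw => ?_, ?_, hs0b, ?_⟩
  · obtain ⟨i, hi⟩ := hζd' w hw
    refine hgen _ ?_
    have h2 := Z.sub_mem (Z.zsmul_mem hw j) (Z.zsmul_mem hηm' i)
    have e : (j : ℤ) • w - i • (((j * ζ : ℕ) : ℤ), (0 : E)) = ((0 : ℤ), (j : ℤ) • w.2) := by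
      refine Prod.ext ?_ ?_
      · simp only [Prod.fst_sub, Prod.smul_fst, smul_eq_mul, hi]
        push_cast
        ring
      · simp only [Prod.snd_sub, Prod.smul_snd, smul_zero, sub_zero]
    rw [e] at h2
    exact h2
  · by_contra hc
    have h2 : ((j * ζ : ℕ) : ℤ) ≤ (R : ℤ) ^ 8 := by exact_mod_cast (not_le.1 hc).le
    have h3 := congrArg Prod.fst (hsmall _ hηm'
      (by rw [abs_of_nonneg (Int.natCast_nonneg _)]; exact h2) (by simp))
    have h4 : ((j * ζ : ℕ) : ℤ) = 0 := h3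
    exact hη.ne' (by exact_mod_cast h4)
  · have h2 := pigeon (Z.comap (AddMonoidHom.snd ℤ (ℤ × E))) 1 ζ 0 (R ^ 8) ((R : ℝ) ^ 5) one_pos hζ
      (by positivity) 0 0 w1.2 s0 Z.zero_mem hw1' hs0' hs0b (fun v hv a1 a2 a3 =>
        Prod.ext (by simpa using a1) (hsmall v.2 hv (by exact_mod_cast a2) a3))
    push_cast at h2
    have h3 : (0 : ℝ) ≤ (R : ℝ) ^ 5 := by positivity
    have h4 : (R : ℝ) ^ 13 = (R : ℝ) ^ 8 * (R : ℝ) ^ 5 := by ring
    linarith only [h2, h3]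

end Pool.Agent.Work.MP_913e71_al
end

-- merged part: Pool.Agent.Work.MP_913e71_al.LowB
section
/-! Packing, commutators and admissible bounds. -/

namespace Pool.Agent.Work.MP_913e71_al

open Matrix

/-- The element with coordinates `w`, `z`, `s` only. -/
noncomputable def wc (w z : ℤ) (s : E) : G := ⟨0, 0, Pi.single 6 w, 0, 0, 0, 0, 0, z, 0, s⟩

lemma wc_zero : wc 0 0 0 = 1 := by
  ext1 <;> simp [wc]

lemma wc_mul (w z w' z' : ℤ) (s s' : E) :
    wc w z s * wc w' z' s' = wc (w + w') (z + z') (s + s') := by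
  ext1 <;> simp [wc, Pi.single_add, -Matrix.mulVec_single]

lemma wc_inv (w z : ℤ) (s : E) : (wc w z s)⁻¹ = wc (-w) (-z) (-s) := by
  rw [inv_eq_iff_mul_eq_one, wc_mul]; simp [wc_zero]

lemma wc_eq_one {w z : ℤ} {s : E} (h : wc w z s = 1) : w = 0 ∧ z = 0 ∧ s = 0 := by
  refine ⟨?_, congrArg G.z h, congrArg G.s h⟩
  have := congrFun (congrArg G.y h) 6
  simpa [wc] using this

/-- The subgroup of `ℤ × ℤ × E` cut out by `Λ`. -/
noncomputable def L3 (Λ : Subgroup G) : AddSubgroup (ℤ × ℤ × E) where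
  carrier := {v | wc v.1 v.2.1 v.2.2 ∈ Λ}
  zero_mem' := by
    change wc 0 0 0 ∈ Λ
    rw [wc_zero]; exact Λ.one_mem
  add_mem' := fun {a b} ha hb => by
    change wc (a.1 + b.1) (a.2.1 + b.2.1) (a.2.2 + b.2.2) ∈ Λ
    rw [← wc_mul]; exact Λ.mul_mem ha hb
  neg_mem' := fun {a} ha => by
    change wc (-a.1) (-a.2.1) (-a.2.2) ∈ Λ
    rw [← wc_inv]; exact Λ.inv_mem ha

lemma mem_L3 {Λ : Subgroup G} {v : ℤ × ℤ × E} : v ∈ L3 Λ ↔ wc v.1 v.2.1 v.2.2 ∈ Λ := Iff.rfl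

/-- The subgroup of `ℤ × E` cut out by `Λ`. -/
noncomputable def Z2 (Λ : Subgroup G) : AddSubgroup (ℤ × E) :=
  (L3 Λ).comap (AddMonoidHom.inr ℤ (ℤ × E))

lemma mem_Z2 {Λ : Subgroup G} {v : ℤ × E} : v ∈ Z2 Λ ↔ wc 0 v.1 v.2 ∈ Λ := Iff.rfl

lemma small_wc {R : ℕ} {w z : ℤ} {s : E} (h1 : |w| ≤ (R : ℤ) ^ 7) (h2 : |z| ≤ (R : ℤ) ^ 8)
    (h3 : |s.1| ≤ (R : ℝ) ^ 5) : Small R (wc w z s) := by
  refine ⟨rfl, rfl, rfl, rfl, rfl, rfl, rfl, fun k hk => ?_, ?_, h2, ?_, h3⟩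
  · simp [wc, hk]
  · simpa [wc] using h1
  · simp [wc]

/-- Commutator of an element with `t = 0` and an element with `t, a, p, a2` zero. -/
lemma comm_eq (g h : G) (hg : g.t = 0) (ht : h.t = 0) (ha : h.a = 0) (hp : h.p = 0)
    (h2 : h.a2 = 0) :
    g * h * g⁻¹ * h⁻¹ = wc 0 (g.a ⬝ᵥ h.y + g.a2 * h.u)
      ((g.p ⬝ᵥ h.q + g.a 6 * h.x1) • e0 + g.a2 • h.x) := by
  rw [mul_inv_eq_iff_eq_mul, mul_inv_eq_iff_eq_mul]
  ext1 <;> simp [wc, hg, ht, ha, hp, h2] <;> ring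

lemma comm_mem {Λ : Subgroup G} {g h : G} (hgΛ : g ∈ Λ) (hhΛ : h ∈ Λ) (hg : g.t = 0)
    (ht : h.t = 0) (ha : h.a = 0) (hp : h.p = 0) (h2 : h.a2 = 0) :
    (g.a ⬝ᵥ h.y + g.a2 * h.u, (g.p ⬝ᵥ h.q + g.a 6 * h.x1) • e0 + g.a2 • h.x) ∈ Z2 Λ := by
  rw [mem_Z2, ← comm_eq g h hg ht ha hp h2]
  exact Λ.mul_mem (Λ.mul_mem (Λ.mul_mem hgΛ hhΛ) (Λ.inv_mem hgΛ)) (Λ.inv_mem hhΛ)

lemma abs_lt_of_add {a b m : ℤ} (h1 : 0 ≤ b ∧ b < m) (h2 : 0 ≤ a + b ∧ a + b < m) : |a| < m := by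
  rw [abs_lt]; constructor <;> omega

lemma abs_lt_of_add' {a b m : ℝ} (h1 : 0 ≤ b ∧ b < m) (h2 : 0 ≤ a + b ∧ a + b < m) : |a| < m := by
  rw [abs_lt]; constructor <;> linarith only [h1, h2, h1.1, h1.2, h2.1, h2.2]

/-- Packing criterion. -/
lemma pack (Λ : Subgroup G) (m : I → ℕ) (lam f : ℝ) (hmt : m it = 1)
    (H : ∀ γ ∈ Λ, γ.t = 0 → (∀ i, i ≠ iz → |co γ i| < m i) → |γ.x.1| < lam →
      (γ.a = 0 → γ.p = 0 → γ.a2 = 0 → |γ.z| < m iz ∧ |γ.s.1| < f) → γ = 1) :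
    ∀ γ ∈ Λ, ∀ b ∈ pbox m lam f, γ * b ∈ pbox m lam f → γ = 1 := by
  rintro γ hγ b ⟨b1, b2, b3⟩ ⟨c1, c2, c3⟩
  have ht : γ.t = 0 := by
    have h1 := b1 it
    have h2 := c1 it
    simp only [co_it, G.mul_t, hmt] at h1 h2
    omega
  refine H γ hγ ht (forall_I.2 ⟨fun k _ => ?_, fun k _ => ?_, fun k _ => ?_, fun k _ => ?_,
    fun _ => ?_, fun _ => ?_, fun _ => ?_, fun _ => ?_, fun h => (h rfl).elim⟩) ?_ ?_
  · exact abs_lt_of_add (b1 (ia k)) (by simpa [ht] using c1 (ia k))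
  · exact abs_lt_of_add (b1 (iy k)) (by simpa [ht] using c1 (iy k))
  · exact abs_lt_of_add (b1 (ip k)) (by simpa [ht] using c1 (ip k))
  · exact abs_lt_of_add (b1 (iq k)) (by simpa [ht] using c1 (iq k))
  · simp [ht, hmt]
  · exact abs_lt_of_add (b1 ia2) (by simpa [ht] using c1 ia2)
  · exact abs_lt_of_add (b1 iu) (by simpa [ht] using c1 iu)
  · exact abs_lt_of_add (b1 ix1) (by simpa [ht] using c1 ix1)
  · exact abs_lt_of_add' b2 (by simpa using c2)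
  · intro ha hp h2
    exact ⟨abs_lt_of_add (b1 iz) (by simpa [ha, h2] using c1 iz),
      abs_lt_of_add' b3 (by simpa [ha, hp, h2] using c3)⟩

/-- The order of the coordinates. -/
def rank : I → ℕ :=
  mkI (fun k => if k = 6 then 1 else 8 - (k : ℕ)) (fun k => if k = 6 then 25 else 17 + (k : ℕ))
    (fun k => 12 - (k : ℕ)) (fun k => 13 + (k : ℕ)) 0 2 24 23 26

lemma rank_ia (k : Fin 7) : rank (ia k) = if k = 6 then 1 else 8 - (k : ℕ) := rfl
lemma rank_iy (k : Fin 7) : rank (iy k) = if k = 6 then 25 else 17 + (k : ℕ) := rfl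
lemma rank_ip (k : Fin 4) : rank (ip k) = 12 - (k : ℕ) := rfl
lemma rank_iq (k : Fin 4) : rank (iq k) = 13 + (k : ℕ) := rfl
lemma rank_it : rank it = 0 := rfl
lemma rank_ia2 : rank ia2 = 2 := rfl
lemma rank_iu : rank iu = 24 := rfl
lemma rank_ix1 : rank ix1 = 23 := rfl
lemma rank_iz : rank iz = 26 := rfl

lemma rank_eq_zero : ∀ i, rank i = 0 → i = it := by decide

/-- Elements of `Λ` whose coordinates before `i` vanish. -/
def V (Λ : Subgroup G) (i : I) (g : G) : Prop :=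
  g ∈ Λ ∧ (∀ j, rank j < rank i → co g j = 0) ∧ (23 ≤ rank i → g.x = 0)

/-- `m` is at most the least nonzero value of the coordinate `i` on `V Λ i`. -/
def Adm (Λ : Subgroup G) (i : I) (m : ℕ) : Prop := ∀ g, V Λ i g → |co g i| < m → co g i = 0

lemma adm_one (Λ : Subgroup G) (i : I) : Adm Λ i 1 := fun g _ h => by
  simpa using h

lemma adm_cases (Λ : Subgroup G) (i : I) :
    (∀ m, Adm Λ i m) ∨ ∃ g, V Λ i g ∧ co g i ≠ 0 ∧ Adm Λ i (co g i).natAbs := by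
  classical
  by_cases h : ∃ n, ∃ g, V Λ i g ∧ co g i ≠ 0 ∧ (co g i).natAbs = n
  · right
    obtain ⟨g, h1, h2, h3⟩ := Nat.find_spec h
    refine ⟨g, h1, h2, fun g' hg' hlt => ?_⟩
    by_contra hne
    have := Nat.find_min' h ⟨g', hg', hne, rfl⟩
    rw [h3, Int.abs_eq_natAbs] at hlt
    omega
  · left
    intro m g hg _
    by_contra hne
    exact h ⟨_, g, hg, hne, rfl⟩

lemma upper_zero {Λ : Subgroup G} {m : I → ℕ}
    (hm : ∀ i, 1 ≤ rank i → rank i ≤ 22 → Adm Λ i (m i)) {γ : G} (hγ : γ ∈ Λ) (ht : γ.t = 0)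
    (hlt : ∀ i, i ≠ iz → |co γ i| < m i) : ∀ i, rank i ≤ 22 → co γ i = 0 := by
  intro i
  induction h : rank i using Nat.strong_induction_on generalizing i with
  | _ n ih =>
    intro hn
    by_cases h0 : n = 0
    · have : i = it := rank_eq_zero i (h.trans h0)
      subst this
      exact ht
    · refine hm i (by omega) (by omega) γ ⟨hγ, fun j hj => ih (rank j) (by omega) j rfl (by omega),
        fun h' => by omega⟩ (hlt i ?_)
      rintro rfl
      rw [rank_iz] at h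
      omega

/-- Consequences of the vanishing of the coordinates of rank at most `12`. -/
lemma ctype {g : G} (h : ∀ j, rank j ≤ 12 → co g j = 0) :
    g.t = 0 ∧ g.a = 0 ∧ g.p = 0 ∧ g.a2 = 0 := by
  refine ⟨h it (by decide), funext fun k => h (ia k) ?_, funext fun k => h (ip k) ?_,
    h ia2 (by decide)⟩
  · revert k; decide
  · revert k; decide

lemma utype {g : G} (h : ∀ j, rank j ≤ 22 → co g j = 0) :
    g.t = 0 ∧ g.a = 0 ∧ g.p = 0 ∧ g.a2 = 0 ∧ g.q = 0 ∧ ∀ k, k ≠ 6 → g.y k = 0 := by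
  obtain ⟨h1, h2, h3, h4⟩ := ctype (g := g) fun j hj => h j (by omega)
  refine ⟨h1, h2, h3, h4, funext fun k => h (iq k) ?_, fun k hk => h (iy k) ?_⟩
  · revert k; decide
  · revert k; decide

/-- Packing with unit boxes below the upper coordinates. -/
lemma pack_unit {Λ : Subgroup G} {R : ℕ} (hR : 1 ≤ R) (hΛ : ∀ g ∈ Λ, Small R g → g = 1)
    {m : I → ℕ} (hm : ∀ i, 1 ≤ rank i → rank i ≤ 22 → Adm Λ i (m i))
    (h1 : ∀ i, rank i = 0 ∨ 23 ≤ rank i → m i = 1) :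
    ∀ γ ∈ Λ, ∀ b ∈ pbox m 1 1, γ * b ∈ pbox m 1 1 → γ = 1 := by
  refine pack Λ m 1 1 (h1 it (by decide)) fun γ hγ ht hlt hx hz => ?_
  obtain ⟨-, u1, u2, u3, u4, u5⟩ := utype (upper_zero hm hγ ht hlt)
  obtain ⟨z1, z2⟩ := hz u1 u2 u3
  have e1 := hlt iu (by decide)
  have e2 := hlt ix1 (by decide)
  have e3 := hlt (iy 6) (by decide)
  rw [h1 _ (by decide)] at e1 e2 e3 z1
  simp only [co_iu, co_ix1, co_iy, Nat.cast_one, Int.abs_lt_one_iff] at e1 e2 e3 z1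
  have hR' : (1 : ℝ) ≤ (R : ℝ) ^ 5 := one_le_pow₀ (by exact_mod_cast hR)
  refine hΛ γ hγ ⟨ht, u1, u2, u4, u3, e1, e2, u5, ?_, ?_, hx.le, z2.le.trans hR'⟩
  · rw [e3]; positivity
  · rw [z1]; positivity

end Pool.Agent.Work.MP_913e71_al
end

-- merged part: Pool.Agent.Work.MP_913e71_al.LowC
section
/-! The lower bound. -/

namespace Pool.Agent.Work.MP_913e71_al

open Matrix

variable {Λ : Subgroup G} {g h : G}

lemma c1 {k : Fin 7} (hk : k ≠ 6) (hg : V Λ (ia k) g) (hh : V Λ (iy k) h) :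
    (g.a k * h.y k, (0 : E)) ∈ Z2 Λ := by
  have r1 : ∀ k : Fin 7, 12 < rank (iy k) := by decide
  obtain ⟨t1, t2, t3, t4⟩ := ctype (g := h) fun j hj => hh.2.1 j (lt_of_le_of_lt hj (r1 k))
  have r2 : ∀ k : Fin 7, rank it < rank (ia k) := by decide
  have r3 : ∀ k : Fin 7, k ≠ 6 → rank ia2 < rank (ia k) := by decide
  have r4 : ∀ k : Fin 7, k ≠ 6 → rank (ia 6) < rank (ia k) := by decide
  have r5 : ∀ (k : Fin 7) (j : Fin 4), rank (iq j) < rank (iy k) := by decide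
  have r6 : ∀ k j : Fin 7, k ≠ 6 → j ≠ k →
      rank (iy j) < rank (iy k) ∨ rank (ia j) < rank (ia k) := by decide
  have := comm_mem hg.1 hh.1 (hg.2.1 it (r2 k)) t1 t2 t3 t4
  have e1 : g.a2 = 0 := hg.2.1 ia2 (r3 k hk)
  have e2 : g.a 6 = 0 := hg.2.1 (ia 6) (r4 k hk)
  have e3 : h.q = 0 := funext fun j => hh.2.1 (iq j) (r5 k j)
  have e4 : g.a ⬝ᵥ h.y = g.a k * h.y k := by
    refine Finset.sum_eq_single k (fun j _ hj => ?_) (by simp)
    rcases r6 k j hk hj with r | r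
    · have : h.y j = 0 := hh.2.1 (iy j) r
      simp [this]
    · have : g.a j = 0 := hg.2.1 (ia j) r
      simp [this]
  simpa [e1, e2, e3, e4] using this

lemma c2 {k : Fin 4} (hg : V Λ (ip k) g) (hh : V Λ (iq k) h) :
    ((0 : ℤ), (g.p k * h.q k) • e0) ∈ Z2 Λ := by
  have r1 : ∀ k : Fin 4, 12 < rank (iq k) := by decide
  obtain ⟨t1, t2, t3, t4⟩ := ctype (g := h) fun j hj => hh.2.1 j (lt_of_le_of_lt hj (r1 k))
  have r2 : ∀ k : Fin 4, rank it < rank (ip k) := by decide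
  have r3 : ∀ k : Fin 4, rank ia2 < rank (ip k) := by decide
  have r4 : ∀ (k : Fin 4) (j : Fin 7), rank (ia j) < rank (ip k) := by decide
  have r6 : ∀ k j : Fin 4, j ≠ k →
      rank (iq j) < rank (iq k) ∨ rank (ip j) < rank (ip k) := by decide
  have := comm_mem hg.1 hh.1 (hg.2.1 it (r2 k)) t1 t2 t3 t4
  have e1 : g.a2 = 0 := hg.2.1 ia2 (r3 k)
  have e2 : g.a = 0 := funext fun j => hg.2.1 (ia j) (r4 k j)
  have e4 : g.p ⬝ᵥ h.q = g.p k * h.q k := by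
    refine Finset.sum_eq_single k (fun j _ hj => ?_) (by simp)
    rcases r6 k j hj with r | r
    · have : h.q j = 0 := hh.2.1 (iq j) r
      simp [this]
    · have : g.p j = 0 := hg.2.1 (ip j) r
      simp [this]
  simpa [e1, e2, e4] using this

lemma c3 (hg : V Λ ia2 g) (hh : h ∈ Λ) (h0 : ∀ j, rank j ≤ 22 → co h j = 0) :
    (g.a2 * h.u, g.a2 • h.x) ∈ Z2 Λ := by
  obtain ⟨t1, t2, t3, t4, t5, t6⟩ := utype h0
  have := comm_mem hg.1 hh (hg.2.1 it (by decide)) t1 t2 t3 t4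
  have e2 : g.a 6 = 0 := hg.2.1 (ia 6) (by decide)
  have e4 : g.a ⬝ᵥ h.y = 0 := by
    refine Finset.sum_eq_zero fun j _ => ?_
    by_cases hj : j = 6
    · simp [hj, e2]
    · simp [t6 j hj]
  simpa [e2, e4, t5] using this

lemma c4 (hg : V Λ (ia 6) g) (hh : V Λ ix1 h) : ∃ z : ℤ, (z, (g.a 6 * h.x1) • e0) ∈ Z2 Λ := by
  obtain ⟨t1, t2, t3, t4, t5, -⟩ := utype (g := h) fun j hj => hh.2.1 j (by rw [rank_ix1]; omega)
  have := comm_mem hg.1 hh.1 (hg.2.1 it (by decide)) t1 t2 t3 t4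
  have e : h.x = 0 := hh.2.2 (by decide)
  exact ⟨_, by simpa [t5, e] using this⟩

lemma eq_wc (h0 : ∀ j, rank j ≤ 24 → co h j = 0) (hx : h.x = 0) : h = wc (h.y 6) h.z h.s := by
  obtain ⟨t1, t2, t3, t4, t5, t6⟩ := utype (g := h) fun j hj => h0 j (by omega)
  have e1 : h.u = 0 := h0 iu (by decide)
  have e2 : h.x1 = 0 := h0 ix1 (by decide)
  ext1 <;> simp only [wc, t1, t2, t3, t4, t5, e1, e2, hx]
  funext k
  by_cases hk : k = 6
  · simp [hk]
  · simp [hk, t6 k hk]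

lemma le_of_smul {s0 : E} (hs : 0 < s0.1) {N i : ℤ} (hN : N ≠ 0) (h : N • e0 = i • s0) :
    s0.1 ≤ (N.natAbs : ℝ) ∧ (1 ≤ s0.1 → i ≠ 0 ∧ i.natAbs ≤ N.natAbs) := by
  have h1 : (N : ℝ) = i * s0.1 := by simpa using congrArg Prod.fst h
  have hi : i ≠ 0 := by
    rintro rfl
    simp at h1
    exact hN h1
  have h2 : (1 : ℝ) ≤ |(i : ℝ)| := by exact_mod_cast Int.one_le_abs hi
  have h3 : (N.natAbs : ℝ) = |(i : ℝ)| * s0.1 := by
    rw [Nat.cast_natAbs, Int.cast_abs, h1, abs_mul, abs_of_pos hs]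
  refine ⟨by rw [h3]; linarith only [hs, h2, mul_nonneg_of_nonpos_of_nonpos (le_of_lt (Mathlib.Tactic.Linarith.sub_neg_of_lt hs)) (Mathlib.Tactic.Linarith.sub_nonpos_of_le h2)], fun h4 => ⟨hi, ?_⟩⟩
  have : (i.natAbs : ℝ) ≤ N.natAbs := by
    rw [h3, Nat.cast_natAbs, Int.cast_abs]; (refine le_of_not_gt fun h_nl => ?_; linarith only [h_nl, h3, h4, hs, mul_nonneg_of_nonpos_of_nonpos (Mathlib.Tactic.Linarith.sub_nonpos_of_le (Mathlib.Tactic.Linarith.natCast_nonneg ℝ N.natAbs)) (Mathlib.Tactic.Linarith.sub_nonpos_of_le h4), Mathlib.Tactic.Linarith.mul_zero_eq (Mathlib.Tactic.Linarith.sub_neg_of_lt hs) (sub_eq_zero_of_eq h3), mul_pos_of_neg_of_neg (Mathlib.Tactic.Linarith.sub_neg_of_lt hs) (Mathlib.Tactic.Linarith.sub_neg_of_lt h_nl)])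
  exact_mod_cast this

lemma ineqA {R a0 a1 a2 a3 a4 a5 b0 b1 b2 b3 c d : ℝ} (hR : 0 ≤ R) (h0 : R ^ 8 ≤ a0)
    (h1 : R ^ 8 ≤ a1) (h2 : R ^ 8 ≤ a2) (h3 : R ^ 8 ≤ a3) (h4 : R ^ 8 ≤ a4) (h5 : R ^ 8 ≤ a5)
    (k0 : R ^ 5 ≤ b0) (k1 : R ^ 5 ≤ b1) (k2 : R ^ 5 ≤ b2) (k3 : R ^ 5 ≤ b3)
    (hc : R ^ 13 ≤ 2 * c) (hd : R ^ 20 ≤ 2 * d) :
    R ^ 101 ≤ 4 * (a0 * a1 * a2 * a3 * a4 * a5 * b0 * b1 * b2 * b3 * c * d) := by
  have p8 : 0 ≤ R ^ 8 := by positivity
  have p5 : 0 ≤ R ^ 5 := by positivity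
  have := p8.trans h0
  have := p8.trans h1
  have := p8.trans h2
  have := p8.trans h3
  have := p8.trans h4
  have := p8.trans h5
  have := p5.trans k0
  have := p5.trans k1
  have := p5.trans k2
  have := p5.trans k3
  have : 0 ≤ 2 * c := le_trans (by positivity) hc
  calc R ^ 101 = R ^ 8 * R ^ 8 * R ^ 8 * R ^ 8 * R ^ 8 * R ^ 8 * R ^ 5 * R ^ 5 * R ^ 5 * R ^ 5 *
        R ^ 13 * R ^ 20 := by ring
    _ ≤ a0 * a1 * a2 * a3 * a4 * a5 * b0 * b1 * b2 * b3 * (2 * c) * (2 * d) := by gcongr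
    _ = _ := by ring

theorem lower (n : ℕ) (Λ : Subgroup G)
    (hΛ : ∀ g ∈ Λ, Small ((P n).factorial ^ 4) g → g = 1) :
    ∃ (m : I → ℕ) (lam f : ℝ), 0 ≤ lam ∧ 0 ≤ f ∧
      (((P n).factorial : ℝ) ^ 2) ^ 201 ≤ 4 * ((∏ i, (m i : ℝ)) * lam * f) ∧
      ∀ γ ∈ Λ, ∀ b ∈ pbox m lam f, γ * b ∈ pbox m lam f → γ = 1 := by
  classical
  obtain ⟨F, hF⟩ : ∃ F, F = (P n).factorial := ⟨_, rfl⟩
  have hFpos : 0 < F := hF ▸ Nat.factorial_pos _
  rw [← hF] at hΛ ⊢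
  obtain ⟨R, hRdef⟩ : ∃ R, R = F ^ 4 := ⟨_, rfl⟩
  have hR : 1 ≤ R := hRdef ▸ Nat.one_le_pow _ _ hFpos
  rw [← hRdef] at hΛ
  obtain ⟨N, hN⟩ : ∃ N : ℕ, N = (F ^ 2) ^ 201 := ⟨_, rfl⟩
  have hNr : ((F : ℝ) ^ 2) ^ 201 = N := by rw [hN, Nat.cast_pow, Nat.cast_pow]
  have eR : (R : ℝ) ^ 101 = N * (F : ℝ) ^ 2 := by
    rw [← hNr, hRdef, ← pow_succ, Nat.cast_pow, show 4 = 2 * 2 from rfl, pow_mul, ← pow_mul]
  have eP : ∀ i, n < i → N ≤ P i := fun i hi => by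
    rw [hN, ← pow_mul, hF]
    exact (P_succ n).le.trans (P_strictMono.monotone hi)
  rw [hNr]
  clear hNr hN
  have unit : ∀ m : I → ℕ, (∀ i, 1 ≤ rank i → rank i ≤ 22 → Adm Λ i (m i)) →
      (∀ i, rank i = 0 ∨ 23 ≤ rank i → m i = 1) → N ≤ ∏ i, m i →
      ∃ (m : I → ℕ) (lam f : ℝ), 0 ≤ lam ∧ 0 ≤ f ∧
      (N : ℝ) ≤ 4 * ((∏ i, (m i : ℝ)) * lam * f) ∧
      ∀ γ ∈ Λ, ∀ b ∈ pbox m lam f, γ * b ∈ pbox m lam f → γ = 1 := by
    intro m h1 h2 h3
    refine ⟨m, 1, 1, zero_le_one, zero_le_one, ?_, pack_unit hR hΛ h1 h2⟩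
    have h4 : (N : ℝ) ≤ ∏ i, (m i : ℝ) := by exact_mod_cast h3
    have h5 : (0 : ℝ) ≤ ∏ i, (m i : ℝ) := Finset.prod_nonneg fun i _ => Nat.cast_nonneg _
    generalize ∏ i, (m i : ℝ) = T at h4 h5 ⊢
    linarith only [h4]
  by_cases hall : ∀ i, 1 ≤ rank i → rank i ≤ 22 →
      ∃ g, V Λ i g ∧ co g i ≠ 0 ∧ Adm Λ i (co g i).natAbs
  swap
  · push Not at hall
    obtain ⟨i, hi1, hi2, hi⟩ := hall
    have hadm : ∀ m, Adm Λ i m := by
      rcases adm_cases Λ i with h | ⟨g, h1, h2, h3⟩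
      · exact h
      · exact (hi g h1 h2 h3).elim
    refine unit (Function.update (fun _ => 1) i N) (fun j _ _ => ?_)
      (fun j hj => ?_) ?_
    · by_cases hj : j = i
      · subst hj; exact hadm _
      · rw [Function.update_of_ne hj]; exact adm_one Λ j
    · rw [Function.update_of_ne]
      rintro rfl
      omega
    · rw [Finset.prod_update_of_mem (Finset.mem_univ i)]
      simp
  have : Nonempty G := ⟨1⟩
  choose! g hV hne hA using hall
  have ua : ∀ k : Fin 7, 1 ≤ rank (ia k) ∧ rank (ia k) ≤ 22 := by decide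
  have uy : ∀ k : Fin 7, k ≠ 6 → 1 ≤ rank (iy k) ∧ rank (iy k) ≤ 22 := by decide
  have up : ∀ k : Fin 4, 1 ≤ rank (ip k) ∧ rank (ip k) ≤ 22 := by decide
  have uq : ∀ k : Fin 4, 1 ≤ rank (iq k) ∧ rank (iq k) ≤ 22 := by decide
  have u2 : 1 ≤ rank ia2 ∧ rank ia2 ≤ 22 := by decide
  have C1 : ∀ k : Fin 7, k ≠ 6 → ((g (ia k)).a k * (g (iy k)).y k, (0 : E)) ∈ Z2 Λ :=
    fun k hk => c1 hk (hV _ (ua k).1 (ua k).2) (hV _ (uy k hk).1 (uy k hk).2)
  have C2 : ∀ k : Fin 4, ((0 : ℤ), ((g (ip k)).p k * (g (iq k)).q k) • e0) ∈ Z2 Λ :=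
    fun k => c2 (hV _ (up k).1 (up k).2) (hV _ (uq k).1 (uq k).2)
  have N1 : ∀ k : Fin 7, k ≠ 6 → (g (ia k)).a k * (g (iy k)).y k ≠ 0 :=
    fun k hk => mul_ne_zero (hne _ (ua k).1 (ua k).2) (hne _ (uy k hk).1 (uy k hk).2)
  have N2 : ∀ k : Fin 4, (g (ip k)).p k * (g (iq k)).q k ≠ 0 :=
    fun k => mul_ne_zero (hne _ (up k).1 (up k).2) (hne _ (uq k).1 (uq k).2)
  have small3 : ∀ v ∈ L3 Λ, |v.1| ≤ (R : ℤ) ^ 7 → |v.2.1| ≤ (R : ℤ) ^ 8 →
      |v.2.2.1| ≤ (R : ℝ) ^ 5 → v = 0 := by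
    intro v hv h1 h2 h3
    obtain ⟨e1, e2, e3⟩ := wc_eq_one (hΛ _ hv (small_wc h1 h2 h3))
    exact Prod.ext e1 (Prod.ext e2 e3)
  obtain ⟨ζ, j, s0, s1, hζ, hj, hs1, hs0, dζ, dz, ds, djs, bz, bs, bζ⟩ :=
    central_structure (Z2 Λ) R hR (fun w hw h1 h2 => by
      have := small3 (0, w) hw (by simp) h1 h2
      exact congrArg Prod.snd this) _ _ (N1 0 (by decide)) (N2 0) (C1 0 (by decide)) (C2 0)
  have hR1 : (1 : ℝ) ≤ R := by exact_mod_cast hR
  have hf1 : 1 ≤ s0.1 := (one_le_pow₀ hR1).trans bs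
  have hf0 : 0 < s0.1 := by linarith only [hf1]
  obtain ⟨nn, hnn⟩ : ∃ nn : I → ℕ, ∀ i, nn i = (co (g i) i).natAbs := ⟨_, fun _ => rfl⟩
  have nnpos : ∀ i, 1 ≤ rank i → rank i ≤ 22 → 1 ≤ nn i := fun i h1 h2 => by
    rw [hnn]; exact Int.natAbs_pos.2 (hne i h1 h2)
  have B1 : ∀ k : Fin 7, k ≠ 6 → j * ζ ≤ nn (ia k) * nn (iy k) := fun k hk => by
    have := Int.natAbs_le_of_dvd_ne_zero (dz _ (C1 k hk)) (N1 k hk)
    rw [Int.natAbs_natCast, Int.natAbs_mul] at this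
    rw [hnn, hnn]; exact this
  have B2 : ∀ k : Fin 4, s0.1 ≤ (nn (ip k) : ℝ) * nn (iq k) := fun k => by
    obtain ⟨i, hi⟩ := ds _ (C2 k)
    have := (le_of_smul hf0 (N2 k) hi).1
    rw [Int.natAbs_mul, Nat.cast_mul] at this
    rw [hnn, hnn]; exact this
  obtain ⟨k0, hk0⟩ := ds _ (C2 0)
  obtain ⟨hk0ne, hk0le⟩ := (le_of_smul hf0 (N2 0) hk0).2 hf1
  have hh2 : (g ia2).a2 ≠ 0 := hne _ u2.1 u2.2
  have hm0 : k0 * j * (g ia2).a2 ≠ 0 := mul_ne_zero (mul_ne_zero hk0ne (by omega)) hh2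
  have den : ∀ h ∈ Λ, (∀ j, rank j ≤ 22 → co h j = 0) →
      ∃ J : ℤ, (k0 * j * (g ia2).a2) • h.x = J • e0 := by
    intro h hh h0
    obtain ⟨i, hi⟩ := djs _ (c3 (hV _ u2.1 u2.2) hh h0)
    refine ⟨i * ((g (ip 0)).p 0 * (g (iq 0)).q 0), ?_⟩
    rw [mul_smul i, hk0, mul_assoc, mul_smul, mul_smul, hi, smul_comm]
  obtain ⟨mm, hmm⟩ : ∃ mm : ℕ → ℕ → ℕ → ℕ → I → ℕ, ∀ mw mu mx mz, mm mw mu mx mz =
      mkI (fun k => nn (ia k)) (fun k => if k = 6 then mw else nn (iy k)) (fun k => nn (ip k))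
        (fun k => nn (iq k)) 1 (nn ia2) mu mx mz := ⟨_, fun _ _ _ _ => rfl⟩
  have mmup : ∀ mw mu mx mz i, 1 ≤ rank i → rank i ≤ 22 → mm mw mu mx mz i = nn i := by
    intro mw mu mx mz
    rw [hmm]
    refine forall_I.2 ⟨fun _ _ _ => rfl, fun k _ h => ?_, fun _ _ _ => rfl, fun _ _ _ => rfl,
      fun h => absurd h (by decide), fun _ _ => rfl, fun _ h => absurd h (by decide),
      fun _ h => absurd h (by decide), fun _ h => absurd h (by decide)⟩
    have : k ≠ 6 := by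
      rintro rfl
      exact absurd h (by decide)
    simp [this]
  have mmadm : ∀ mw mu mx mz i, 1 ≤ rank i → rank i ≤ 22 → Adm Λ i (mm mw mu mx mz i) := by
    intro mw mu mx mz i h1 h2
    rw [mmup _ _ _ _ i h1 h2, hnn]
    exact hA i h1 h2
  by_cases hB : ∃ i, n < i ∧ (P i : ℤ) ∣ k0 * j * (g ia2).a2
  · obtain ⟨i, hi, hd⟩ := hB
    have low : ∀ i, rank i = 0 ∨ 23 ≤ rank i → mm 1 1 1 1 i = 1 := by
      rw [hmm]
      refine forall_I.2 ⟨fun k h => ?_, fun k h => ?_, fun k h => ?_, fun k h => ?_,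
        fun _ => rfl, fun h => absurd h (by decide), fun _ => rfl, fun _ => rfl, fun _ => rfl⟩
      · have := ua k; omega
      · by_cases hk : k = 6
        · simp [hk]
        · have := uy k hk; omega
      · have := up k; omega
      · have := uq k; omega
    refine unit (mm 1 1 1 1) (mmadm 1 1 1 1) low ?_
    have e1 := Int.natAbs_le_of_dvd_ne_zero hd hm0
    rw [Int.natAbs_natCast, Int.natAbs_mul, Int.natAbs_mul, Int.natAbs_natCast] at e1
    have e2 := eP i hi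
    have e3 : k0.natAbs ≤ nn (ip 0) * nn (iq 0) := by
      rw [hnn, hnn, ← Int.natAbs_mul]; exact hk0le
    have e4 : j ≤ nn (ia 0) * nn (iy 0) :=
      (Nat.le_mul_of_pos_right j hζ).trans (B1 0 (by decide))
    have e5 : (g ia2).a2.natAbs = nn ia2 := (hnn ia2).symm
    have e6 : ∏ i ∈ ({ip 0, iq 0, ia 0, iy 0, ia2} : Finset I), mm 1 1 1 1 i ≤
        ∏ i, mm 1 1 1 1 i := by
      refine Finset.prod_le_prod_of_subset_of_one_le' (Finset.subset_univ _) fun i _ _ => ?_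
      by_cases h : rank i = 0 ∨ 23 ≤ rank i
      · rw [low i h]
      · rw [mmup _ _ _ _ i (by omega) (by omega)]
        exact nnpos i (by omega) (by omega)
    rw [Finset.prod_insert (by decide), Finset.prod_insert (by decide),
      Finset.prod_insert (by decide), Finset.prod_insert (by decide), Finset.prod_singleton,
      mmup _ _ _ _ _ (up 0).1 (up 0).2, mmup _ _ _ _ _ (uq 0).1 (uq 0).2,
      mmup _ _ _ _ _ (ua 0).1 (ua 0).2,
      mmup _ _ _ _ _ (uy 0 (by decide)).1 (uy 0 (by decide)).2, mmup _ _ _ _ _ u2.1 u2.2] at e6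
    refine e2.trans (e1.trans (le_trans ?_ e6))
    rw [e5]
    calc k0.natAbs * j * nn ia2 ≤ (nn (ip 0) * nn (iq 0)) * (nn (ia 0) * nn (iy 0)) * nn ia2 := by
          gcongr
      _ = _ := by ring
  push Not at hB
  have hFr : (0 : ℝ) < (F : ℝ) ^ 2 := by positivity
  have xzero : ∀ h ∈ Λ, (∀ j, rank j ≤ 22 → co h j = 0) → |h.x.1| < 1 / (F : ℝ) ^ 2 →
      h.x = 0 := by
    intro h hh h0 hx
    obtain ⟨J, hJ⟩ := den h hh h0
    obtain ⟨c, hc⟩ := padic_dvd n hm0 hJ hB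
    rw [← hF] at hc
    have e1 : ((k0 * j * (g ia2).a2 : ℤ) : ℝ) * h.x.1 = J := by
      simpa using congrArg Prod.fst hJ
    have e2 : (F : ℝ) ^ 2 * J = ((k0 * j * (g ia2).a2 : ℤ) : ℝ) * c := by exact_mod_cast hc
    have e3 : ((k0 * j * (g ia2).a2 : ℤ) : ℝ) ≠ 0 := by exact_mod_cast hm0
    have e4 : (F : ℝ) ^ 2 * h.x.1 = c := by
      apply mul_left_cancel₀ e3
      rw [← e2, ← e1]; ring
    have e5 : |(c : ℝ)| < 1 := by
      rw [← e4, abs_mul, abs_of_pos hFr]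
      rwa [lt_div_iff₀ hFr, mul_comm] at hx
    have e6 : c = 0 := by
      have : |c| < 1 := by exact_mod_cast e5
      exact Int.abs_lt_one_iff.1 this
    have e7 : J = 0 := by
      rw [e6, mul_zero] at hc
      rcases mul_eq_zero.1 hc with h | h
      · exact absurd h (by positivity)
      · exact h
    rw [e7, zero_smul] at hJ
    exact E_torsionFree hm0 hJ
  have hn2 : 1 ≤ nn ia2 := nnpos _ u2.1 u2.2
  have hn6 : 1 ≤ nn (ia 6) := nnpos _ (ua 6).1 (ua 6).2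
  obtain ⟨mu, hmuA, hmu⟩ : ∃ mu : ℕ, Adm Λ iu mu ∧ j * ζ ≤ nn ia2 * mu := by
    rcases adm_cases Λ iu with h | ⟨h, h1, h2, h3⟩
    · exact ⟨j * ζ, h _, Nat.le_mul_of_pos_left _ hn2⟩
    · refine ⟨_, h3, ?_⟩
      have e := c3 (hV _ u2.1 u2.2) h1.1 fun j hj => h1.2.1 j (by rw [rank_iu]; omega)
      rw [h1.2.2 (by decide), smul_zero] at e
      have := Int.natAbs_le_of_dvd_ne_zero (dz _ e) (mul_ne_zero hh2 h2)
      rw [Int.natAbs_natCast, Int.natAbs_mul] at this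
      rw [hnn]; exact this
  obtain ⟨mx, hmxA, hmx⟩ : ∃ mx : ℕ, Adm Λ ix1 mx ∧ s0.1 ≤ (j : ℝ) * (nn (ia 6) * mx) := by
    rcases adm_cases Λ ix1 with h | ⟨h, h1, h2, h3⟩
    · refine ⟨⌈s0.1⌉₊, h _, (Nat.le_ceil _).trans ?_⟩
      have : ⌈s0.1⌉₊ ≤ j * (nn (ia 6) * ⌈s0.1⌉₊) :=
        (Nat.le_mul_of_pos_left _ hn6).trans (Nat.le_mul_of_pos_left _ hj)
      exact_mod_cast this
    · refine ⟨_, h3, ?_⟩
      obtain ⟨z, hz⟩ := c4 (hV _ (ua 6).1 (ua 6).2) h1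
      obtain ⟨i, hi⟩ := djs _ hz
      rw [← mul_smul] at hi
      have h6 : (g (ia 6)).a 6 ≠ 0 := hne _ (ua 6).1 (ua 6).2
      have := (le_of_smul hf0 (mul_ne_zero (by omega) (mul_ne_zero h6 h2)) hi).1
      rw [Int.natAbs_mul, Int.natAbs_mul, Int.natAbs_natCast] at this
      rw [hnn]; exact_mod_cast this
  obtain ⟨mw, hmwA, hmw⟩ : ∃ mw : ℕ, Adm Λ (iy 6) mw ∧ (R : ℝ) ^ 20 ≤ 2 * (mw * ζ * s0.1) := by
    have hζ1 : (1 : ℝ) ≤ ζ := by exact_mod_cast hζ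
    rcases adm_cases Λ (iy 6) with h | ⟨h, h1, h2, h3⟩
    · refine ⟨R ^ 20, h _, ?_⟩
      push_cast
      have : (0 : ℝ) ≤ (R : ℝ) ^ 20 := by positivity
      have h5 : (1 : ℝ) ≤ ζ * s0.1 := one_le_mul_of_one_le_of_one_le hζ1 hf1
      linarith only [this, h5, mul_nonneg_of_nonpos_of_nonpos (Mathlib.Tactic.Linarith.sub_nonpos_of_le this) (Mathlib.Tactic.Linarith.sub_nonpos_of_le h5)]
    · refine ⟨_, h3, ?_⟩
      have e := eq_wc (fun j hj => h1.2.1 j (lt_of_le_of_lt hj (by decide))) (h1.2.2 (by decide))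
      have m1 : (h.y 6, h.z, h.s) ∈ L3 Λ := by
        rw [mem_L3, ← e]; exact h1.1
      obtain ⟨z', s', m2⟩ : ∃ z' s', (((co h (iy 6)).natAbs : ℤ), z', s') ∈ L3 Λ := by
        rcases Int.natAbs_eq (h.y 6) with e' | e'
        · exact ⟨h.z, h.s, by rw [co_iy, ← e']; exact m1⟩
        · refine ⟨-h.z, -h.s, ?_⟩
          have : (((co h (iy 6)).natAbs : ℤ)) = -h.y 6 := by rw [co_iy]; omega
          rw [this]; exact (L3 Λ).neg_mem m1
      have := pigeon (L3 Λ) _ ζ (R ^ 7) (R ^ 8) ((R : ℝ) ^ 5) (Int.natAbs_pos.2 h2) hζ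
        (by positivity) z' s' s1 s0 m2 hs1 hs0 bs (fun v hv a1 a2 a3 =>
          small3 v hv (by exact_mod_cast a1) (by exact_mod_cast a2) a3)
      refine le_trans ?_ this
      push_cast
      calc (R : ℝ) ^ 20 = R ^ 7 * R ^ 8 * R ^ 5 := by ring
        _ ≤ _ := by gcongr <;> linarith only []
  refine ⟨mm mw mu mx ζ, 1 / (F : ℝ) ^ 2, s0.1, by positivity, hf0.le, ?_,
    pack Λ _ _ _ (by rw [hmm]; rfl) fun γ hγ ht hlt hx hz => ?_⟩
  · have bz' : ∀ k : Fin 7, k ≠ 6 → (R : ℝ) ^ 8 ≤ (nn (ia k) : ℝ) * nn (iy k) := fun k hk => by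
      exact_mod_cast bz.trans (B1 k hk)
    have bc : (R : ℝ) ^ 13 ≤ 2 * ((nn ia2 * mu : ℝ) * (nn (ia 6) * mx)) := by
      refine bζ.trans ?_
      have hj' : (0 : ℝ) < j := by exact_mod_cast hj
      have hmu' : (j : ℝ) * ζ ≤ nn ia2 * mu := by exact_mod_cast hmu
      have : (j : ℝ) * (ζ * s0.1) ≤ j * ((nn ia2 * mu : ℝ) * (nn (ia 6) * mx)) := by
        calc (j : ℝ) * (ζ * s0.1) = (j * ζ) * s0.1 := by ring
          _ ≤ (nn ia2 * mu) * (j * (nn (ia 6) * mx)) := by gcongr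
          _ = _ := by ring
      have := le_of_mul_le_mul_left this hj'
      linarith only [this]
    have key := ineqA (by positivity) (bz' 0 (by decide)) (bz' 1 (by decide)) (bz' 2 (by decide))
      (bz' 3 (by decide)) (bz' 4 (by decide)) (bz' 5 (by decide)) (bs.trans (B2 0))
      (bs.trans (B2 1)) (bs.trans (B2 2)) (bs.trans (B2 3)) bc hmw
    rw [eR, ← le_div_iff₀ hFr] at key
    refine key.trans (le_of_eq ?_)
    rw [prod_I, hmm]
    simp only [mkI_ia, mkI_iy, mkI_ip, mkI_iq, mkI_it, mkI_ia2, mkI_iu, mkI_ix1, mkI_iz,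
      Fin.prod_univ_seven, Fin.prod_univ_four]
    simp only [show ((0 : Fin 7) = 6) = False by decide, show ((1 : Fin 7) = 6) = False by decide,
      show ((2 : Fin 7) = 6) = False by decide, show ((3 : Fin 7) = 6) = False by decide,
      show ((4 : Fin 7) = 6) = False by decide, show ((5 : Fin 7) = 6) = False by decide,
      if_false, if_true]
    push_cast
    ring
  · have h0 := upper_zero (mmadm mw mu mx ζ) hγ ht hlt
    have hx0 := xzero γ hγ h0 hx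
    have a1 : co γ ix1 = 0 := hmxA γ ⟨hγ, fun j hj => h0 j (by rw [rank_ix1] at hj; omega),
      fun _ => hx0⟩ (by have := hlt ix1 (by decide); rwa [hmm] at this)
    have r23 : ∀ j, rank j < rank iu → rank j ≤ 22 ∨ j = ix1 := by decide
    have r24 : ∀ j, rank j ≤ 24 → rank j ≤ 22 ∨ j = ix1 ∨ j = iu := by decide
    have a2 : co γ iu = 0 := hmuA γ ⟨hγ, fun j hj => by
      rcases r23 j hj with h | rfl
      exacts [h0 j h, a1], fun _ => hx0⟩ (by have := hlt iu (by decide); rwa [hmm] at this)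
    have h24 : ∀ j, rank j ≤ 24 → co γ j = 0 := fun j hj => by
      rcases r24 j hj with h | rfl | rfl
      exacts [h0 j h, a1, a2]
    have a3 : γ.y 6 = 0 := hmwA γ ⟨hγ, fun j hj => h24 j (Nat.lt_succ_iff.1 hj),
      fun _ => hx0⟩ (by have := hlt (iy 6) (by decide); rwa [hmm] at this)
    have e := eq_wc h24 hx0
    rw [a3] at e
    obtain ⟨-, u1, u2', u3, -, -⟩ := utype h0
    obtain ⟨z1, z2⟩ := hz u1 u2' u3
    rw [hmm, mkI_iz] at z1
    have m1 : (γ.z, γ.s) ∈ Z2 Λ := by rw [mem_Z2, ← e]; exact hγ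
    have z0 : γ.z = 0 := Int.eq_zero_of_abs_lt_dvd (dζ _ m1) z1
    rw [z0] at m1 e
    obtain ⟨i, hi⟩ := ds _ m1
    have i0 : i = 0 := by
      rw [hi, Prod.smul_fst, zsmul_eq_mul, abs_mul, abs_of_pos hf0] at z2
      have : |(i : ℝ)| < 1 := by
        by_contra hcon
        push Not at hcon
        linarith only [z2, hcon, hf1, mul_nonneg_of_nonpos_of_nonpos (Mathlib.Tactic.Linarith.sub_nonpos_of_le hf1) (Mathlib.Tactic.Linarith.sub_nonpos_of_le hcon)]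
      have : |i| < 1 := by exact_mod_cast this
      exact Int.abs_lt_one_iff.1 this
    rw [e, hi, i0, zero_smul, wc_zero]

end Pool.Agent.Work.MP_913e71_al
end

-- merged part: Pool.Agent.Work.MP_913e71_al.Nil
section
/-! The group `G` is nilpotent.

PLAN.  Let `F n` be the subgroup of elements whose integer coordinates of degree (`deg`) at most `n`
vanish, with `x = 0` if `1 ≤ n` and `s = 0` if `5 ≤ n`.  `F 0 = ⊤`, `F 8 = ⊥`, and
`⁅F n, ⊤⁆ ≤ F (n + 1)` (`nilpotent_iff_finite_descending_central_series`).  One way: agreement of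
the coordinates of degree at most `n` is a congruence for the product (the Pascal matrices are
unitriangular: `pas_diag`, `pas_of_lt`), and `g h`, `h g` agree up to degree `n + 1` when
`h ∈ F n`.  Any other proof is welcome (for instance: central extensions,
`isNilpotent_of_ker_le_center`, or a direct computation of the lower central series). -/

namespace Pool.Agent.Work.MP_913e71_al

open Matrix

lemma Nil_row {m : ℕ} (t : ℤ) {a : Fin m → ℤ} {k : Fin m} (h : ∀ j, k < j → a j = 0) :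
    (a ᵥ* pas m t) k = a k :=
  (Fintype.sum_eq_single k fun j hj => mul_eq_zero.2 (hj.lt_or_gt.symm.imp (h j)
    (pas_of_lt m t))).trans (by rw [pas_diag, mul_one])

lemma Nil_col {m : ℕ} (t : ℤ) {a : Fin m → ℤ} {k : Fin m} (h : ∀ j, j < k → a j = 0) :
    (pas m t *ᵥ a) k = a k :=
  (Fintype.sum_eq_single k fun j hj => mul_eq_zero.2 (hj.lt_or_gt.symm.imp (pas_of_lt m t)
    (h j))).trans (by rw [pas_diag, one_mul])

/-- The filtration of the derived subgroup. -/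
def Nil_F (n : ℕ) (g : G) : Prop :=
  (g.t = 0 ∧ g.a2 = 0 ∧ g.u = 0 ∧ g.x1 = 0 ∧ g.x = 0) ∧ (∀ k : Fin 7, n ≤ k → g.a k = 0) ∧
    (∀ k : Fin 7, k + n < 7 → g.y k = 0) ∧ (∀ k : Fin 4, n ≤ k → g.p k = 0) ∧
      ∀ k : Fin 4, k + n < 7 → g.q k = 0

lemma Nil_step {n : ℕ} {g : G} (hg : Nil_F (n + 1) g) (h : G) : Nil_F n (g * h * g⁻¹ * h⁻¹) := by
  obtain ⟨⟨h0, -⟩, h1, h2, h3, h4⟩ := hg
  refine ⟨by simp, fun k hk => ?_, fun k hk => ?_, fun k hk => ?_, fun k hk => ?_⟩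
  · simp [h0, neg_vecMul, pas_mul_neg, Nil_row _ fun j (hj : k < j) => h1 j (by omega)]
  · simp [h0, mulVec_neg, pas_mul_neg, Nil_col _ fun j (hj : j < k) => h2 j (by omega)]
  · simp [h0, neg_vecMul, pas_mul_neg, Nil_row _ fun j (hj : k < j) => h3 j (by omega)]
  · simp [h0, mulVec_neg, pas_mul_neg, Nil_col _ fun j (hj : j < k) => h4 j (by omega)]

lemma Nil_mem (n : ℕ) {g : G} (hg : Nil_F n g) : g ∈ Subgroup.upperCentralSeries G (n + 1) := by
  induction n generalizing g with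
  | zero =>
    obtain ⟨⟨a1, a2, a3, a4, a5⟩, h1, h2, h3, h4⟩ := hg
    have b1 : g.a = 0 := funext fun k => h1 k (by omega)
    have b2 : g.y = 0 := funext fun k => h2 k (by omega)
    have b3 : g.p = 0 := funext fun k => h3 k (by omega)
    have b4 : g.q = 0 := funext fun k => h4 k (by omega)
    rw [zero_add, Subgroup.upperCentralSeries_one, Subgroup.mem_center_iff]
    intro h
    ext1 <;> simp [a1, a2, a3, a4, a5, b1, b2, b3, b4, add_comm]
  | succ n ih => exact Subgroup.mem_upperCentralSeries_succ_iff.2 fun h => ih (Nil_step hg h)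

theorem G_isNilpotent : Group.IsNilpotent G :=
  ⟨9, eq_top_iff.2 fun _ _ => Subgroup.mem_upperCentralSeries_succ_iff.2 fun _ => Nil_mem 7
    ⟨by simp [commutatorElement_def], fun _ _ => by omega, fun _ _ => by omega, fun _ _ => by omega,
      fun _ _ => by omega⟩⟩

end Pool.Agent.Work.MP_913e71_al
end

-- merged part: Pool.Agent.Work.MP_913e71_al.Main
section
/-! Assembly. -/

namespace Pool.Agent.Work.MP_913e71_al

open MeasureTheory Filter
open scoped ENNReal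

lemma upper_lattice (n : ℕ) : ∃ Λ : Subgroup G, IsCocompactLattice Λ ∧
    (∀ g ∈ Λ, ∀ R : ℕ, R < P n → g ∈ Box R → g = 1) ∧
    ∀ g : G, ∃ γ ∈ Λ,
      γ * g ∈ pbox (fun i => P n ^ ex i) (1 / (P n : ℝ) ^ 2) ((P n : ℝ) ^ 5) := by
  obtain ⟨Λ, h1, h2⟩ := upper n
  refine ⟨Λ, ⟨discrete_of_nhds Λ Box_one_mem_nhds fun γ hγ hb =>
    h1 γ hγ 1 (P_prime n).one_lt hb, ?_⟩, h1, h2⟩
  obtain ⟨T, hT, hsub⟩ :=
    pbox_subset_compact (fun i => P n ^ ex i) (1 / (P n : ℝ) ^ 2) ((P n : ℝ) ^ 5)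
  exact compactSpace_quotient Λ hT fun x => by
    obtain ⟨γ, hγ, hx⟩ := h2 x
    exact ⟨γ, hγ, hsub hx⟩

lemma P_tendsto : Tendsto (fun n => (P n : ℝ)) atTop atTop :=
  tendsto_natCast_atTop_atTop.comp P_strictMono.tendsto_atTop

lemma fact_tendsto : Tendsto (fun n => ((P n).factorial : ℝ) ^ 2) atTop atTop := by
  refine tendsto_atTop_mono (fun n => ?_) P_tendsto
  have h1 : (P n : ℝ) ≤ (P n).factorial := by exact_mod_cast Nat.self_le_factorial _
  have h2 : (1 : ℝ) ≤ (P n).factorial := by exact_mod_cast Nat.factorial_pos _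
  linarith only [h2, h1, mul_nonneg_of_nonpos_of_nonpos (Mathlib.Tactic.Linarith.sub_nonpos_of_le (Mathlib.Tactic.Linarith.natCast_nonneg ℝ (P n))) (Mathlib.Tactic.Linarith.sub_nonpos_of_le h2), mul_nonneg_of_nonpos_of_nonpos (Mathlib.Tactic.Linarith.sub_nonpos_of_le (Mathlib.Tactic.Linarith.natCast_nonneg ℝ (P n).factorial)) (Mathlib.Tactic.Linarith.sub_nonpos_of_le h1)]

lemma sysGrowth_mono {H : Type} [Group H] [TopologicalSpace H] [MeasurableSpace H]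
    (S : Set H) (μ : Measure H) : Monotone (sysGrowth S μ) := by
  intro r r' h
  refine le_iInf fun Γ => le_iInf fun h1 => le_iInf fun h2 => ?_
  exact iInf_le_of_le Γ (iInf_le_of_le h1 (iInf_le_of_le
    (fun x hx hne => h.trans (h2 x hx hne)) le_rfl))

theorem main (S : Set G) (hc : IsCompact S) (hS : Subgroup.closure S = ⊤) (μ : Measure G)
    [μ.IsHaarMeasure] : PolyGrowth S μ ∧ (∀ r : ℝ, sysGrowth S μ r < ∞) ∧
      ∀ β : ℝ, ¬ (Dom (sysGrowth S μ) (fun r => ENNReal.ofReal (r ^ β)) ∧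
        Dom (fun r => ENNReal.ofReal (r ^ β)) (sysGrowth S μ)) := by
  obtain ⟨c, hc0, hpbox, C0, d, hC0, hBox⟩ := haar_boxes μ
  obtain ⟨C1, hC1⟩ := mem_Box_wordLength hc hS
  obtain ⟨N, hN⟩ := wordLength_bdd hc hS (isCompact_Box 1)
  obtain ⟨C2, hC2⟩ := small_length (wordLength S) wordLength_one (wordLength_mul_le hS)
    (wordLength_inv hS) N hN
  have hA : (0 : ℝ) < 1 / (2 * (C1 + 1)) := by positivity
  have hup : ∀ n, sysGrowth S μ (1 / (2 * (C1 + 1)) * (P n : ℝ)) ≤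
      ENNReal.ofReal (c * (P n : ℝ) ^ 100) := by
    intro n
    obtain ⟨Λ, h0, h1, h2⟩ := upper_lattice n
    have := h0.1
    refine iInf_le_of_le Λ (iInf_le_of_le h0 (iInf_le_of_le (fun x hx hne => ?_) ?_))
    · have h3 : P n ≤ 1 + C1 * wordLength S x := by
        by_contra hlt
        exact hne (h1 x hx _ (not_le.1 hlt) (hC1 x))
      have h4 : (P n : ℝ) ≤ 1 + C1 * wordLength S x := by exact_mod_cast h3
      have h5 : (2 : ℝ) ≤ P n := by exact_mod_cast (P_prime n).two_le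
      have h6 : (0 : ℝ) ≤ wordLength S x := by positivity
      rw [one_div, inv_mul_le_iff₀ (by positivity)]
      linarith only [h4, h5]
    · refine (covolume_le Λ μ h2).trans (le_of_eq ?_)
      rw [hpbox _ _ _ (by positivity) (by positivity)]
      congr 2
      have h5 : (0 : ℝ) < P n := by exact_mod_cast (P_prime n).pos
      simp only [Nat.cast_pow]
      rw [prod_pow_ex]
      field_simp
  have hlow : ∀ n, ENNReal.ofReal (c / 4 * (((P n).factorial : ℝ) ^ 2) ^ 201) ≤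
      sysGrowth S μ ((C2 + 1) * (((P n).factorial : ℝ) ^ 2) ^ 2) := by
    intro n
    refine le_iInf fun Λ => le_iInf fun h0 => le_iInf fun h1 => ?_
    have := h0.1
    have hR : 1 ≤ (P n).factorial ^ 4 := Nat.one_le_pow _ _ (Nat.factorial_pos _)
    obtain ⟨m, lam, f, hl, hf, h2, h3⟩ := lower n Λ fun g hg hs => by
      by_contra hne
      have h4 := h1 g hg hne
      have h5 : (wordLength S g : ℝ) ≤ C2 * ((P n).factorial : ℝ) ^ 4 := by
        exact_mod_cast hC2 _ hR g hs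
      have h6 : (0 : ℝ) < ((P n).factorial : ℝ) ^ 4 := by
        have := Nat.factorial_pos (P n)
        positivity
      rw [← pow_mul] at h4
      norm_num at h4
      linarith only [h5, h6, h4]
    refine le_trans ?_ (le_covolume Λ μ (measurableSet_pbox m lam f) h3)
    rw [hpbox _ _ _ hl hf]
    refine ENNReal.ofReal_le_ofReal ?_
    generalize (((P n).factorial : ℝ) ^ 2) ^ 201 = X at h2 ⊢
    generalize (∏ i, (m i : ℝ)) * lam * f = Y at h2 ⊢
    linarith only [hc0, h2, mul_nonneg_of_nonpos_of_nonpos (le_of_lt (Mathlib.Tactic.Linarith.sub_neg_of_lt hc0)) (Mathlib.Tactic.Linarith.sub_nonpos_of_le h2)]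
  refine ⟨⟨C0 * (1 + C1) ^ d, d, fun n hn => ?_⟩, fun r => ?_, fun β =>
    not_equiv_pow _ _ _ P_tendsto fact_tendsto c (c / 4) _ _ (by positivity) hA (by positivity)
      hup hlow β⟩
  · have hsub : {x | wordLength S x ≤ n} ⊆ Box ((1 + C1) * n) := fun x hx => by
      refine Box_mono ?_ (hC1 x)
      have : wordLength S x ≤ n := hx
      nlinarith only [hn, this]
    refine (measure_mono hsub).trans ((hBox _ (by linarith only [hn, mul_nonneg_of_nonpos_of_nonpos (Mathlib.Tactic.Linarith.sub_nonpos_of_le (Mathlib.Tactic.Linarith.natCast_nonneg ℤ n)) (Mathlib.Tactic.Linarith.sub_nonpos_of_le (Mathlib.Tactic.Linarith.natCast_nonneg ℤ C1))])).trans (le_of_eq ?_))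
    congr 1
    push_cast
    rw [mul_pow, mul_assoc]
  · obtain ⟨n, hn⟩ := ((P_tendsto.const_mul_atTop hA).eventually_ge_atTop r).exists
    exact ((sysGrowth_mono S μ hn).trans (hup n)).trans_lt ENNReal.ofReal_lt_top

end Pool.Agent.Work.MP_913e71_al
end
end
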